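import Pool.Agent.Lib.MP_26a456_lc.Opp

/-!
# Counting strings = measure of clopen sets
-/

open Classical MeasureTheory

namespace Pool.Agent.SepRT

theorem coin_apply_singleton (b : Bool) : coin {b} = (2 : ENNReal)⁻¹ := by
  unfold coin
  cases b <;> simp

instance coin_prob : IsProbabilityMeasure coin := by
  constructor
  unfold coin
  rw [Measure.smul_apply, Measure.add_apply]
  simp only [measure_univ, smul_eq_mul]
  rw [one_add_one_eq_two]
  exact ENNReal.inv_mul_cancel (by norm_num) (by norm_num)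

instance colMeas_prob : IsProbabilityMeasure colMeas := by
  unfold colMeas; infer_instance

/-- the cylinder given by the first `l` bits of `Z` -/
def cyl (l : ℕ) (Z : ℕ → Bool) : Set (ℕ → Bool) := {Y | ∀ x, x < l → Y x = Z x}

theorem cyl_eq_pi (l : ℕ) (Z : ℕ → Bool) :
    cyl l Z = Set.pi (Finset.range l : Set ℕ) (fun x => {Z x}) := by
  ext Y
  simp [cyl, Set.mem_pi]

theorem cyl_measurable (l : ℕ) (Z : ℕ → Bool) : MeasurableSet (cyl l Z) := by
  rw [cyl_eq_pi]
  exact MeasurableSet.pi (Finset.countable_toSet _) (fun x _ => MeasurableSet.singleton _)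

theorem colMeas_cyl (l : ℕ) (Z : ℕ → Bool) : colMeas (cyl l Z) = (2 : ENNReal)⁻¹ ^ l := by
  rw [cyl_eq_pi]
  unfold colMeas
  rw [Measure.infinitePi_pi (μ := fun _ : ℕ => coin) (fun x _ => MeasurableSet.singleton _)]
  simp [coin_apply_singleton]

theorem colMeas_real_cyl (l : ℕ) (Z : ℕ → Bool) : colMeas.real (cyl l Z) = (1 / 2 : ℝ) ^ l := by
  rw [Measure.real, colMeas_cyl]
  simp

/-- a string of length `l` is the list of binary digits of a number below `2 ^ l` -/
theorem exists_testBit (l : ℕ) (Y : ℕ → Bool) :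
    ∃ σ, σ < 2 ^ l ∧ ∀ x, x < l → Y x = σ.testBit x := by
  refine ⟨Nat.ofBits (fun i : Fin l => Y i), Nat.ofBits_lt_two_pow _, ?_⟩
  intro x hx
  rw [Nat.testBit_ofBits_lt _ _ hx]

theorem testBit_unique (l : ℕ) {σ τ : ℕ} (hσ : σ < 2 ^ l) (hτ : τ < 2 ^ l)
    (h : ∀ x, x < l → σ.testBit x = τ.testBit x) : σ = τ := by
  apply Nat.eq_of_testBit_eq
  intro x
  by_cases hx : x < l
  · exact h x hx
  · rw [Nat.testBit_lt_two_pow (lt_of_lt_of_le hσ (Nat.pow_le_pow_right (by norm_num) (by omega))),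
      Nat.testBit_lt_two_pow (lt_of_lt_of_le hτ (Nat.pow_le_pow_right (by norm_num) (by omega)))]

theorem clopen_eq (C : (ℕ → Bool) → Prop) (l : ℕ)
    (hC : ∀ Y Y' : ℕ → Bool, (∀ x, x < l → Y x = Y' x) → (C Y ↔ C Y')) :
    {Y | C Y} = ⋃ σ ∈ (Finset.range (2 ^ l)).filter (fun σ => C (fun x => σ.testBit x)),
      cyl l (fun x => σ.testBit x) := by
  ext Y
  simp only [Set.mem_ofPred_eq, Set.mem_iUnion, Finset.mem_filter, Finset.mem_range, exists_prop]
  constructor
  · intro h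
    obtain ⟨σ, hσ, hx⟩ := exists_testBit l Y
    exact ⟨σ, ⟨hσ, (hC _ _ hx).1 h⟩, hx⟩
  · rintro ⟨σ, ⟨_, hCσ⟩, hx⟩
    exact (hC _ _ hx).2 hCσ

/-- clopen classes are measurable -/
theorem clopen_measurable (C : (ℕ → Bool) → Prop) (l : ℕ)
    (hC : ∀ Y Y' : ℕ → Bool, (∀ x, x < l → Y x = Y' x) → (C Y ↔ C Y')) :
    MeasurableSet {Y | C Y} := by
  rw [clopen_eq C l hC]
  exact Finset.measurableSet_biUnion _ (fun σ _ => cyl_measurable _ _)

/-- counting strings = measure of clopen sets -/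
theorem colMeas_count (C : (ℕ → Bool) → Prop) (l : ℕ)
    (hC : ∀ Y Y' : ℕ → Bool, (∀ x, x < l → Y x = Y' x) → (C Y ↔ C Y')) :
    colMeas.real {Y | C Y} * 2 ^ l =
      (((Finset.range (2 ^ l)).filter (fun σ => C (fun x => σ.testBit x))).card : ℝ) := by
  rw [clopen_eq C l hC, measureReal_biUnion_finset]
  · simp only [colMeas_real_cyl, Finset.sum_const, nsmul_eq_mul]
    rw [mul_assoc, ← mul_pow]
    norm_num
  · intro σ hσ τ hτ hne
    rw [Function.onFun, Set.disjoint_left]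
    intro Y h1 h2
    simp only [Finset.coe_filter, Finset.mem_range, Set.mem_ofPred_eq] at hσ hτ
    exact hne (testBit_unique l hσ.1 hτ.1 (fun x hx => (h1 x hx).symm.trans (h2 x hx)))
  · intro σ _
    exact cyl_measurable _ _

end Pool.Agent.SepRT
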