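import Pool.Agent.Lib.MP_26a456_lc.CoreD

/-!
# The core theorem
-/

open Classical Finset MeasureTheory

namespace Pool.Agent.SepRT

variable {Ω : Type} [MeasurableSpace Ω]

theorem CoverOn.mono {f : Col} {a b b' : ℕ} {D : ℝ} (h : CoverOn f a b' D) (hb : b ≤ b') :
    CoverOn f a b D :=
  fun S hS w hw => h S (fun x hx => ⟨(hS x hx).1, lt_of_lt_of_le (hS x hx).2 hb⟩) w hw

variable (μ : Measure Ω) [IsProbabilityMeasure μ]

omit [IsProbabilityMeasure μ] in
/-- no levels -/
theorem final_zero (O : Opp Ω) (G : ℕ → ℕ) (u : ℕ) (f0 : Col) (B : Finset ℕ) (t : ℕ)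
    (hB : ∀ x ∈ B, x < u) : Final μ O G 0 u f0 B t := by
  refine ⟨fun x y => if y < u then f0 x y else decide (x ∈ B), fun _ => t, rfl, ?_, ?_, ?_, ?_,
    fun l hl => absurd hl (Nat.not_lt_zero l)⟩
  · intro x y _ hy
    simp only [if_pos hy]
  · intro x y _ hy
    simp only [if_neg (Nat.not_lt.mpr hy), decide_eq_true_eq]
  · intro b y hy _
    refine ⟨fun _ => 0, ?_, ?_⟩
    · intro x hx _ hf
      simp only [if_neg (Nat.not_lt.mpr hy), decide_eq_true_eq] at hf
      have := hB x hf
      omega
    · intro x x' hx _ _ hf _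
      simp only [if_neg (Nat.not_lt.mpr hy), decide_eq_true_eq] at hf
      have := hB x hf
      omega
  · intro b S hS w hw
    refine ⟨S, Subset.refl S, ?_, by simp⟩
    intro x hx y hy _
    have h1 := (hS x hx).1
    have h2 := (hS y hy).1
    simp only [if_neg (Nat.not_lt.mpr h2), decide_eq_false_iff_not]
    intro h3
    have := hB x h3
    omega

/-- a small power times a constant -/
theorem exists_small_pow (a : ℝ) (ha0 : 0 ≤ a) (ha1 : a < 1) (c ε : ℝ) (hc : 0 ≤ c)
    (hε : 0 < ε) : ∃ n : ℕ, 1 ≤ n ∧ c * a ^ n ≤ ε := by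
  obtain ⟨n, hn⟩ := exists_pow_lt_of_lt_one (show 0 < ε / (c + 1) by positivity) ha1
  refine ⟨n + 1, by omega, ?_⟩
  have h1 : a ^ (n + 1) ≤ a ^ n := pow_le_pow_of_le_one ha0 ha1.le (Nat.le_succ n)
  have h2 : a ^ (n + 1) ≤ ε / (c + 1) := h1.trans hn.le
  calc c * a ^ (n + 1) ≤ c * (ε / (c + 1)) := mul_le_mul_of_nonneg_left h2 hc
    _ ≤ (c + 1) * (ε / (c + 1)) := by
        apply mul_le_mul_of_nonneg_right (by linarith) (by positivity)
    _ = ε := by field_simp

/-- one more level -/
theorem final_succ (O : Opp Ω) (G : ℕ → ℕ) (j : ℕ)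
    (ih : ∀ (u : ℕ) (f0 : Col) (B : Finset ℕ) (t : ℕ), (∀ x ∈ B, x < u) →
      Final μ O G j u f0 B t) (u0 : ℕ) (f0 : Col) (B : Finset ℕ) (t : ℕ)
    (hB : ∀ x ∈ B, x < u0) : Final μ O G (j + 1) u0 f0 B t := by
  have htol := tol_pos t
  have h4 : (1 : ℝ) ≤ 4 ^ j := one_le_pow₀ (by norm_num)
  have h4' : 1 / (4 : ℝ) ^ j ≤ 1 := by rw [div_le_one (by linarith)]; exact h4
  have h4'' : 0 < 1 / (4 : ℝ) ^ j := by positivity
  obtain ⟨K, hK1, hK⟩ := exists_small_pow (1 - 1 / 4 ^ j) (by linarith) (by linarith) t
    (tol t / 8) (Nat.cast_nonneg t) (by linarith)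
  obtain ⟨P, hP⟩ := exists_nat_gt ((2 * (t * K) + t : ℝ) / tol t)
  rw [div_lt_iff₀ htol] at hP
  have hPpos : 0 < P := by
    rcases Nat.eq_zero_or_pos P with h | h
    · rw [h] at hP
      have : (0 : ℝ) ≤ 2 * (t * K) + t := by positivity
      simp only [Nat.cast_zero, zero_mul] at hP
      linarith
    · exact h
  have hP1 : (1 : ℝ) ≤ P := by exact_mod_cast hPpos
  have hPi : 1 / (P : ℝ) ≤ 1 := by rw [div_le_one (by linarith)]; exact hP1
  have hPi' : 0 < 1 / (P : ℝ) := by positivity
  obtain ⟨R, hR1, hR⟩ := exists_small_pow (1 - 1 / (P : ℝ)) (by linarith) (by linarith)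
    ((P : ℝ) * t) (tol t / 8) (by positivity) (by linarith)
  have hR' : (P : ℝ) * (1 - 1 / (P : ℝ)) ^ R * t ≤ tol t / 8 := by
    calc (P : ℝ) * (1 - 1 / (P : ℝ)) ^ R * t = P * t * (1 - 1 / (P : ℝ)) ^ R := by ring
      _ ≤ _ := hR
  by_contra hcon
  -- states exist for all `r`
  have key : ∀ r, ∃ u X ρ f, State μ O u0 f0 B j t K P r u X ρ f := by
    intro r
    induction r with
    | zero =>
      refine ⟨fun _ => u0, fun _ => ∅, fun _ _ => 0, f0, ?_, ?_, fun _ _ _ _ => rfl, ?_, ?_⟩
      · refine ⟨rfl, fun l hl => absurd hl (Nat.not_lt_zero l), hB, ?_, ?_⟩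
        · intro l _ x hx; exact absurd hx (notMem_empty x)
        · intro l _ m _ x hx; exact absurd hx (notMem_empty x)
      · refine ⟨fun l hl => absurd hl (Nat.not_lt_zero l), fun l hl => absurd hl (Nat.not_lt_zero l),
          fun l hl => absurd hl (Nat.not_lt_zero l), ?_⟩
        intro l hl m hm
        omega
      · have : ∀ e, μ.real {ω | K ≤ cnt O P (fun _ => u0) (fun _ _ => 0) f0 0 e ω ∧
            Disjoint (O.Show e u0 f0 ω) (∅ : Finset ℕ)} = 0 := by
          intro e
          have : {ω | K ≤ cnt O P (fun _ => u0) (fun _ _ => 0) f0 0 e ω ∧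
            Disjoint (O.Show e u0 f0 ω) (∅ : Finset ℕ)} = ∅ := by
            ext ω
            simp only [Set.mem_ofPred_eq, Set.mem_empty_iff_false, iff_false, not_and]
            intro h
            simp only [cnt, range_zero, filter_empty, card_empty] at h
            omega
          rw [this]; simp
        simp only [this, sum_const_zero]
        linarith
      · simp only [Nat.cast_zero, zero_mul]
        have h1 : 0 ≤ ∑ e ∈ range t, ∑ k ∈ range K,
            μ.real {ω | k < cnt O P (fun _ => u0) (fun _ _ => 0) f0 0 e ω} :=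
          sum_nonneg (fun _ _ => sum_nonneg (fun _ _ => measureReal_nonneg))
        have h2 : 0 ≤ ∑ e ∈ range t, μ.real (O.Wit e u0 f0) :=
          sum_nonneg (fun _ _ => measureReal_nonneg)
        linarith
    | succ r ihr =>
      obtain ⟨u, X, ρ, f, hst⟩ := ihr
      have hrP : r < P := hst.lt μ hP
      set t' : ℕ := u r + R + G t + t + 1 with ht'
      have hBX : ∀ x ∈ B ∪ X r, x < u r := by
        intro x hx
        have hu0r : u0 ≤ u r := by
          have := u_le u r hst.bk.mono r le_rfl 0 (Nat.zero_le _)
          rwa [hst.bk.start] at this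
        rcases mem_union.mp hx with h | h
        · have := hB x h; omega
        · exact (hst.bk.mem r le_rfl x h).2
      obtain ⟨f', T', hT0, hag, hbase, hsh, hcov, hlev⟩ := ih (u r) f (B ∪ X r) t' hBX
      by_cases hev : ∃ s, u r < s ∧
        ((∃ e, e < t ∧ tol t < μ.real {ω | Indep f' (O.Show e s f' ω) ∧
          R ≤ ((O.Show e s f' ω).filter (fun x => u r ≤ x)).card}) ∨
        (∃ t', u r ≤ t' ∧
          tol t < μ.real (⋃ e ∈ range t, (O.Wit e s f' \ O.Wit e t' f'))))
      · obtain ⟨s, hs, hev⟩ := hev
        obtain ⟨u', X', ρ', h⟩ := hst.next μ hrP hK hR' hR1 f' hag hbase hsh hcov s hs hev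
        exact ⟨u', X', ρ', f', h⟩
      · exfalso
        apply hcon
        push Not at hev
        have hinv : Inv u0 B j r u X ρ f' := hst.inv.congr hst.bk.mono hag
        have hu0r : u0 ≤ u r := by
          have := u_le u r hst.bk.mono r le_rfl 0 (Nat.zero_le _)
          rwa [hst.bk.start] at this
        have hbase' : ∀ x y, x < u r → u r ≤ y → (f' x y = true ↔ x ∈ B ∨ x ∈ X r) := by
          intro x y hx hy
          rw [hbase x y hx hy, mem_union]
        refine ⟨f', fun l => match l with | 0 => t | l + 1 => T' l, rfl,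
          hst.ag.trans (hag.mono hu0r), ?_, ?_, ?_, ?_⟩
        · intro x y hx hy
          have hxX : ∀ l, l ≤ r → x ∉ X l := by
            intro l hl hxl
            have := (hst.bk.mem l hl x hxl).1
            omega
          by_cases hyr : y < u r
          · obtain ⟨l, hl, h1, h2⟩ := exists_period u r hst.bk.mono y
              (by rw [hst.bk.start]; exact hy) hyr
            have hu0l : u0 ≤ u l := by
              have := u_le u r hst.bk.mono l hl.le 0 (Nat.zero_le _)
              rwa [hst.bk.start] at this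
            rw [hinv.base l hl x y (by omega) h1 h2]
            exact ⟨fun h => h.resolve_right (hxX l hl.le), Or.inl⟩
          · rw [hbase' x y (by omega) (by omega)]
            exact ⟨fun h => h.resolve_right (hxX r le_rfl), Or.inl⟩
        · intro b
          exact shape_step hst.bk hinv b hbase' (hsh b)
        · intro b
          exact (cover_step hst.bk hinv (max b (u r)) (le_max_right _ _) hbase'
            (hcov (max b (u r)))).mono (le_max_left _ _)
        · intro l hl
          rcases l with _ | l
          · simp only [hT0]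
            refine ⟨⟨by omega, by omega⟩, ?_, ?_⟩
            · intro s
              rcases Nat.lt_or_ge (u r) s with h1 | h1
              · exact (hev s h1).2 t' (by omega)
              · have : (⋃ e ∈ range t, (O.Wit e s f' \ O.Wit e t' f')) = ∅ := by
                  rw [Set.eq_empty_iff_forall_notMem]
                  intro ω hω
                  simp only [Set.mem_iUnion, Set.mem_sdiff] at hω
                  obtain ⟨e, _, h2, h3⟩ := hω
                  exact h3 (O.wit_mono e s t' f' (by omega) h2)
                rw [this]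
                simp only [measureReal_empty]
                exact htol.le
            · intro s e he
              rcases Nat.lt_or_ge (u r) s with h1 | h1
              · refine le_trans (measureReal_mono ?_ (measure_ne_top _ _)) ((hev s h1).1 e he)
                rintro ω ⟨h2, h3⟩
                refine ⟨h2, ?_⟩
                have h4 : ((O.Show e s f' ω).filter (fun x => ¬ u r ≤ x)).card ≤ u r := by
                  have : (O.Show e s f' ω).filter (fun x => ¬ u r ≤ x) ⊆ range (u r) := by
                    intro x hx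
                    rw [mem_filter] at hx
                    rw [mem_range]
                    omega
                  have := card_le_card this
                  rwa [card_range] at this
                have h5 := card_filter_add_card_filter_not (s := O.Show e s f' ω)
                  (fun x => u r ≤ x)
                omega
              · have : {ω | Indep f' (O.Show e s f' ω) ∧ t' ≤ (O.Show e s f' ω).card} = ∅ := by
                  rw [Set.eq_empty_iff_forall_notMem]
                  rintro ω ⟨_, h3⟩
                  have := card_le_card (show_sub O e s f' ω)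
                  rw [card_range] at this
                  omega
                rw [this]
                simp only [measureReal_empty]
                exact htol.le
          · exact hlev l (by omega)
  obtain ⟨u, X, ρ, f, hst⟩ := key P
  exact lt_irrefl _ (hst.lt μ hP)

/-- the final statement holds for every number of levels -/
theorem final_all (O : Opp Ω) (G : ℕ → ℕ) (j : ℕ) :
    ∀ (u : ℕ) (f0 : Col) (B : Finset ℕ) (t : ℕ), (∀ x ∈ B, x < u) →
      Final μ O G j u f0 B t := by
  induction j with
  | zero => intro u f0 B t hB; exact final_zero μ O G u f0 B t hB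
  | succ j ih => intro u f0 B t hB; exact final_succ μ O G j ih u f0 B t hB

/-- **The core theorem.** -/
theorem core (O : Opp Ω) (G : ℕ → ℕ) (k t0 : ℕ) :
    ∃ (f : Col) (T : ℕ → ℕ), T 0 = t0 ∧ (∀ l, l < k → G (T l) ≤ T (l + 1) ∧ T l < T (l + 1)) ∧
      Shape k f ∧
      (∀ l, l < k → ∀ s, μ.real (⋃ e ∈ Finset.range (T l),
        (O.Wit e s f \ O.Wit e (T (l + 1)) f)) ≤ (1 / 2 : ℝ) ^ (2 * T l + 2)) ∧
      (∀ l, l < k → ∀ s, ∀ e, e < T l →
        μ.real {ω | Indep f (O.Show e s f ω) ∧ T (l + 1) ≤ (O.Show e s f ω).card} ≤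
          (1 / 2 : ℝ) ^ (2 * T l + 2)) := by
  obtain ⟨f, T, hT0, _, _, hsh, _, hlev⟩ := final_all μ O G k 0 (fun _ _ => false) ∅ t0
    (fun x hx => absurd hx (notMem_empty x))
  refine ⟨f, T, hT0, fun l hl => (hlev l hl).1, ?_, fun l hl => (hlev l hl).2.1,
    fun l hl => (hlev l hl).2.2⟩
  intro y
  obtain ⟨rk, h1, h2⟩ := hsh (y + 1) y (Nat.zero_le _) (Nat.lt_succ_self y)
  exact ⟨rk, fun x hx hf => h1 x (Nat.zero_le _) hx hf,
    fun x x' hxx hxy hf hf' => h2 x x' (Nat.zero_le _) hxx hxy hf hf'⟩

end Pool.Agent.SepRT
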