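import Pool.Agent.Lib.MP_26a456_lc.Opp

/-!
# Finite combinatorics for the core theorem
-/

open Classical Finset

namespace Pool.Agent.SepRT

theorem Indep.mono {f : Col} {X Y : Finset ℕ} (h : Indep f Y) (hXY : X ⊆ Y) : Indep f X :=
  fun x hx y hy hxy => h x (hXY hx) y (hXY hy) hxy

/-- The capture lemma. -/
theorem capture (f : Col) (δ : ℝ) (hδ1 : δ ≤ 1) {ι : Type} (I : Finset ι)
    (J : ℕ → Finset ℕ) (T : ℕ → ι → Finset ℕ) (hT : ∀ l i, T l i ⊆ J l) (r : ℕ)
    (hcov : ∀ l, l < r → ∀ v : ℕ → ℝ, (∀ x, 0 ≤ v x) →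
      ∃ X, X ⊆ J l ∧ Indep f X ∧ δ * ∑ x ∈ J l, v x ≤ ∑ x ∈ X, v x) :
    ∀ (w : ι → ℝ), (∀ i, 0 ≤ w i) →
      ∃ X : ℕ → Finset ℕ, (∀ l, l < r → X l ⊆ J l ∧ Indep f (X l)) ∧
      ∑ i ∈ I.filter (fun i => ∀ l, l < r → Disjoint (T l i) (X l)), w i ≤
        ∑ i ∈ I, w i * (1 - δ) ^ ((range r).filter (fun l => (T l i).Nonempty)).card := by
  induction r with
  | zero =>
    intro w hw
    refine ⟨fun _ => ∅, fun l hl => absurd hl (Nat.not_lt_zero l), ?_⟩
    simp only [range_zero, filter_empty, card_empty, pow_zero, mul_one]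
    exact sum_le_sum_of_subset_of_nonneg (filter_subset _ _) (fun i _ _ => hw i)
  | succ r ih =>
    intro w hw
    have hδ : 0 ≤ 1 - δ := by linarith
    -- the weights seen by round `r`
    set w1 : ι → ℝ := fun i =>
      w i * (1 - δ) ^ ((range r).filter (fun l => (T l i).Nonempty)).card with hw1
    have hw1nn : ∀ i, 0 ≤ w1 i := fun i => mul_nonneg (hw i) (pow_nonneg hδ _)
    set sel : ι → ℕ := fun i => if h : (T r i).Nonempty then (T r i).min' h else 0 with hsel
    set N := I.filter (fun i => (T r i).Nonempty) with hN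
    have hselT : ∀ i ∈ N, sel i ∈ T r i := by
      intro i hi
      have h := (mem_filter.mp hi).2
      simp only [hsel, dif_pos h]
      exact min'_mem _ h
    obtain ⟨Xr, hXr, hXi, hXc⟩ := hcov r (Nat.lt_succ_self r)
      (fun x => ∑ i ∈ N.filter (fun i => sel i = x), w1 i)
      (fun x => sum_nonneg (fun i _ => hw1nn i))
    have hsumJ : ∑ x ∈ J r, ∑ i ∈ N.filter (fun i => sel i = x), w1 i = ∑ i ∈ N, w1 i :=
      sum_fiberwise_of_maps_to (fun i hi => hT r i (hselT i hi)) w1
    rw [hsumJ] at hXc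
    have hsumX : ∑ x ∈ Xr, ∑ i ∈ N.filter (fun i => sel i = x), w1 i =
        ∑ i ∈ N.filter (fun i => sel i ∈ Xr), w1 i := by
      rw [← sum_fiberwise_of_maps_to (s := N.filter (fun i => sel i ∈ Xr)) (t := Xr) (g := sel)
        (fun i hi => (mem_filter.mp hi).2) w1]
      apply sum_congr rfl
      intro x hx
      apply sum_congr ?_ (fun _ _ => rfl)
      ext i
      simp only [mem_filter]
      constructor
      · rintro ⟨h1, h2⟩; exact ⟨⟨h1, by rw [h2]; exact hx⟩, h2⟩
      · rintro ⟨⟨h1, _⟩, h2⟩; exact ⟨h1, h2⟩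
    rw [hsumX] at hXc
    -- weights for the other rounds
    set w2 : ι → ℝ := fun i => if Disjoint (T r i) Xr then w i else 0 with hw2
    obtain ⟨X, hX, hXs⟩ := ih (fun l hl => hcov l (Nat.lt_succ_of_lt hl)) w2
      (fun i => by simp only [hw2]; split <;> simp [hw])
    refine ⟨fun l => if l = r then Xr else X l, ?_, ?_⟩
    · intro l hl
      by_cases hlr : l = r
      · simp only [hlr, if_true]; exact ⟨hXr, hXi⟩
      · simp only [hlr, if_false]; exact hX l (by omega)
    · have e1 : ∑ i ∈ I.filter (fun i => ∀ l, l < r + 1 →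
          Disjoint (T l i) (if l = r then Xr else X l)), w i ≤
          ∑ i ∈ I.filter (fun i => ∀ l, l < r → Disjoint (T l i) (X l)), w2 i := by
        have : ∑ i ∈ I.filter (fun i => ∀ l, l < r + 1 →
          Disjoint (T l i) (if l = r then Xr else X l)), w i =
          ∑ i ∈ I.filter (fun i => ∀ l, l < r + 1 →
          Disjoint (T l i) (if l = r then Xr else X l)), w2 i := by
          apply sum_congr rfl
          intro i hi
          have := (mem_filter.mp hi).2 r (Nat.lt_succ_self r)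
          rw [if_pos rfl] at this
          simp only [hw2, if_pos this]
        rw [this]
        apply sum_le_sum_of_subset_of_nonneg
        · intro i hi
          rw [mem_filter] at hi ⊢
          refine ⟨hi.1, fun l hl => ?_⟩
          have := hi.2 l (by omega)
          rwa [if_neg (by omega)] at this
        · intro i _ _
          simp only [hw2]; split <;> simp [hw]
      refine e1.trans (hXs.trans ?_)
      -- now the estimate for round `r`
      have e2 : ∑ i ∈ I, w2 i * (1 - δ) ^ ((range r).filter (fun l => (T l i).Nonempty)).card =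
          ∑ i ∈ I.filter (fun i => Disjoint (T r i) Xr), w1 i := by
        rw [sum_filter]
        apply sum_congr rfl
        intro i _
        simp only [hw2, hw1]
        split <;> simp
      have e3 : ∑ i ∈ I.filter (fun i => Disjoint (T r i) Xr), w1 i +
          ∑ i ∈ N.filter (fun i => sel i ∈ Xr), w1 i ≤ ∑ i ∈ I, w1 i := by
        rw [← sum_union]
        · apply sum_le_sum_of_subset_of_nonneg
          · intro i hi
            rw [mem_union, mem_filter, mem_filter, hN, mem_filter] at hi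
            rcases hi with h | h
            · exact h.1
            · exact h.1.1
          · intro i _ _; exact hw1nn i
        · rw [disjoint_left]
          intro i hi hi2
          have h1 := (mem_filter.mp hi).2
          have h2 := mem_filter.mp hi2
          exact disjoint_left.mp h1 (hselT i h2.1) h2.2
      have e4 : ∑ i ∈ I, w i * (1 - δ) ^
          ((range (r + 1)).filter (fun l => (T l i).Nonempty)).card =
          ∑ i ∈ I, w1 i - δ * ∑ i ∈ N, w1 i := by
        rw [hN, sum_filter, mul_sum, ← sum_sub_distrib]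
        apply sum_congr rfl
        intro i _
        rw [range_add_one, filter_insert]
        by_cases hne : (T r i).Nonempty
        · rw [if_pos hne, if_pos hne, card_insert_of_notMem (by simp)]
          simp only [hw1]
          ring
        · rw [if_neg hne, if_neg hne]
          simp only [hw1]
          ring
      rw [e2, e4]
      linarith

/-- The assignment lemma, general weights. -/
theorem assign_aux {ι : Type} (I : Finset ι) (C : Finset ℕ) (hC : C.Nonempty) (P : ℕ)
    (hP : C.card ≤ P) (T : ι → Finset ℕ) (J : Finset ℕ) :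
    ∀ (w : ι → ℕ → ℝ), (∀ i c, 0 ≤ w i c) → ∃ ρ : ℕ → ℕ, (∀ x, ρ x ∈ C) ∧
      ∑ i ∈ I, ∑ c ∈ C.filter (fun c => ∀ x ∈ T i ∩ J, ρ x ≠ c), w i c ≤
        ∑ i ∈ I, ∑ c ∈ C, w i c * (1 - 1 / (P : ℝ)) ^ (T i ∩ J).card := by
  have hCpos : 0 < C.card := card_pos.mpr hC
  have hPpos : (0 : ℝ) < P := by exact_mod_cast lt_of_lt_of_le hCpos hP
  have hP1 : (1 : ℝ) ≤ P := by exact_mod_cast lt_of_lt_of_le hCpos hP
  have hq : 0 ≤ 1 - 1 / (P : ℝ) := by
    have : 1 / (P : ℝ) ≤ 1 := by rw [div_le_one hPpos]; exact hP1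
    linarith
  induction J using Finset.induction_on with
  | empty =>
    intro w hw
    obtain ⟨c0, hc0⟩ := hC
    refine ⟨fun _ => c0, fun _ => hc0, ?_⟩
    apply sum_le_sum
    intro i _
    simp only [inter_empty, card_empty, pow_zero, mul_one]
    exact sum_le_sum_of_subset_of_nonneg (filter_subset _ _) (fun c _ _ => hw i c)
  | insert x J hx ih =>
    intro w hw
    set w1 : ι → ℕ → ℝ := fun i c => w i c * (1 - 1 / (P : ℝ)) ^ (T i ∩ J).card with hw1
    have hw1nn : ∀ i c, 0 ≤ w1 i c := fun i c => mul_nonneg (hw i c) (pow_nonneg hq _)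
    set N := I.filter (fun i => x ∈ T i) with hN
    -- the best class for `x`
    obtain ⟨c0, hc0, hmax⟩ := exists_max_image C (fun c => ∑ i ∈ N, w1 i c) hC
    have havg : ∑ c ∈ C, ∑ i ∈ N, w1 i c ≤ P * ∑ i ∈ N, w1 i c0 := by
      calc ∑ c ∈ C, ∑ i ∈ N, w1 i c ≤ ∑ _c ∈ C, ∑ i ∈ N, w1 i c0 := sum_le_sum hmax
        _ = C.card * ∑ i ∈ N, w1 i c0 := by rw [sum_const, nsmul_eq_mul]
        _ ≤ P * ∑ i ∈ N, w1 i c0 := by
          apply mul_le_mul_of_nonneg_right
          · exact_mod_cast hP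
          · exact sum_nonneg (fun i _ => hw1nn i c0)
    set w2 : ι → ℕ → ℝ := fun i c => if x ∈ T i ∧ c = c0 then 0 else w i c with hw2
    obtain ⟨ρ, hρC, hρ⟩ := ih w2 (fun i c => by simp only [hw2]; split <;> simp [hw])
    refine ⟨fun y => if y = x then c0 else ρ y, ?_, ?_⟩
    · intro y
      by_cases h : y = x
      · simp only [h, if_true]; exact hc0
      · simp only [h, if_false]; exact hρC y
    · have e1 : ∑ i ∈ I, ∑ c ∈ C.filter
          (fun c => ∀ y ∈ T i ∩ insert x J, (if y = x then c0 else ρ y) ≠ c), w i c ≤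
          ∑ i ∈ I, ∑ c ∈ C.filter (fun c => ∀ y ∈ T i ∩ J, ρ y ≠ c), w2 i c := by
        apply sum_le_sum
        intro i _
        have : ∑ c ∈ C.filter
          (fun c => ∀ y ∈ T i ∩ insert x J, (if y = x then c0 else ρ y) ≠ c), w i c =
          ∑ c ∈ C.filter
          (fun c => ∀ y ∈ T i ∩ insert x J, (if y = x then c0 else ρ y) ≠ c), w2 i c := by
          apply sum_congr rfl
          intro c hc
          have h := (mem_filter.mp hc).2
          simp only [hw2]
          rw [if_neg]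
          rintro ⟨h1, h2⟩
          have := h x (mem_inter.mpr ⟨h1, mem_insert_self x J⟩)
          rw [if_pos rfl] at this
          exact this h2.symm
        rw [this]
        apply sum_le_sum_of_subset_of_nonneg
        · intro c hc
          rw [mem_filter] at hc ⊢
          refine ⟨hc.1, fun y hy => ?_⟩
          have hyx : y ≠ x := by
            rintro rfl
            exact hx (mem_inter.mp hy).2
          have := hc.2 y (mem_inter.mpr ⟨(mem_inter.mp hy).1,
            mem_insert_of_mem (mem_inter.mp hy).2⟩)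
          rwa [if_neg hyx] at this
        · intro c _ _
          simp only [hw2]; split <;> simp [hw]
      refine e1.trans (hρ.trans ?_)
      have e2 : ∑ i ∈ I, ∑ c ∈ C, w2 i c * (1 - 1 / (P : ℝ)) ^ (T i ∩ J).card =
          ∑ i ∈ I, ∑ c ∈ C, w1 i c - ∑ i ∈ N, w1 i c0 := by
        rw [hN, sum_filter, ← sum_sub_distrib]
        apply sum_congr rfl
        intro i _
        by_cases hxi : x ∈ T i
        · rw [if_pos hxi, ← sum_erase_add _ _ hc0, ← sum_erase_add C (w1 i) hc0]
          simp only [hw2, hw1, hxi, true_and, if_true, zero_mul, add_zero]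
          rw [add_sub_cancel_right]
          apply sum_congr rfl
          intro c hc
          rw [if_neg (ne_of_mem_erase hc)]
        · rw [if_neg hxi, sub_zero]
          apply sum_congr rfl
          intro c _
          simp only [hw2, hw1, hxi, false_and, if_false]
      have e3 : ∑ i ∈ I, ∑ c ∈ C, w i c * (1 - 1 / (P : ℝ)) ^ (T i ∩ insert x J).card =
          ∑ i ∈ I, ∑ c ∈ C, w1 i c - 1 / (P : ℝ) * ∑ i ∈ N, ∑ c ∈ C, w1 i c := by
        rw [hN, sum_filter, mul_sum, ← sum_sub_distrib]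
        apply sum_congr rfl
        intro i _
        by_cases hxi : x ∈ T i
        · rw [if_pos hxi, inter_insert_of_mem hxi,
            card_insert_of_notMem (fun h => hx (mem_inter.mp h).2), mul_sum,
            ← sum_sub_distrib]
          apply sum_congr rfl
          intro c _
          simp only [hw1]
          ring
        · rw [if_neg hxi, inter_insert_of_notMem hxi, mul_zero, sub_zero]
      rw [e2, e3]
      have e4 : 1 / (P : ℝ) * ∑ i ∈ N, ∑ c ∈ C, w1 i c ≤ ∑ i ∈ N, w1 i c0 := by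
        rw [sum_comm, one_div, inv_mul_le_iff₀ hPpos]
        exact havg
      linarith

/-- The assignment lemma. -/
theorem assign {ι : Type} (I : Finset ι) (C : Finset ℕ) (hC : C.Nonempty) (P R : ℕ)
    (hP : C.card ≤ P) (T : ι → Finset ℕ) (J : Finset ℕ)
    (hT : ∀ i ∈ I, R ≤ (T i ∩ J).card) (w : ι → ℝ) (hw : ∀ i, 0 ≤ w i) :
    ∃ ρ : ℕ → ℕ, (∀ x, ρ x ∈ C) ∧
      ∑ i ∈ I.filter (fun i => ∃ c ∈ C, ∀ x ∈ T i ∩ J, ρ x ≠ c), w i ≤
        P * (1 - 1 / (P : ℝ)) ^ R * ∑ i ∈ I, w i := by
  have hCpos : 0 < C.card := card_pos.mpr hC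
  have hPpos : (0 : ℝ) < P := by exact_mod_cast lt_of_lt_of_le hCpos hP
  have hP1 : (1 : ℝ) ≤ P := by exact_mod_cast lt_of_lt_of_le hCpos hP
  have hq : 0 ≤ 1 - 1 / (P : ℝ) := by
    have : 1 / (P : ℝ) ≤ 1 := by rw [div_le_one hPpos]; exact hP1
    linarith
  have hq1 : 1 - 1 / (P : ℝ) ≤ 1 := by
    have : 0 ≤ 1 / (P : ℝ) := by positivity
    linarith
  obtain ⟨ρ, hρC, hρ⟩ := assign_aux I C hC P hP T J (fun i _ => w i) (fun i _ => hw i)
  refine ⟨ρ, hρC, ?_⟩
  have e1 : ∑ i ∈ I.filter (fun i => ∃ c ∈ C, ∀ x ∈ T i ∩ J, ρ x ≠ c), w i ≤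
      ∑ i ∈ I, ∑ c ∈ C.filter (fun c => ∀ x ∈ T i ∩ J, ρ x ≠ c), w i := by
    rw [sum_filter]
    apply sum_le_sum
    intro i _
    split
    · rename_i h
      obtain ⟨c, hc, hcx⟩ := h
      exact single_le_sum (f := fun _ => w i) (fun _ _ => hw i)
        (mem_filter.mpr ⟨hc, hcx⟩)
    · exact sum_nonneg (fun _ _ => hw i)
  refine e1.trans (hρ.trans ?_)
  rw [mul_sum]
  apply sum_le_sum
  intro i hi
  rw [sum_const, nsmul_eq_mul]
  have h1 : (1 - 1 / (P : ℝ)) ^ (T i ∩ J).card ≤ (1 - 1 / (P : ℝ)) ^ R :=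
    pow_le_pow_of_le_one hq hq1 (hT i hi)
  have h2 : (C.card : ℝ) ≤ P := by exact_mod_cast hP
  have h3 : (0 : ℝ) ≤ (1 - 1 / (P : ℝ)) ^ (T i ∩ J).card := pow_nonneg hq _
  calc (C.card : ℝ) * (w i * (1 - 1 / (P : ℝ)) ^ (T i ∩ J).card)
      ≤ P * (w i * (1 - 1 / (P : ℝ)) ^ R) := by
        apply mul_le_mul h2 (mul_le_mul_of_nonneg_left h1 (hw i))
          (mul_nonneg (hw i) h3) hPpos.le
    _ = P * (1 - 1 / (P : ℝ)) ^ R * w i := by ring

end Pool.Agent.SepRT
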