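import Pool.Agent.Lib.MP_26a456_lc.CoreA

/-!
# The structural invariants of the construction: cover property and shape
-/

open Classical Finset

namespace Pool.Agent.SepRT

/-- Every finite weighted set of numbers in `[a, b)` contains an independent set of relative
weight at least `1 / D`. -/
def CoverOn (f : Col) (a b : ℕ) (D : ℝ) : Prop :=
  ∀ S : Finset ℕ, (∀ x ∈ S, a ≤ x ∧ x < b) → ∀ w : ℕ → ℝ, (∀ x, 0 ≤ w x) →
    ∃ X, X ⊆ S ∧ Indep f X ∧ ∑ x ∈ S, w x ≤ D * ∑ x ∈ X, w x

/-- the shape condition for the lower neighbours in `[a, y)` of the numbers `y` in `[a, b)` -/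
def ShapeOn (f : Col) (a b k : ℕ) : Prop :=
  ∀ y, a ≤ y → y < b → ∃ r : ℕ → ℕ, (∀ x, a ≤ x → x < y → f x y = true → r x < k) ∧
    ∀ x x', a ≤ x → x < x' → x' < y → f x y = true → f x' y = true →
      r x ≤ r x' ∧ (f x x' = true ↔ r x < r x')

/-- locate the period of a number -/
theorem exists_period (u : ℕ → ℕ) (r : ℕ) (hu : ∀ l, l < r → u l < u (l + 1)) (y : ℕ)
    (h0 : u 0 ≤ y) (h1 : y < u r) : ∃ l, l < r ∧ u l ≤ y ∧ y < u (l + 1) := by
  induction r with
  | zero => omega
  | succ r ih =>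
    by_cases h : y < u r
    · obtain ⟨l, hl, h2⟩ := ih (fun l hl => hu l (by omega)) h
      exact ⟨l, by omega, h2⟩
    · exact ⟨r, by omega, by omega, h1⟩

theorem u_le (u : ℕ → ℕ) (r : ℕ) (hu : ∀ l, l < r → u l < u (l + 1)) :
    ∀ b, b ≤ r → ∀ a, a ≤ b → u a ≤ u b := by
  intro b
  induction b with
  | zero => intro _ a ha; rw [Nat.le_zero.mp ha]
  | succ b ih =>
    intro hb a ha
    rcases Nat.lt_or_ge a (b + 1) with h | h
    · exact (ih (by omega) a (by omega)).trans (hu b (by omega)).le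
    · rw [le_antisymm ha h]

theorem u_lt (u : ℕ → ℕ) (r : ℕ) (hu : ∀ l, l < r → u l < u (l + 1)) (a b : ℕ) (hb : b ≤ r)
    (hab : a < b) : u a < u b := by
  have h1 := hu a (by omega)
  have h2 := u_le u r hu b hb (a + 1) (by omega)
  omega

/-- two periods containing the same number are equal -/
theorem period_unique (u : ℕ → ℕ) (r : ℕ) (hu : ∀ l, l < r → u l < u (l + 1)) (a b : ℕ)
    (ha : a < r) (hb : b < r) (x : ℕ) (h1 : u a ≤ x) (h2 : x < u (a + 1)) (h3 : u b ≤ x)
    (h4 : x < u (b + 1)) : a = b := by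
  rcases lt_trichotomy a b with h | h | h
  · have := u_le u r hu b hb.le (a + 1) (by omega); omega
  · exact h
  · have := u_le u r hu a ha.le (b + 1) (by omega); omega

/-- The structure of the construction with finished periods `[u l, u (l + 1))`, `l < r`. -/
structure Inv (u0 : ℕ) (B : Finset ℕ) (j : ℕ) (r : ℕ) (u : ℕ → ℕ) (X : ℕ → Finset ℕ)
    (ρ : ℕ → ℕ → ℕ) (f : Col) : Prop where
  base : ∀ l, l < r → ∀ x y, x < u l → u l ≤ y → y < u (l + 1) →
    (f x y = true ↔ x ∈ B ∨ x ∈ X l)
  shape : ∀ l, l < r → ShapeOn f (u l) (u (l + 1)) j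
  cov : ∀ l, l < r → CoverOn f (u l) (u (l + 1)) (4 ^ j)
  ind : ∀ l, l ≤ r → ∀ m, m < l →
    Indep f ((X l).filter (fun x => u m ≤ x ∧ x < u (m + 1)))

/-- The bookkeeping that does not depend on the colouring. -/
structure Bk (u0 : ℕ) (B : Finset ℕ) (r : ℕ) (u : ℕ → ℕ) (X : ℕ → Finset ℕ)
    (ρ : ℕ → ℕ → ℕ) : Prop where
  start : u 0 = u0
  mono : ∀ l, l < r → u l < u (l + 1)
  B_lt : ∀ x ∈ B, x < u0
  mem : ∀ l, l ≤ r → ∀ x ∈ X l, u0 ≤ x ∧ x < u l
  cls : ∀ l, l ≤ r → ∀ m, m < l → ∀ x ∈ X l, u m ≤ x → x < u (m + 1) → ρ m x = l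

theorem Bk.once {u0 : ℕ} {B : Finset ℕ} {r : ℕ} {u : ℕ → ℕ} {X : ℕ → Finset ℕ}
    {ρ : ℕ → ℕ → ℕ} (h : Bk u0 B r u X ρ) {l m : ℕ} (hl : l ≤ r) (hm : m ≤ r)
    {x : ℕ} (hxl : x ∈ X l) (hxm : x ∈ X m) : l = m := by
  rcases lt_trichotomy l m with hlm | hlm | hlm
  · obtain ⟨p, hp, h1, h2⟩ := exists_period u l (fun q hq => h.mono q (by omega)) x
      (by rw [h.start]; exact (h.mem l hl x hxl).1) (h.mem l hl x hxl).2
    rw [← h.cls l hl p hp x hxl h1 h2, ← h.cls m hm p (by omega) x hxm h1 h2]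
  · exact hlm
  · obtain ⟨p, hp, h1, h2⟩ := exists_period u m (fun q hq => h.mono q (by omega)) x
      (by rw [h.start]; exact (h.mem m hm x hxm).1) (h.mem m hm x hxm).2
    rw [← h.cls l hl p (by omega) x hxl h1 h2, ← h.cls m hm p hp x hxm h1 h2]

/-- the active sets are independent -/
theorem Inv.indep {u0 : ℕ} {B : Finset ℕ} {j r : ℕ} {u : ℕ → ℕ} {X : ℕ → Finset ℕ}
    {ρ : ℕ → ℕ → ℕ} {f : Col} (h : Inv u0 B j r u X ρ f) (hb : Bk u0 B r u X ρ)
    {l : ℕ} (hl : l ≤ r) : Indep f (X l) := by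
  intro x hx y hy hxy
  obtain ⟨p, hp, h1, h2⟩ := exists_period u l (fun q hq => hb.mono q (by omega)) x
      (by rw [hb.start]; exact (hb.mem l hl x hx).1) (hb.mem l hl x hx).2
  obtain ⟨q, hq, h3, h4⟩ := exists_period u l (fun q hq => hb.mono q (by omega)) y
      (by rw [hb.start]; exact (hb.mem l hl y hy).1) (hb.mem l hl y hy).2
  by_cases hpq : p = q
  · subst hpq
    exact h.ind l hl p hp x (mem_filter.mpr ⟨hx, h1, h2⟩) y (mem_filter.mpr ⟨hy, h3, h4⟩) hxy
  · have hlt : p < q := by
      rcases lt_trichotomy p q with h5 | h5 | h5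
      · exact h5
      · exact absurd h5 hpq
      · have := u_le u r hb.mono p (by omega) (q + 1) (by omega)
        omega
    have hxq : x < u q := lt_of_lt_of_le h2 (u_le u r hb.mono q (by omega) (p + 1) (by omega))
    have h5 := (h.base q (by omega) x y hxq h3 h4)
    cases hf : f x y with
    | false => rfl
    | true =>
      rcases h5.mp hf with h6 | h6
      · have := hb.B_lt x h6
        have := (hb.mem l hl x hx).1
        omega
      · have := hb.once hl (by omega : q ≤ r) hx h6
        omega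

theorem card_count (n l : ℕ) (hl : l < n) (p : ℕ → Prop) (hp : ∀ a b, p a → p b → a = b)
    (hpl : ¬ p l) :
    2 ^ n ≤ 4 * (((range n).powerset).filter (fun A => l ∈ A ∧ ∀ m ∈ A, ¬ p m)).card := by
  have hsub : ∀ m, ((Finset.Icc {l} ((range n).erase m)) : Finset (Finset ℕ)) ⊆
      (range n).powerset := by
    intro m A hA
    rw [Finset.mem_Icc] at hA
    exact mem_powerset.mpr (hA.2.trans (erase_subset _ _))
  by_cases h : ∃ m, m < n ∧ p m
  · obtain ⟨m, hm, hpm⟩ := h
    have hne : l ≠ m := by rintro rfl; exact hpl hpm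
    have h1 : (Finset.Icc {l} ((range n).erase m)).card =
        2 ^ (((range n).erase m).card - ({l} : Finset ℕ).card) := by
      apply card_Icc_finset
      rw [singleton_subset_iff, mem_erase]
      exact ⟨hne, mem_range.mpr hl⟩
    have h2 : Finset.Icc {l} ((range n).erase m) ⊆
        ((range n).powerset).filter (fun A => l ∈ A ∧ ∀ m ∈ A, ¬ p m) := by
      intro A hA
      rw [mem_filter]
      refine ⟨hsub m hA, ?_, ?_⟩
      · rw [Finset.mem_Icc] at hA
        exact singleton_subset_iff.mp hA.1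
      · intro q hq hpq
        rw [Finset.mem_Icc] at hA
        have := hA.2 hq
        rw [mem_erase] at this
        exact this.1 (hp q m hpq hpm)
    have h3 := card_le_card h2
    rw [h1, card_erase_of_mem (mem_range.mpr hm), card_range, card_singleton] at h3
    have h4 : 2 ^ n = 4 * 2 ^ (n - 1 - 1) := by
      obtain ⟨n', rfl⟩ : ∃ n', n = n' + 2 := ⟨n - 2, by omega⟩
      rw [show n' + 2 - 1 - 1 = n' by omega]; ring
    rw [h4]
    exact Nat.mul_le_mul_left 4 h3
  · push Not at h
    have h1 : (Finset.Icc {l} (range n)).card =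
        2 ^ ((range n).card - ({l} : Finset ℕ).card) := by
      apply card_Icc_finset
      rw [singleton_subset_iff]
      exact mem_range.mpr hl
    have h2 : Finset.Icc {l} (range n) ⊆
        ((range n).powerset).filter (fun A => l ∈ A ∧ ∀ m ∈ A, ¬ p m) := by
      intro A hA
      rw [mem_filter]
      rw [Finset.mem_Icc] at hA
      refine ⟨mem_powerset.mpr hA.2, singleton_subset_iff.mp hA.1, ?_⟩
      intro q hq
      exact h q (mem_range.mp (hA.2 hq))
    have h3 := card_le_card h2
    rw [h1, card_range, card_singleton] at h3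
    have h4 : 2 ^ n = 2 * 2 ^ (n - 1) := by
      obtain ⟨n', rfl⟩ : ∃ n', n = n' + 1 := ⟨n - 1, by omega⟩
      rw [show n' + 1 - 1 = n' by omega]; ring
    rw [h4]
    omega

/-- The cover step: `r + 1` periods, the last one being unbounded (`[u r, b)`). -/
theorem cover_step {u0 : ℕ} {B : Finset ℕ} {j r : ℕ} {u : ℕ → ℕ} {X : ℕ → Finset ℕ}
    {ρ : ℕ → ℕ → ℕ} {f : Col} (hb : Bk u0 B r u X ρ)
    (h : Inv u0 B j r u X ρ f) (b : ℕ) (hub : u r ≤ b)
    (hbase : ∀ x y, x < u r → u r ≤ y → (f x y = true ↔ x ∈ B ∨ x ∈ X r))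
    (hcov : CoverOn f (u r) b (4 ^ j)) : CoverOn f u0 b (4 ^ (j + 1)) := by
  intro S hS w hw
  -- the period function
  set u' : ℕ → ℕ := fun l => if l ≤ r then u l else b + 1 with hu'
  have hu'mono : ∀ l, l < r + 1 → u' l < u' (l + 1) := by
    intro l hl
    simp only [hu']
    by_cases h1 : l + 1 ≤ r
    · rw [if_pos (by omega), if_pos h1]; exact hb.mono l (by omega)
    · rw [if_pos (by omega), if_neg h1, show l = r by omega]; omega
  have hper : ∀ x ∈ S, ∃ l, l < r + 1 ∧ u' l ≤ x ∧ x < u' (l + 1) := by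
    intro x hx
    apply exists_period u' (r + 1) hu'mono
    · simp only [hu']; rw [if_pos (Nat.zero_le _), hb.start]; exact (hS x hx).1
    · simp only [hu']; rw [if_neg (by omega)]; have := (hS x hx).2; omega
  set L : ℕ → ℕ := fun x => if hx : x ∈ S then Classical.choose (hper x hx) else 0 with hL
  have hLs : ∀ x ∈ S, L x < r + 1 ∧ u' (L x) ≤ x ∧ x < u' (L x + 1) := by
    intro x hx
    simp only [hL, dif_pos hx]
    exact Classical.choose_spec (hper x hx)
  -- facts about X
  have hXbig : ∀ l, l ≤ r → ∀ x ∈ S, x ∈ X l → L x < l := by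
    intro l hl x hx hxl
    by_contra hcon
    push Not at hcon
    have h1 := (hb.mem l hl x hxl).2
    have h2 := (hLs x hx).2.1
    have h3 : u' (L x) = u (L x) := by
      simp only [hu']; rw [if_pos (by have := (hLs x hx).1; omega)]
    rw [h3] at h2
    have := u_le u r hb.mono (L x) (by have := (hLs x hx).1; omega) l hcon
    omega
  set V : Finset ℕ → Finset ℕ := fun A => S.filter (fun x => L x ∈ A ∧ ∀ m ∈ A, ¬ (m ≤ r ∧ x ∈ X m))
    with hV
  -- averaging
  have havg : ∑ x ∈ S, w x * 2 ^ (r + 1) ≤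
      4 * ∑ A ∈ (range (r + 1)).powerset, ∑ x ∈ V A, w x := by
    have : ∑ A ∈ (range (r + 1)).powerset, ∑ x ∈ V A, w x = ∑ x ∈ S,
        (((range (r + 1)).powerset.filter
          (fun A => L x ∈ A ∧ ∀ m ∈ A, ¬ (m ≤ r ∧ x ∈ X m))).card : ℝ) * w x := by
      simp only [hV, sum_filter]
      rw [sum_comm]
      apply sum_congr rfl
      intro x _
      rw [← sum_filter, sum_const, nsmul_eq_mul]
    rw [this, mul_sum]
    apply sum_le_sum
    intro x hx
    have hc := card_count (r + 1) (L x) (hLs x hx).1 (fun m => m ≤ r ∧ x ∈ X m)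
      (fun a c ha hc => hb.once ha.1 hc.1 ha.2 hc.2)
      (fun hm => by have := hXbig (L x) hm.1 x hx hm.2; omega)
    have hc' : (2 : ℝ) ^ (r + 1) ≤ 4 * (((range (r + 1)).powerset.filter
          (fun A => L x ∈ A ∧ ∀ m ∈ A, ¬ (m ≤ r ∧ x ∈ X m))).card : ℝ) := by
      have hc2 : 2 ^ (r + 1) ≤ 4 * ((range (r + 1)).powerset.filter
          (fun A => L x ∈ A ∧ ∀ m ∈ A, ¬ (m ≤ r ∧ x ∈ X m))).card := by
        convert hc
      exact_mod_cast hc2
    nlinarith [hw x]
  obtain ⟨A, hA, hAw⟩ : ∃ A ∈ (range (r + 1)).powerset, ∑ x ∈ S, w x ≤ 4 * ∑ x ∈ V A, w x := by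
    by_contra hcon
    push Not at hcon
    have h1 : ∑ A ∈ (range (r + 1)).powerset, 4 * ∑ x ∈ V A, w x <
        ∑ _A ∈ (range (r + 1)).powerset, ∑ x ∈ S, w x := by
      apply sum_lt_sum_of_nonempty ⟨∅, empty_mem_powerset _⟩
      exact hcon
    rw [sum_const, card_powerset, card_range, nsmul_eq_mul, ← mul_sum] at h1
    rw [← sum_mul] at havg
    push_cast at h1
    linarith
  -- choose independent sets in each period
  have hch : ∀ l, ∃ Y, Y ⊆ (V A).filter (fun x => L x = l) ∧ Indep f Y ∧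
      ∑ x ∈ (V A).filter (fun x => L x = l), w x ≤ 4 ^ j * ∑ x ∈ Y, w x := by
    intro l
    rcases Nat.lt_trichotomy l r with h1 | h1 | h1
    · apply h.cov l h1
      · intro x hx
        rw [mem_filter] at hx
        have hxS : x ∈ S := (mem_filter.mp hx.1).1
        have h2 := hLs x hxS
        rw [hx.2] at h2
        simp only [hu'] at h2
        rw [if_pos (by omega), if_pos (by omega)] at h2
        exact h2.2
      · exact hw
    · apply hcov
      · intro x hx
        rw [mem_filter] at hx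
        have hxS : x ∈ S := (mem_filter.mp hx.1).1
        have h2 := hLs x hxS
        rw [hx.2, h1] at h2
        simp only [hu'] at h2
        rw [if_pos le_rfl] at h2
        exact ⟨h2.2.1, (hS x hxS).2⟩
      · exact hw
    · refine ⟨∅, empty_subset _, fun x hx => absurd hx (notMem_empty x), ?_⟩
      have : (V A).filter (fun x => L x = l) = ∅ := by
        rw [filter_eq_empty_iff]
        intro x hx hxl
        have := (hLs x (mem_filter.mp hx).1).1
        omega
      rw [this]; simp
  choose Y hY1 hY2 hY3 using hch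
  refine ⟨(range (r + 1)).biUnion Y, ?_, ?_, ?_⟩
  · intro x hx
    obtain ⟨l, _, hxl⟩ := mem_biUnion.mp hx
    exact (mem_filter.mp (mem_filter.mp (hY1 l hxl)).1).1
  · intro x hx y hy hxy
    obtain ⟨l, hl, hxl⟩ := mem_biUnion.mp hx
    obtain ⟨m, hm, hym⟩ := mem_biUnion.mp hy
    have hx1 := mem_filter.mp (hY1 l hxl)
    have hy1 := mem_filter.mp (hY1 m hym)
    have hx2 := mem_filter.mp hx1.1
    have hy2 := mem_filter.mp hy1.1
    have hx3 := hLs x hx2.1
    have hy3 := hLs y hy2.1
    rw [hx1.2] at hx3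
    rw [hy1.2] at hy3
    by_cases hlm : l = m
    · subst hlm
      exact hY2 l x hxl y hym hxy
    · have hlt : l < m := by
        rcases lt_trichotomy l m with h5 | h5 | h5
        · exact h5
        · exact absurd h5 hlm
        · have := u_le u' (r + 1) hu'mono l (by omega) (m + 1) (by omega)
          omega
      have hmr : m ≤ r := by omega
      have hum : u' m = u m := by simp only [hu']; rw [if_pos hmr]
      have hxm : x < u m := by
        have := u_le u' (r + 1) hu'mono m (by omega) (l + 1) (by omega)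
        rw [hum] at this
        omega
      have hbm : (f x y = true ↔ x ∈ B ∨ x ∈ X m) := by
        rcases Nat.lt_or_ge m r with h5 | h5
        · apply h.base m h5 x y hxm
          · rw [hum] at hy3; exact hy3.2.1
          · have h6 : u' (m + 1) = u (m + 1) := by simp only [hu']; rw [if_pos (by omega)]
            rw [h6] at hy3; exact hy3.2.2
        · have h6 : m = r := by omega
          subst h6
          apply hbase x y hxm
          rw [hum] at hy3; exact hy3.2.1
      cases hf : f x y with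
      | false => rfl
      | true =>
        rcases hbm.mp hf with h6 | h6
        · have := hb.B_lt x h6
          have := (hS x hx2.1).1
          omega
        · have hmA : m ∈ A := by rw [← hy1.2]; exact hy2.2.1
          exact absurd ⟨hmr, h6⟩ (hx2.2.2 m hmA)
  · have hdis : ∑ x ∈ (range (r + 1)).biUnion Y, w x = ∑ l ∈ range (r + 1), ∑ x ∈ Y l, w x := by
      apply sum_biUnion
      intro a _ c _ hac
      rw [Function.onFun, disjoint_left]
      intro x hxa hxc
      have h1 := (mem_filter.mp (hY1 a hxa)).2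
      have h2 := (mem_filter.mp (hY1 c hxc)).2
      exact hac (h1.symm.trans h2)
    have hsumV : ∑ x ∈ V A, w x =
        ∑ l ∈ range (r + 1), ∑ x ∈ (V A).filter (fun x => L x = l), w x := by
      rw [sum_fiberwise_of_maps_to]
      intro x hx
      exact mem_range.mpr (hLs x (mem_filter.mp hx).1).1
    rw [hdis]
    calc ∑ x ∈ S, w x ≤ 4 * ∑ x ∈ V A, w x := hAw
      _ = 4 * ∑ l ∈ range (r + 1), ∑ x ∈ (V A).filter (fun x => L x = l), w x := by rw [hsumV]
      _ ≤ 4 * ∑ l ∈ range (r + 1), 4 ^ j * ∑ x ∈ Y l, w x := by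
        apply mul_le_mul_of_nonneg_left (sum_le_sum (fun l _ => hY3 l)) (by norm_num)
      _ = 4 ^ (j + 1) * ∑ l ∈ range (r + 1), ∑ x ∈ Y l, w x := by
        rw [← mul_sum]; ring

/-- The shape step. -/
theorem shape_step {u0 : ℕ} {B : Finset ℕ} {j r : ℕ} {u : ℕ → ℕ} {X : ℕ → Finset ℕ}
    {ρ : ℕ → ℕ → ℕ} {f : Col} (hb : Bk u0 B r u X ρ)
    (h : Inv u0 B j r u X ρ f) (b : ℕ)
    (hbase : ∀ x y, x < u r → u r ≤ y → (f x y = true ↔ x ∈ B ∨ x ∈ X r))
    (hsh : ShapeOn f (u r) b j) : ShapeOn f u0 b (j + 1) := by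
  intro y hy0 hyb
  -- find the period of `y` together with its base description and shape
  obtain ⟨l, hl, hly, hbl, rk, hrk1, hrk2⟩ : ∃ l, l ≤ r ∧ u l ≤ y ∧
      (∀ x y', x < u l → u l ≤ y' → y' ≤ y → (f x y' = true ↔ x ∈ B ∨ x ∈ X l)) ∧
      ∃ rk : ℕ → ℕ, (∀ x, u l ≤ x → x < y → f x y = true → rk x < j) ∧
        ∀ x x', u l ≤ x → x < x' → x' < y → f x y = true → f x' y = true →
          rk x ≤ rk x' ∧ (f x x' = true ↔ rk x < rk x') := by
    by_cases hyr : y < u r
    · obtain ⟨l, hl, h1, h2⟩ := exists_period u r hb.mono y (by rw [hb.start]; exact hy0) hyr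
      exact ⟨l, hl.le, h1, fun x y' hx hy' hyy => h.base l hl x y' hx hy' (by omega),
        h.shape l hl y h1 h2⟩
    · push Not at hyr
      exact ⟨r, le_rfl, hyr, fun x y' hx hy' _ => hbase x y' hx hy', hsh y hyr hyb⟩
  have hu0l : u0 ≤ u l := by
    have := u_le u r hb.mono l hl 0 (Nat.zero_le _)
    rwa [hb.start] at this
  refine ⟨fun x => if x < u l then 0 else rk x + 1, ?_, ?_⟩
  · intro x hx0 hxy hf
    by_cases hx : x < u l
    · simp only [hx, if_true]; omega
    · simp only [hx, if_false]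
      have := hrk1 x (by omega) hxy hf
      omega
  · intro x x' hx0 hxx hxy hf hf'
    by_cases hx : x < u l
    · have hxX : x ∈ X l := by
        rcases (hbl x y hx hly le_rfl).mp hf with h6 | h6
        · have := hb.B_lt x h6
          omega
        · exact h6
      by_cases hx' : x' < u l
      · simp only [hx, hx', if_true, le_refl, lt_irrefl, iff_false, true_and]
        have hxX' : x' ∈ X l := by
          rcases (hbl x' y hx' hly le_rfl).mp hf' with h6 | h6
          · have := hb.B_lt x' h6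
            omega
          · exact h6
        rw [h.indep hb hl x hxX x' hxX' hxx]
        simp
      · simp only [hx, hx', if_true, if_false]
        refine ⟨Nat.zero_le _, ?_⟩
        have := (hbl x x' hx (by omega) (by omega)).mpr (Or.inr hxX)
        simp [this]
    · have hx' : ¬ x' < u l := by omega
      simp only [hx, hx', if_false]
      have := hrk2 x x' (by omega) hxx hxy hf hf'
      refine ⟨by omega, ?_⟩
      rw [this.2]
      omega

end Pool.Agent.SepRT
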