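import Pool.Agent.Lib.MP_26a456_lc.CoreB

/-!
# Measure bookkeeping for the core theorem
-/

open Classical Finset MeasureTheory

namespace Pool.Agent.SepRT

variable {Ω : Type} [MeasurableSpace Ω]

/-- all predicates of finite-set valued random variables are measurable -/
theorem meas_pred {N : ℕ} (S : Ω → Finset ℕ) (hS : ∀ x, MeasurableSet {ω | x ∈ S ω})
    (hN : ∀ ω, S ω ⊆ range N) (p : Finset ℕ → Prop) : MeasurableSet {ω | p (S ω)} := by
  have h1 : ∀ T : Finset ℕ, MeasurableSet {ω | S ω = T} := by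
    intro T
    have : {ω | S ω = T} = ⋂ x : ℕ, {ω | x ∈ S ω ↔ x ∈ T} := by
      ext ω
      simp only [Set.mem_ofPred_eq, Set.mem_iInter]
      constructor
      · intro h x; rw [h]
      · intro h; ext x; exact h x
    rw [this]
    apply MeasurableSet.iInter
    intro x
    by_cases hx : x ∈ T
    · simpa [hx] using hS x
    · have := (hS x).compl
      have h2 : {ω | x ∈ S ω ↔ x ∈ T} = {ω | x ∈ S ω}ᶜ := by
        ext ω
        simp [hx]
      rw [h2]
      exact this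
  have : {ω | p (S ω)} = ⋃ T ∈ (range N).powerset.filter p, {ω | S ω = T} := by
    ext ω
    simp only [Set.mem_ofPred_eq, Set.mem_iUnion, mem_filter, mem_powerset, exists_prop]
    constructor
    · intro h; exact ⟨S ω, ⟨hN ω, h⟩, rfl⟩
    · rintro ⟨T, ⟨_, h⟩, h2⟩; rw [h2]; exact h
  rw [this]
  exact Finset.measurableSet_biUnion _ (fun T _ => h1 T)

variable (μ : Measure Ω) [IsProbabilityMeasure μ]

/-- the finite set of types -/
noncomputable def types (m N : ℕ) : Finset (Fin m → Finset ℕ) :=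
  Fintype.piFinset (fun _ => (range N).powerset)

/-- the weight of a type -/
noncomputable def wt (m : ℕ) (S : Fin m → Ω → Finset ℕ) (τ : Fin m → Finset ℕ) : ℝ :=
  μ.real {ω | ∀ l, S l ω = τ l}

omit [IsProbabilityMeasure μ] in
theorem wt_nonneg (m : ℕ) (S : Fin m → Ω → Finset ℕ) (τ : Fin m → Finset ℕ) :
    0 ≤ wt μ m S τ := measureReal_nonneg

theorem discretize (m N : ℕ) (S : Fin m → Ω → Finset ℕ)
    (hS : ∀ l x, MeasurableSet {ω | x ∈ S l ω}) (hN : ∀ l ω, S l ω ⊆ range N)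
    (p : (Fin m → Finset ℕ) → Prop) :
    μ.real {ω | p (fun l => S l ω)} = ∑ τ ∈ (types m N).filter p, wt μ m S τ := by
  have hm : ∀ τ : Fin m → Finset ℕ, MeasurableSet {ω | ∀ l, S l ω = τ l} := by
    intro τ
    have : {ω | ∀ l, S l ω = τ l} = ⋂ l, {ω | S l ω = τ l} := by
      ext ω; simp
    rw [this]
    exact MeasurableSet.iInter (fun l => meas_pred (N := N) (S l) (hS l) (hN l) (fun T => T = τ l))
  have : {ω | p (fun l => S l ω)} = ⋃ τ ∈ (types m N).filter p, {ω | ∀ l, S l ω = τ l} := by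
    ext ω
    simp only [Set.mem_ofPred_eq, Set.mem_iUnion, mem_filter, exists_prop, types,
      Fintype.mem_piFinset, mem_powerset]
    constructor
    · intro h; exact ⟨fun l => S l ω, ⟨fun l => hN l ω, h⟩, fun l => rfl⟩
    · rintro ⟨T, ⟨_, h⟩, h2⟩
      have : (fun l => S l ω) = T := funext h2
      rw [this]; exact h
  rw [this, measureReal_biUnion_finset]
  · rfl
  · intro a _ b _ hab
    rw [Function.onFun, Set.disjoint_left]
    intro ω h1 h2
    apply hab
    funext l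
    rw [← h1 l, ← h2 l]
  · intro τ _; exact hm τ

theorem sum_types (m N : ℕ) (S : Fin m → Ω → Finset ℕ)
    (hS : ∀ l x, MeasurableSet {ω | x ∈ S l ω}) (hN : ∀ l ω, S l ω ⊆ range N) :
    ∑ τ ∈ types m N, wt μ m S τ = 1 := by
  have := discretize μ m N S hS hN (fun _ => True)
  simp only [Set.ofPred_true, probReal_univ, filter_true] at this
  exact this.symm

/-- discretisation for a family indexed by `e < t` -/
theorem discretize_sum (t m N : ℕ) (S : ℕ → Fin m → Ω → Finset ℕ)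
    (hS : ∀ e l x, MeasurableSet {ω | x ∈ S e l ω}) (hN : ∀ e l ω, S e l ω ⊆ range N)
    (p : ℕ → (Fin m → Finset ℕ) → Prop) :
    ∑ e ∈ range t, μ.real {ω | p e (fun l => S e l ω)} =
      ∑ i ∈ ((range t) ×ˢ (types m N)).filter (fun i => p i.1 i.2), wt μ m (S i.1) i.2 := by
  rw [sum_filter, sum_product]
  apply sum_congr rfl
  intro e _
  rw [discretize μ m N (S e) (hS e) (hN e) (p e), sum_filter]

theorem sum_types' (t m N : ℕ) (S : ℕ → Fin m → Ω → Finset ℕ)
    (hS : ∀ e l x, MeasurableSet {ω | x ∈ S e l ω}) (hN : ∀ e l ω, S e l ω ⊆ range N) :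
    ∑ i ∈ (range t) ×ˢ (types m N), wt μ m (S i.1) i.2 = t := by
  rw [sum_product]
  rw [sum_congr rfl (fun e _ => sum_types μ m N (S e) (hS e) (hN e))]
  simp

/-- the index `e` hits all classes `c ∈ (l, P]` in period `l` -/
def Hit (O : Opp Ω) (P : ℕ) (u : ℕ → ℕ) (ρ : ℕ → ℕ → ℕ) (f : Col) (l e : ℕ) (ω : Ω) : Prop :=
  ∀ c, l < c → c ≤ P → ∃ x ∈ O.Show e (u (l + 1)) f ω, u l ≤ x ∧ x < u (l + 1) ∧ ρ l x = c

/-- number of periods that are hit -/
noncomputable def cnt (O : Opp Ω) (P : ℕ) (u : ℕ → ℕ) (ρ : ℕ → ℕ → ℕ) (f : Col) (r e : ℕ)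
    (ω : Ω) : ℕ := ((range r).filter (fun l => Hit O P u ρ f l e ω)).card

theorem show_sub (O : Opp Ω) (e s : ℕ) (f : Col) (ω : Ω) : O.Show e s f ω ⊆ range s :=
  fun x hx => mem_range.mpr (O.show_lt e s f ω x hx)

theorem hit_meas (O : Opp Ω) (P : ℕ) (u : ℕ → ℕ) (ρ : ℕ → ℕ → ℕ) (f : Col) (l e : ℕ) :
    MeasurableSet {ω | Hit O P u ρ f l e ω} :=
  meas_pred (N := u (l + 1)) (O.Show e (u (l + 1)) f) (O.show_meas e (u (l + 1)) f)
    (fun ω => show_sub O e _ f ω)
    (fun T => ∀ c, l < c → c ≤ P → ∃ x ∈ T, u l ≤ x ∧ x < u (l + 1) ∧ ρ l x = c)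

theorem cnt_meas (O : Opp Ω) (P : ℕ) (u : ℕ → ℕ) (ρ : ℕ → ℕ → ℕ) (f : Col) (r e : ℕ) :
    Measurable (fun ω => cnt O P u ρ f r e ω) := by
  have : (fun ω => cnt O P u ρ f r e ω) =
      fun ω => ∑ l ∈ range r, if Hit O P u ρ f l e ω then 1 else 0 := by
    funext ω
    rw [cnt, card_filter]
  rw [this]
  apply Finset.measurable_sum
  intro l _
  exact Measurable.ite (hit_meas O P u ρ f l e) measurable_const measurable_const

theorem cnt_succ (O : Opp Ω) (P : ℕ) (u : ℕ → ℕ) (ρ : ℕ → ℕ → ℕ) (f : Col) (r e : ℕ) (ω : Ω) :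
    cnt O P u ρ f (r + 1) e ω = cnt O P u ρ f r e ω + if Hit O P u ρ f r e ω then 1 else 0 := by
  rw [cnt, cnt, card_filter, card_filter, sum_range_succ]

theorem hit_agree (O : Opp Ω) (P : ℕ) (u : ℕ → ℕ) (ρ : ℕ → ℕ → ℕ) (f g : Col) (l e : ℕ)
    (ω : Ω) (h : Agree (u (l + 1)) f g) : Hit O P u ρ f l e ω ↔ Hit O P u ρ g l e ω := by
  unfold Hit
  rw [O.show_agree e _ f g h]

theorem Agree.mono {s s' : ℕ} {f g : Col} (h : Agree s f g) (hs : s' ≤ s) : Agree s' f g :=
  fun x y hxy hy => h x y hxy (by omega)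

theorem Agree.symm {s : ℕ} {f g : Col} (h : Agree s f g) : Agree s g f :=
  fun x y hxy hy => (h x y hxy hy).symm

theorem Agree.trans {s : ℕ} {f g h : Col} (h1 : Agree s f g) (h2 : Agree s g h) : Agree s f h :=
  fun x y hxy hy => (h1 x y hxy hy).trans (h2 x y hxy hy)

theorem cnt_agree (O : Opp Ω) (P : ℕ) (u : ℕ → ℕ) (ρ : ℕ → ℕ → ℕ) (f g : Col) (r e : ℕ)
    (ω : Ω) (hu : ∀ l, l < r → u l < u (l + 1)) (h : Agree (u r) f g) :
    cnt O P u ρ f r e ω = cnt O P u ρ g r e ω := by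
  unfold cnt
  congr 1
  apply filter_congr
  intro l hl
  rw [mem_range] at hl
  exact hit_agree O P u ρ f g l e ω (h.mono (u_le u r hu r le_rfl (l + 1) (by omega)))

/-- the counts only depend on the data of the periods before `r` -/
theorem cnt_congr (O : Opp Ω) (P : ℕ) (u u' : ℕ → ℕ) (ρ ρ' : ℕ → ℕ → ℕ) (f : Col) (r e : ℕ)
    (ω : Ω) (hu : ∀ l, l ≤ r → u l = u' l) (hρ : ∀ l, l < r → ρ l = ρ' l) :
    cnt O P u ρ f r e ω = cnt O P u' ρ' f r e ω := by
  unfold cnt
  congr 1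
  apply filter_congr
  intro l hl
  rw [mem_range] at hl
  unfold Hit
  rw [hu l hl.le, hu (l + 1) (by omega), hρ l hl]

/-- the capture estimate for the next active set -/
theorem capture_meas (O : Opp Ω) (P : ℕ) (u : ℕ → ℕ) (ρ : ℕ → ℕ → ℕ) (f : Col) (r t K : ℕ)
    (D : ℝ) (hD : 1 ≤ D) (hrP : r ≤ P) (hu : ∀ l, l < r → u l < u (l + 1))
    (hcov : ∀ l, l < r → CoverOn f (u l) (u (l + 1)) D) :
    ∃ X : ℕ → Finset ℕ, (∀ l, l < r → Indep f (X l) ∧
        ∀ x ∈ X l, u l ≤ x ∧ x < u (l + 1) ∧ ρ l x = r) ∧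
      ∑ e ∈ range t, μ.real {ω | K ≤ cnt O P u ρ f r e ω ∧
        ∀ l, l < r → Disjoint (O.Show e (u r) f ω) (X l)} ≤ t * (1 - 1 / D) ^ K := by
  set N := u r with hNdef
  set S : ℕ → Fin r → Ω → Finset ℕ := fun e l ω => O.Show e (u (l + 1)) f ω with hSdef
  have hS : ∀ e l x, MeasurableSet {ω | x ∈ S e l ω} := fun e l x => O.show_meas e _ f x
  have hN : ∀ e l ω, S e l ω ⊆ range N := by
    intro e l ω x hx
    have := O.show_lt e _ f ω x hx
    rw [mem_range]
    exact lt_of_lt_of_le this (u_le u r hu r le_rfl (l + 1) (by have := l.2; omega))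
  -- the hit predicate for types
  set hit : (Fin r → Finset ℕ) → ℕ → Prop := fun τ l => ∃ h : l < r,
    ∀ c, l < c → c ≤ P → ∃ x ∈ τ ⟨l, h⟩, u l ≤ x ∧ x < u (l + 1) ∧ ρ l x = c with hhit
  set J : ℕ → Finset ℕ := fun l => (range (u (l + 1))).filter (fun x => u l ≤ x ∧ ρ l x = r)
    with hJ
  set T : ℕ → ℕ × (Fin r → Finset ℕ) → Finset ℕ := fun l i =>
    if h : l < r then (if hit i.2 l then (i.2 ⟨l, h⟩) ∩ J l else ∅) else ∅ with hT
  have hTJ : ∀ l i, T l i ⊆ J l := by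
    intro l i
    simp only [hT]
    split
    · split
      · exact inter_subset_right
      · exact empty_subset _
    · exact empty_subset _
  have hδ1 : 1 / D ≤ 1 := by
    rw [div_le_one (by linarith)]; exact hD
  have hδ0 : 0 ≤ 1 / D := by positivity
  set I := ((range t) ×ˢ (types r N)).filter
    (fun i => K ≤ ((range r).filter (fun l => hit i.2 l)).card) with hI
  obtain ⟨X, hX, hXs⟩ := capture f (1 / D) hδ1 I J T hTJ r
    (by
      intro l hl v hv
      obtain ⟨X, hX1, hX2, hX3⟩ := hcov l hl (J l) (by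
        intro x hx
        rw [hJ, mem_filter, mem_range] at hx
        exact ⟨hx.2.1, hx.1⟩) v hv
      refine ⟨X, hX1, hX2, ?_⟩
      rw [one_div, inv_mul_le_iff₀ (by linarith)]
      exact hX3)
    (fun i => wt μ r (S i.1) i.2) (fun i => wt_nonneg μ r _ _)
  refine ⟨X, ?_, ?_⟩
  · intro l hl
    refine ⟨(hX l hl).2, fun x hx => ?_⟩
    have := (hX l hl).1 hx
    rw [hJ, mem_filter, mem_range] at this
    exact ⟨this.2.1, this.1, this.2.2⟩
  · have e1 : ∀ e ω, cnt O P u ρ f r e ω =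
        ((range r).filter (fun l => hit (fun l => S e l ω) l)).card := by
      intro e ω
      unfold cnt
      congr 1
      apply filter_congr
      intro l hl
      rw [mem_range] at hl
      simp only [hhit, hSdef, Hit]
      constructor
      · intro h; exact ⟨hl, h⟩
      · rintro ⟨_, h⟩; exact h
    have e2 : ∑ e ∈ range t, μ.real {ω | K ≤ cnt O P u ρ f r e ω ∧
        ∀ l, l < r → Disjoint (O.Show e (u r) f ω) (X l)} ≤
        ∑ e ∈ range t, μ.real {ω | K ≤ ((range r).filter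
          (fun l => hit (fun l => S e l ω) l)).card ∧
          ∀ l, l < r → Disjoint (T l (e, fun l => S e l ω)) (X l)} := by
      apply sum_le_sum
      intro e _
      apply measureReal_mono
      · rintro ω ⟨h1, h2⟩
        refine ⟨by rw [← e1]; exact h1, fun l hl => ?_⟩
        apply disjoint_of_subset_left _ (h2 l hl)
        intro x hx
        simp only [hT, dif_pos hl] at hx
        split at hx
        · have := (mem_inter.mp hx).1
          exact O.show_mono e _ _ f ω (u_le u r hu r le_rfl (l + 1) (by omega)) this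
        · exact absurd hx (notMem_empty x)
      · exact measure_ne_top _ _
    refine e2.trans ?_
    have e3 := discretize_sum μ t r N S hS hN (fun e τ => K ≤ ((range r).filter
          (fun l => hit τ l)).card ∧ ∀ l, l < r → Disjoint (T l (e, τ)) (X l))
    rw [e3]
    refine le_trans (le_of_eq (sum_congr ?_ (fun _ _ => rfl))) (hXs.trans ?_)
    · rw [hI]
      ext i
      simp only [mem_filter]
      tauto
    calc ∑ i ∈ I, wt μ r (S i.1) i.2 *
          (1 - 1 / D) ^ ((range r).filter (fun l => (T l i).Nonempty)).card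
        ≤ ∑ i ∈ I, wt μ r (S i.1) i.2 * (1 - 1 / D) ^ K := by
          apply sum_le_sum
          intro i hi
          apply mul_le_mul_of_nonneg_left _ (wt_nonneg μ r _ _)
          apply pow_le_pow_of_le_one (by linarith) (by linarith)
          rw [hI, mem_filter] at hi
          refine hi.2.trans (card_le_card ?_)
          intro l hl
          rw [mem_filter] at hl ⊢
          refine ⟨hl.1, ?_⟩
          have hlr := mem_range.mp hl.1
          simp only [hT, dif_pos hlr, if_pos hl.2]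
          obtain ⟨h1, h2⟩ := hl.2
          obtain ⟨x, hx1, hx2, hx3, hx4⟩ := h2 r hlr hrP
          exact ⟨x, mem_inter.mpr ⟨hx1, by
            rw [hJ, mem_filter, mem_range]; exact ⟨hx3, hx2, hx4⟩⟩⟩
      _ = (∑ i ∈ I, wt μ r (S i.1) i.2) * (1 - 1 / D) ^ K := by rw [sum_mul]
      _ ≤ t * (1 - 1 / D) ^ K := by
          apply mul_le_mul_of_nonneg_right _ (pow_nonneg (by linarith) _)
          rw [← sum_types' μ t r N S hS hN]
          apply sum_le_sum_of_subset_of_nonneg (filter_subset _ _)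
          intro i _ _
          exact wt_nonneg μ r _ _

/-- the assignment estimate for a finished period -/
theorem assign_meas (O : Opp Ω) (P R a b r t : ℕ) (f : Col) (hr : r < P) :
    ∃ ρ : ℕ → ℕ, ∑ e ∈ range t, μ.real {ω |
        R ≤ ((O.Show e b f ω).filter (fun x => a ≤ x)).card ∧
        ¬ ∀ c, r < c → c ≤ P → ∃ x ∈ O.Show e b f ω, a ≤ x ∧ x < b ∧ ρ x = c} ≤
      P * (1 - 1 / (P : ℝ)) ^ R * t := by
  set S : ℕ → Fin 1 → Ω → Finset ℕ := fun e _ ω => O.Show e b f ω with hSdef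
  have hS : ∀ e l x, MeasurableSet {ω | x ∈ S e l ω} := fun e l x => O.show_meas e _ f x
  have hN : ∀ e l ω, S e l ω ⊆ range b := fun e _ ω => show_sub O e b f ω
  set C : Finset ℕ := Finset.Ioc r P with hC
  have hCne : C.Nonempty := ⟨P, by rw [hC, Finset.mem_Ioc]; exact ⟨hr, le_rfl⟩⟩
  have hCcard : C.card ≤ P := by rw [hC, Nat.card_Ioc]; omega
  set J : Finset ℕ := (range b).filter (fun x => a ≤ x) with hJ
  set I := ((range t) ×ˢ (types 1 b)).filter (fun i => R ≤ ((i.2 0) ∩ J).card) with hI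
  obtain ⟨ρ, hρC, hρ⟩ := assign I C hCne P R hCcard (fun i => i.2 0) J
    (fun i hi => (mem_filter.mp hi).2) (fun i => wt μ 1 (S i.1) i.2)
    (fun i => wt_nonneg μ 1 _ _)
  refine ⟨ρ, ?_⟩
  have hJeq : ∀ e ω, O.Show e b f ω ∩ J = (O.Show e b f ω).filter (fun x => a ≤ x) := by
    intro e ω
    ext x
    rw [mem_inter, hJ, mem_filter, mem_filter, mem_range]
    constructor
    · rintro ⟨h1, h2, h3⟩; exact ⟨h1, h3⟩
    · rintro ⟨h1, h2⟩; exact ⟨h1, O.show_lt e b f ω x h1, h2⟩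
  have e1 := discretize_sum μ t 1 b S hS hN (fun e τ => R ≤ ((τ 0) ∩ J).card ∧
      ∃ c ∈ C, ∀ x ∈ (τ 0) ∩ J, ρ x ≠ c)
  have e2 : ∀ e, {ω | R ≤ ((O.Show e b f ω).filter (fun x => a ≤ x)).card ∧
        ¬ ∀ c, r < c → c ≤ P → ∃ x ∈ O.Show e b f ω, a ≤ x ∧ x < b ∧ ρ x = c} =
      {ω | R ≤ ((S e 0 ω) ∩ J).card ∧ ∃ c ∈ C, ∀ x ∈ (S e 0 ω) ∩ J, ρ x ≠ c} := by
    intro e
    ext ω
    simp only [Set.mem_ofPred_eq, hSdef, hJeq]
    apply and_congr_right
    intro _
    push Not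
    constructor
    · rintro ⟨c, h1, h2, h3⟩
      refine ⟨c, by rw [hC, Finset.mem_Ioc]; exact ⟨h1, h2⟩, fun x hx => ?_⟩
      rw [mem_filter] at hx
      exact h3 x hx.1 hx.2 (O.show_lt e b f ω x hx.1)
    · rintro ⟨c, h1, h2⟩
      rw [hC, Finset.mem_Ioc] at h1
      refine ⟨c, h1.1, h1.2, fun x hx1 hx2 _ => ?_⟩
      exact h2 x (by rw [mem_filter]; exact ⟨hx1, hx2⟩)
  have e3 : ∑ e ∈ range t, μ.real {ω |
        R ≤ ((O.Show e b f ω).filter (fun x => a ≤ x)).card ∧
        ¬ ∀ c, r < c → c ≤ P → ∃ x ∈ O.Show e b f ω, a ≤ x ∧ x < b ∧ ρ x = c} =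
      ∑ e ∈ range t, μ.real
        {ω | R ≤ ((S e 0 ω) ∩ J).card ∧ ∃ c ∈ C, ∀ x ∈ (S e 0 ω) ∩ J, ρ x ≠ c} :=
    sum_congr rfl (fun e _ => by rw [e2 e])
  rw [e3, e1]
  refine le_trans (le_of_eq (sum_congr ?_ (fun _ _ => rfl))) (hρ.trans ?_)
  · rw [hI]
    ext i
    simp only [mem_filter]
    tauto
  apply mul_le_mul_of_nonneg_left
  · rw [← sum_types' μ t 1 b S hS hN]
    apply sum_le_sum_of_subset_of_nonneg (filter_subset _ _)
    intro i _ _
    exact wt_nonneg μ 1 _ _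
  · have hP1 : (1 : ℝ) ≤ P := by exact_mod_cast (by omega : 1 ≤ P)
    have : 1 / (P : ℝ) ≤ 1 := by rw [div_le_one (by linarith)]; exact hP1
    exact mul_nonneg (by linarith) (pow_nonneg (by linarith) _)

end Pool.Agent.SepRT
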