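import Pool.Agent.Lib.MP_26a456_lc.CoreC

/-!
# States of the construction and the step from one state to the next one
-/

open Classical Finset MeasureTheory

namespace Pool.Agent.SepRT

variable {Ω : Type} [MeasurableSpace Ω]

/-- the structural invariants only depend on the colouring below `u r` -/
theorem Inv.congr {u0 : ℕ} {B : Finset ℕ} {j r : ℕ} {u : ℕ → ℕ} {X : ℕ → Finset ℕ}
    {ρ : ℕ → ℕ → ℕ} {f g : Col} (h : Inv u0 B j r u X ρ f) (hu : ∀ l, l < r → u l < u (l + 1))
    (hfg : Agree (u r) f g) : Inv u0 B j r u X ρ g := by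
  have hle : ∀ l, l < r → u (l + 1) ≤ u r := fun l hl => u_le u r hu r le_rfl (l + 1) (by omega)
  refine ⟨?_, ?_, ?_, ?_⟩
  · intro l hl x y hx hy hy'
    rw [← hfg x y (by omega) (by have := hle l hl; omega)]
    exact h.base l hl x y hx hy hy'
  · intro l hl y hy hy'
    obtain ⟨rk, h1, h2⟩ := h.shape l hl y hy hy'
    have := hle l hl
    refine ⟨rk, ?_, ?_⟩
    · intro x hx hxy hg
      rw [← hfg x y hxy (by omega)] at hg
      exact h1 x hx hxy hg
    · intro x x' hx hxx hxy hg hg'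
      rw [← hfg x y (by omega) (by omega)] at hg
      rw [← hfg x' y (by omega) (by omega)] at hg'
      rw [← hfg x x' (by omega) (by omega)]
      exact h2 x x' hx hxx hxy hg hg'
  · intro l hl S hS w hw
    obtain ⟨Y, h1, h2, h3⟩ := h.cov l hl S hS w hw
    refine ⟨Y, h1, ?_, h3⟩
    intro x hx y hy hxy
    have := hle l hl
    have := (hS y (h1 hy)).2
    rw [← hfg x y hxy (by omega)]
    exact h2 x hx y hy hxy
  · intro l hl m hm x hx y hy hxy
    have := hle m (by omega)
    have := (mem_filter.mp hy).2.2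
    rw [← hfg x y hxy (by omega)]
    exact h.ind l hl m hm x hx y hy hxy

/-- the tolerance -/
noncomputable def tol (t : ℕ) : ℝ := (1 / 2 : ℝ) ^ (2 * t + 2)

theorem tol_pos (t : ℕ) : 0 < tol t := by unfold tol; positivity

/-- A state of the construction. -/
structure State (μ : Measure Ω) (O : Opp Ω) (u0 : ℕ) (f0 : Col) (B : Finset ℕ)
    (j t K P : ℕ) (r : ℕ) (u : ℕ → ℕ) (X : ℕ → Finset ℕ) (ρ : ℕ → ℕ → ℕ) (f : Col) : Prop where
  bk : Bk u0 B r u X ρ
  inv : Inv u0 B j r u X ρ f
  ag : Agree u0 f0 f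
  cap : ∑ e ∈ range t, μ.real {ω | K ≤ cnt O P u ρ f r e ω ∧
    Disjoint (O.Show e (u r) f ω) (X r)} ≤ tol t / 8
  pot : (r : ℝ) * tol t ≤
    2 * ∑ e ∈ range t, ∑ k ∈ range K, μ.real {ω | k < cnt O P u ρ f r e ω} +
      ∑ e ∈ range t, μ.real (O.Wit e (u r) f)

/-- the level conditions -/
def Levels (μ : Measure Ω) (O : Opp Ω) (G : ℕ → ℕ) (f : Col) (T : ℕ → ℕ) (k : ℕ) : Prop :=
  ∀ l, l < k → (G (T l) ≤ T (l + 1) ∧ T l < T (l + 1)) ∧
    (∀ s, μ.real (⋃ e ∈ range (T l), (O.Wit e s f \ O.Wit e (T (l + 1)) f)) ≤ tol (T l)) ∧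
    (∀ s e, e < T l →
      μ.real {ω | Indep f (O.Show e s f ω) ∧ T (l + 1) ≤ (O.Show e s f ω).card} ≤ tol (T l))

/-- the final statement for `j` levels above the number `u` with base set `B` -/
def Final (μ : Measure Ω) (O : Opp Ω) (G : ℕ → ℕ) (j : ℕ) (u : ℕ) (f0 : Col) (B : Finset ℕ)
    (t : ℕ) : Prop :=
  ∃ (f : Col) (T : ℕ → ℕ), T 0 = t ∧ Agree u f0 f ∧
    (∀ x y, x < u → u ≤ y → (f x y = true ↔ x ∈ B)) ∧
    (∀ b, ShapeOn f u b j) ∧ (∀ b, CoverOn f u b (4 ^ j)) ∧ Levels μ O G f T j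

variable (μ : Measure Ω) [IsProbabilityMeasure μ]

/-- the potential grows -/
theorem pot_step (c : Ω → ℕ) (hc : Measurable c) (H : Set Ω) (hH : MeasurableSet H) (K : ℕ) :
    ∑ k ∈ range K, μ.real {ω | k < c ω} + μ.real {ω | c ω < K ∧ ω ∈ H} ≤
      ∑ k ∈ range K, μ.real {ω | k < c ω + if ω ∈ H then 1 else 0} := by
  have hm : ∀ p : ℕ → Prop, MeasurableSet {ω | p (c ω)} := by
    intro p
    exact hc (t := {n | p n}) (MeasurableSet.of_discrete)
  have e1 : ∀ k, μ.real {ω | k < c ω + if ω ∈ H then 1 else 0} =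
      μ.real {ω | k < c ω} + μ.real {ω | c ω = k ∧ ω ∈ H} := by
    intro k
    rw [← measureReal_union]
    · congr 1
      ext ω
      simp only [Set.mem_ofPred_eq, Set.mem_union]
      by_cases h : ω ∈ H
      · simp only [h, if_true, and_true]; omega
      · simp only [h, if_false, and_false, or_false, add_zero]
    · rw [Set.disjoint_left]
      rintro ω h1 ⟨h2, _⟩
      simp only [Set.mem_ofPred_eq] at h1
      omega
    · exact (hm (fun n => n = k)).inter hH
  simp only [e1, sum_add_distrib]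
  apply add_le_add le_rfl
  have : {ω | c ω < K ∧ ω ∈ H} ⊆ ⋃ k ∈ range K, {ω | c ω = k ∧ ω ∈ H} := by
    rintro ω ⟨h1, h2⟩
    simp only [Set.mem_iUnion, mem_range, Set.mem_ofPred_eq, exists_prop]
    exact ⟨c ω, h1, rfl, h2⟩
  exact (measureReal_mono this (measure_ne_top _ _)).trans (measureReal_biUnion_finset_le _ _)

/-- the potential does not decrease -/
theorem pot_mono (c c' : Ω → ℕ) (h : ∀ ω, c ω ≤ c' ω) (K : ℕ) :
    ∑ k ∈ range K, μ.real {ω | k < c ω} ≤ ∑ k ∈ range K, μ.real {ω | k < c' ω} := by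
  apply sum_le_sum
  intro k _
  apply measureReal_mono _ (measure_ne_top _ _)
  intro ω hω
  exact lt_of_lt_of_le hω (h ω)

/-- all states have a small number of periods -/
theorem State.lt {O : Opp Ω} {u0 : ℕ} {f0 : Col} {B : Finset ℕ}
    {j t K P : ℕ} {r : ℕ} {u : ℕ → ℕ} {X : ℕ → Finset ℕ} {ρ : ℕ → ℕ → ℕ} {f : Col}
    (h : State μ O u0 f0 B j t K P r u X ρ f) (hP : 2 * (t * K) + t < (P : ℝ) * tol t) :
    r < P := by
  have h1 : ∑ e ∈ range t, ∑ k ∈ range K, μ.real {ω | k < cnt O P u ρ f r e ω} ≤ t * K := by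
    calc ∑ e ∈ range t, ∑ k ∈ range K, μ.real {ω | k < cnt O P u ρ f r e ω}
        ≤ ∑ _e ∈ range t, ∑ _k ∈ range K, (1 : ℝ) :=
          sum_le_sum (fun e _ => sum_le_sum (fun k _ => measureReal_le_one))
      _ = t * K := by simp
  have h2 : ∑ e ∈ range t, μ.real (O.Wit e (u r) f) ≤ t := by
    calc ∑ e ∈ range t, μ.real (O.Wit e (u r) f)
        ≤ ∑ _e ∈ range t, (1 : ℝ) := sum_le_sum (fun e _ => measureReal_le_one)
      _ = t := by simp
  have h3 : (r : ℝ) * tol t < P * tol t := by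
    have := h.pot
    linarith
  have h4 := (mul_lt_mul_iff_left₀ (tol_pos t)).mp h3
  exact_mod_cast h4

/-- the step: a new state from an event at stage `s` -/
theorem State.next {O : Opp Ω} {u0 : ℕ} {f0 : Col} {B : Finset ℕ}
    {j t K P R : ℕ} {r : ℕ} {u : ℕ → ℕ} {X : ℕ → Finset ℕ} {ρ : ℕ → ℕ → ℕ} {f : Col}
    (h : State μ O u0 f0 B j t K P r u X ρ f) (hrP : r < P)
    (hK : (t : ℝ) * (1 - 1 / 4 ^ j) ^ K ≤ tol t / 8)
    (hR : (P : ℝ) * (1 - 1 / (P : ℝ)) ^ R * t ≤ tol t / 8) (hR1 : 1 ≤ R)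
    (f' : Col) (hag : Agree (u r) f f')
    (hbase : ∀ x y, x < u r → u r ≤ y → (f' x y = true ↔ x ∈ B ∪ X r))
    (hsh : ∀ b, ShapeOn f' (u r) b j) (hcov : ∀ b, CoverOn f' (u r) b (4 ^ j))
    (s : ℕ) (hs : u r < s)
    (hev : (∃ e, e < t ∧ tol t < μ.real {ω | Indep f' (O.Show e s f' ω) ∧
        R ≤ ((O.Show e s f' ω).filter (fun x => u r ≤ x)).card}) ∨
      (∃ t', u r ≤ t' ∧
        tol t < μ.real (⋃ e ∈ range t, (O.Wit e s f' \ O.Wit e t' f')))) :
    ∃ u' X' ρ', State μ O u0 f0 B j t K P (r + 1) u' X' ρ' f' := by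
  have hinv : Inv u0 B j r u X ρ f' := h.inv.congr h.bk.mono hag
  have hu0r : u0 ≤ u r := by
    have := u_le u r h.bk.mono r le_rfl 0 (Nat.zero_le _)
    rwa [h.bk.start] at this
  obtain ⟨ρr, hρr⟩ := assign_meas μ O P R (u r) s r t f' hrP
  set u' : ℕ → ℕ := fun l => if l ≤ r then u l else s with hu'
  set ρ' : ℕ → ℕ → ℕ := fun l => if l < r then ρ l else ρr with hρ'
  have hu'le : ∀ l, l ≤ r → u' l = u l := fun l hl => by simp only [hu', if_pos hl]
  have hu's : u' (r + 1) = s := by simp [hu']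
  have hρ'lt : ∀ l, l < r → ρ' l = ρ l := fun l hl => by simp only [hρ', if_pos hl]
  have hρ'r : ρ' r = ρr := by simp [hρ']
  have hu'mono : ∀ l, l < r + 1 → u' l < u' (l + 1) := by
    intro l hl
    rcases Nat.lt_or_ge l r with h1 | h1
    · rw [hu'le l h1.le, hu'le (l + 1) (by omega)]
      exact h.bk.mono l h1
    · rw [show l = r by omega, hu's, hu'le r le_rfl]
      exact hs
  have hshape' : ∀ l, l < r + 1 → ShapeOn f' (u' l) (u' (l + 1)) j := by
    intro l hl
    rcases Nat.lt_or_ge l r with h1 | h1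
    · rw [hu'le l h1.le, hu'le (l + 1) (by omega)]
      exact hinv.shape l h1
    · rw [show l = r by omega, hu's, hu'le r le_rfl]
      exact hsh s
  have hcov' : ∀ l, l < r + 1 → CoverOn f' (u' l) (u' (l + 1)) (4 ^ j) := by
    intro l hl
    rcases Nat.lt_or_ge l r with h1 | h1
    · rw [hu'le l h1.le, hu'le (l + 1) (by omega)]
      exact hinv.cov l h1
    · rw [show l = r by omega, hu's, hu'le r le_rfl]
      exact hcov s
  obtain ⟨Xc, hXc, hXcs⟩ := capture_meas μ O P u' ρ' f' (r + 1) t K (4 ^ j)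
    (one_le_pow₀ (by norm_num)) (by omega) hu'mono hcov'
  set X' : ℕ → Finset ℕ := fun l => if l ≤ r then X l else (range (r + 1)).biUnion Xc with hX'
  have hX'le : ∀ l, l ≤ r → X' l = X l := fun l hl => by simp only [hX', if_pos hl]
  have hX's : X' (r + 1) = (range (r + 1)).biUnion Xc := by simp [hX']
  have hbk : Bk u0 B (r + 1) u' X' ρ' := by
    refine ⟨?_, hu'mono, h.bk.B_lt, ?_, ?_⟩
    · rw [hu'le 0 (Nat.zero_le _)]; exact h.bk.start
    · intro l hl x hx
      rcases Nat.lt_or_ge l (r + 1) with h1 | h1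
      · rw [hX'le l (by omega)] at hx
        rw [hu'le l (by omega)]
        exact h.bk.mem l (by omega) x hx
      · have hlr : l = r + 1 := by omega
        subst hlr
        rw [hX's] at hx
        obtain ⟨m, hm, hxm⟩ := mem_biUnion.mp hx
        rw [mem_range] at hm
        obtain ⟨h2, h3, _⟩ := (hXc m hm).2 x hxm
        have h4 := u_le u' (r + 1) hu'mono m (by omega) 0 (Nat.zero_le _)
        have h5 := u_le u' (r + 1) hu'mono (r + 1) le_rfl (m + 1) (by omega)
        rw [hu'le 0 (Nat.zero_le _), h.bk.start] at h4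
        exact ⟨by omega, by omega⟩
    · intro l hl m hm x hx h1 h2
      rcases Nat.lt_or_ge l (r + 1) with h3 | h3
      · rw [hX'le l (by omega)] at hx
        rw [hu'le m (by omega)] at h1
        rw [hu'le (m + 1) (by omega)] at h2
        rw [hρ'lt m (by omega)]
        exact h.bk.cls l (by omega) m hm x hx h1 h2
      · have hlr : l = r + 1 := by omega
        subst hlr
        rw [hX's] at hx
        obtain ⟨m', hm', hxm⟩ := mem_biUnion.mp hx
        rw [mem_range] at hm'
        obtain ⟨h4, h5, h6⟩ := (hXc m' hm').2 x hxm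
        have : m = m' := period_unique u' (r + 1) hu'mono m m' hm hm' x h1 h2 h4 h5
        rw [this]; exact h6
  refine ⟨u', X', ρ', hbk, ⟨?_, hshape', hcov', ?_⟩, ?_, ?_, ?_⟩
  · -- base
    intro l hl x y hx hy hy'
    rcases Nat.lt_or_ge l r with h1 | h1
    · rw [hu'le l h1.le] at hx hy
      rw [hu'le (l + 1) (by omega)] at hy'
      rw [hX'le l h1.le]
      exact hinv.base l h1 x y hx hy hy'
    · have hlr : l = r := by omega
      subst hlr
      rw [hu'le l le_rfl] at hx hy
      rw [hX'le l le_rfl, hbase x y hx hy, mem_union]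
  · -- independence
    intro l hl m hm
    rcases Nat.lt_or_ge l (r + 1) with h1 | h1
    · rw [hX'le l (by omega), hu'le m (by omega), hu'le (m + 1) (by omega)]
      exact hinv.ind l (by omega) m hm
    · have hlr : l = r + 1 := by omega
      subst hlr
      apply (hXc m hm).1.mono
      intro x hx
      rw [mem_filter, hX's] at hx
      obtain ⟨hx1, hx2, hx3⟩ := hx
      obtain ⟨m', hm', hxm⟩ := mem_biUnion.mp hx1
      rw [mem_range] at hm'
      obtain ⟨h4, h5, h6⟩ := (hXc m' hm').2 x hxm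
      have : m = m' := period_unique u' (r + 1) hu'mono m m' hm hm' x hx2 hx3 h4 h5
      rw [this]; exact hxm
  · -- agreement
    exact h.ag.trans (hag.mono hu0r)
  · -- capture
    refine le_trans (le_trans (sum_le_sum (fun e _ => ?_)) hXcs) hK
    apply measureReal_mono _ (measure_ne_top _ _)
    rintro ω ⟨h1, h2⟩
    refine ⟨h1, fun l hl => ?_⟩
    rw [hX's, disjoint_biUnion_right] at h2
    exact h2 l (mem_range.mpr hl)
  · -- potential
    have hcnt : ∀ e ω, cnt O P u' ρ' f' (r + 1) e ω =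
        cnt O P u ρ f r e ω + if ω ∈ {ω | Hit O P u' ρ' f' r e ω} then 1 else 0 := by
      intro e ω
      rw [cnt_succ, cnt_congr O P u' u ρ' ρ f' r e ω hu'le hρ'lt,
        cnt_agree O P u ρ f f' r e ω h.bk.mono hag]
      rfl
    have hW : ∀ e, O.Wit e (u r) f = O.Wit e (u r) f' := fun e => O.wit_agree e (u r) f f' hag
    have hWm : ∀ e, μ.real (O.Wit e (u r) f) ≤ μ.real (O.Wit e (u' (r + 1)) f') := by
      intro e
      rw [hW e, hu's]
      exact measureReal_mono (O.wit_mono e _ _ f' hs.le) (measure_ne_top _ _)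
    have hbm : ∀ e, ∑ k ∈ range K, μ.real {ω | k < cnt O P u ρ f r e ω} ≤
        ∑ k ∈ range K, μ.real {ω | k < cnt O P u' ρ' f' (r + 1) e ω} := by
      intro e
      apply pot_mono μ
      intro ω
      rw [hcnt]
      omega
    have hpot := h.pot
    push_cast
    rcases hev with ⟨e0, he0, hV⟩ | ⟨t', ht', hV⟩
    · -- a large independent set is shown
      have hVsub : {ω | Indep f' (O.Show e0 s f' ω) ∧
          R ≤ ((O.Show e0 s f' ω).filter (fun x => u r ≤ x)).card} ⊆
          {ω | K ≤ cnt O P u ρ f r e0 ω ∧ Disjoint (O.Show e0 (u r) f ω) (X r)} ∪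
          ({ω | R ≤ ((O.Show e0 s f' ω).filter (fun x => u r ≤ x)).card ∧
            ¬ ∀ c, r < c → c ≤ P → ∃ x ∈ O.Show e0 s f' ω, u r ≤ x ∧ x < s ∧ ρr x = c} ∪
          {ω | cnt O P u ρ f r e0 ω < K ∧ ω ∈ {ω | Hit O P u' ρ' f' r e0 ω}}) := by
        rintro ω ⟨h1, h2⟩
        by_cases hk : K ≤ cnt O P u ρ f r e0 ω
        · left
          refine ⟨hk, ?_⟩
          rw [disjoint_left]
          intro x hx1 hx2
          obtain ⟨y, hy⟩ : ((O.Show e0 s f' ω).filter (fun x => u r ≤ x)).Nonempty := by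
            rw [← card_pos]; omega
          rw [mem_filter] at hy
          have hxu : x < u r := O.show_lt e0 (u r) f ω x hx1
          rw [O.show_agree e0 (u r) f f' hag] at hx1
          have hx3 := O.show_mono e0 (u r) s f' ω hs.le hx1
          have h3 := h1 x hx3 y hy.1 (by omega)
          have h4 := (hbase x y hxu hy.2).mpr (mem_union_right _ hx2)
          rw [h3] at h4
          exact absurd h4 (by simp)
        · right
          by_cases hh : Hit O P u' ρ' f' r e0 ω
          · right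
            exact ⟨by omega, hh⟩
          · left
            refine ⟨h2, ?_⟩
            intro hcon
            apply hh
            intro c hc1 hc2
            rw [hu's, hu'le r le_rfl, hρ'r]
            exact hcon c hc1 hc2
      have hm1 := measureReal_mono (μ := μ) hVsub (measure_ne_top _ _)
      have hm2 : μ.real {ω | K ≤ cnt O P u ρ f r e0 ω ∧
          Disjoint (O.Show e0 (u r) f ω) (X r)} ≤ tol t / 8 :=
        le_trans (single_le_sum (f := fun e => μ.real {ω | K ≤ cnt O P u ρ f r e ω ∧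
          Disjoint (O.Show e (u r) f ω) (X r)}) (fun _ _ => measureReal_nonneg)
          (mem_range.mpr he0)) h.cap
      have hm3 : μ.real {ω | R ≤ ((O.Show e0 s f' ω).filter (fun x => u r ≤ x)).card ∧
            ¬ ∀ c, r < c → c ≤ P → ∃ x ∈ O.Show e0 s f' ω, u r ≤ x ∧ x < s ∧ ρr x = c} ≤
          tol t / 8 :=
        le_trans (single_le_sum (f := fun e => μ.real {ω |
          R ≤ ((O.Show e s f' ω).filter (fun x => u r ≤ x)).card ∧
            ¬ ∀ c, r < c → c ≤ P → ∃ x ∈ O.Show e s f' ω, u r ≤ x ∧ x < s ∧ ρr x = c})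
          (fun _ _ => measureReal_nonneg) (mem_range.mpr he0)) (hρr.trans hR)
      have hm4 := measureReal_union_le (μ := μ)
        {ω | K ≤ cnt O P u ρ f r e0 ω ∧ Disjoint (O.Show e0 (u r) f ω) (X r)}
          ({ω | R ≤ ((O.Show e0 s f' ω).filter (fun x => u r ≤ x)).card ∧
            ¬ ∀ c, r < c → c ≤ P → ∃ x ∈ O.Show e0 s f' ω, u r ≤ x ∧ x < s ∧ ρr x = c} ∪
          {ω | cnt O P u ρ f r e0 ω < K ∧ ω ∈ {ω | Hit O P u' ρ' f' r e0 ω}})
      have hm5 := measureReal_union_le (μ := μ)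
          {ω | R ≤ ((O.Show e0 s f' ω).filter (fun x => u r ≤ x)).card ∧
            ¬ ∀ c, r < c → c ≤ P → ∃ x ∈ O.Show e0 s f' ω, u r ≤ x ∧ x < s ∧ ρr x = c}
          {ω | cnt O P u ρ f r e0 ω < K ∧ ω ∈ {ω | Hit O P u' ρ' f' r e0 ω}}
      have hm6 := pot_step μ (fun ω => cnt O P u ρ f r e0 ω) (cnt_meas O P u ρ f r e0)
        {ω | Hit O P u' ρ' f' r e0 ω} (hit_meas O P u' ρ' f' r e0) K
      have hm7 : ∑ k ∈ range K, μ.real {ω | k < cnt O P u ρ f r e0 ω} + tol t / 2 ≤
          ∑ k ∈ range K, μ.real {ω | k < cnt O P u' ρ' f' (r + 1) e0 ω} := by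
        simp only [hcnt]
        have := tol_pos t
        refine le_trans ?_ hm6
        linarith
      have hm8 : ∑ e ∈ range t, ∑ k ∈ range K, μ.real {ω | k < cnt O P u ρ f r e ω} +
          tol t / 2 ≤
          ∑ e ∈ range t, ∑ k ∈ range K, μ.real {ω | k < cnt O P u' ρ' f' (r + 1) e ω} := by
        rw [← sum_erase_add _ _ (mem_range.mpr he0),
          ← sum_erase_add (range t) (fun e => ∑ k ∈ range K,
            μ.real {ω | k < cnt O P u' ρ' f' (r + 1) e ω}) (mem_range.mpr he0)]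
        have := sum_le_sum (s := (range t).erase e0) (fun e _ => hbm e)
        linarith
      have hm9 := sum_le_sum (s := range t) (fun e _ => hWm e)
      linarith
    · -- many new indices halt
      have hm8 := sum_le_sum (s := range t) (fun e _ => hbm e)
      have hm9 : tol t ≤ ∑ e ∈ range t, μ.real (O.Wit e s f' \ O.Wit e (u r) f') := by
        refine le_trans hV.le (le_trans (measureReal_biUnion_finset_le _ _) ?_)
        apply sum_le_sum
        intro e _
        apply measureReal_mono _ (measure_ne_top _ _)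
        apply Set.sdiff_subset_sdiff_right
        exact O.wit_mono e _ _ f' ht'
      have hm10 : ∀ e, μ.real (O.Wit e s f' \ O.Wit e (u r) f') =
          μ.real (O.Wit e s f') - μ.real (O.Wit e (u r) f) := by
        intro e
        rw [hW e, measureReal_sdiff (O.wit_mono e _ _ f' hs.le) (O.wit_meas e _ f')]
      rw [sum_congr rfl (fun e _ => hm10 e), sum_sub_distrib] at hm9
      rw [hu's]
      linarith

end Pool.Agent.SepRT
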