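import Pool.Agent.Lib.MP_26a456_lc.Model

/-!
# Transfer of `Ent`, `Pow2`, `Bit` and `Count`
-/

open Classical Filter

namespace Pool.Agent.SepRT

variable {A : Fam}

/-- coordinatewise choice of a counterexample -/
theorem ae_forall_lt_iff (P : ℕ → ℕ → Prop) (l : MM A) :
    (∀ j : MM A, (Mod A).lt j l → AE (fun i => P i (rep j i))) ↔
      AE (fun i => ∀ j, j < rep l i → P i j) := by
  constructor
  · intro h
    by_contra hn
    rw [← ae_not] at hn
    have h1 : ∀ i, ∃ j, j ≤ rep l i ∧ ((∃ j, j < rep l i ∧ ¬ P i j) → j < rep l i ∧ ¬ P i j) := by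
      intro i
      by_cases hi : ∃ j, j < rep l i ∧ ¬ P i j
      · obtain ⟨j, hj⟩ := hi
        exact ⟨j, hj.1.le, fun _ => hj⟩
      · exact ⟨0, Nat.zero_le _, fun h => absurd h hi⟩
    choose J hJ1 hJ2 using h1
    obtain ⟨c, hc⟩ := exists_rep l (AE.of_forall hJ1)
    have h2 : AE (fun i => J i < rep l i ∧ ¬ P i (J i)) := by
      refine hn.mono ?_
      intro i hi
      push Not at hi
      exact hJ2 i hi
    have h3 : (Mod A).lt c l := by
      rw [lt_iff]
      refine (hc.and h2).mono ?_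
      intro i hi
      rw [hi.1]; exact hi.2.1
    obtain ⟨i, hi⟩ := ae_exists ((h c h3).and (hc.and h2))
    rw [hi.2.1] at hi
    exact hi.2.2.2 hi.1
  · intro h j hj
    rw [lt_iff] at hj
    exact (h.and hj).mono (fun i hi => hi.1 _ hi.2)

/-- coordinatewise choice of a witness -/
theorem ae_exists_lt_iff (P : ℕ → ℕ → Prop) (l : MM A) :
    (∃ j : MM A, (Mod A).lt j l ∧ AE (fun i => P i (rep j i))) ↔
      AE (fun i => ∃ j, j < rep l i ∧ P i j) := by
  have h := ae_forall_lt_iff (A := A) (fun i j => ¬ P i j) l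
  rw [← not_iff_not, ← ae_not]
  push Not
  rw [← h]
  constructor
  · intro h1 j hj
    rw [ae_not]
    exact h1 j hj
  · intro h1 j hj
    rw [← ae_not]
    exact h1 j hj

theorem rep_den (b j : MM A) :
    AE (fun i => rep (A := A)
      ((Mod A).add ((Mod A).mul b ((Mod A).add j (Mod A).one)) (Mod A).one) i =
        rep b i * (rep j i + 1) + 1) := by
  refine ((rep_add ((Mod A).mul b ((Mod A).add j (Mod A).one)) (Mod A).one).and
    ((rep_mul b ((Mod A).add j (Mod A).one)).and ((rep_add j (Mod A).one).and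
      (rep_one (A := A))))).mono ?_
  intro i hi
  rw [hi.1, hi.2.1, hi.2.2.1, hi.2.2.2]

theorem rep_ent (b j q r : MM A) :
    AE (fun i => rep (A := A) ((Mod A).add ((Mod A).mul q
      ((Mod A).add ((Mod A).mul b ((Mod A).add j (Mod A).one)) (Mod A).one)) r) i =
        rep q i * (rep b i * (rep j i + 1) + 1) + rep r i) := by
  refine ((rep_add ((Mod A).mul q
      ((Mod A).add ((Mod A).mul b ((Mod A).add j (Mod A).one)) (Mod A).one)) r).and
    ((rep_mul q ((Mod A).add ((Mod A).mul b ((Mod A).add j (Mod A).one)) (Mod A).one)).and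
      (rep_den b j))).mono ?_
  intro i hi
  rw [hi.1, hi.2.1, hi.2.2]

theorem rep_bit (q n r : MM A) :
    AE (fun i => rep (A := A) ((Mod A).add ((Mod A).mul
      ((Mod A).add ((Mod A).add q q) (Mod A).one) n) r) i =
        (rep q i + rep q i + 1) * rep n i + rep r i) := by
  refine ((rep_add ((Mod A).mul ((Mod A).add ((Mod A).add q q) (Mod A).one) n) r).and
    ((rep_mul ((Mod A).add ((Mod A).add q q) (Mod A).one) n).and
      ((rep_add ((Mod A).add q q) (Mod A).one).and ((rep_one (A := A)).and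
        (rep_add q q))))).mono ?_
  intro i hi
  rw [hi.1, hi.2.1, hi.2.2.1, hi.2.2.2.1, hi.2.2.2.2]

theorem ent_iff (a b j r : MM A) : Ent (Mod A) a b j r ↔
    AE (fun i => rep a i % (rep b i * (rep j i + 1) + 1) = rep r i) := by
  constructor
  · rintro ⟨q, h1, h2⟩
    have h1' := mm_eq_iff.mp h1
    replace h2 := (lt_iff _ _).mp h2
    refine ((h1'.and h2).and ((rep_den b j).and (rep_ent b j q r))).mono ?_
    intro i hi
    obtain ⟨⟨e1, e2⟩, e3, e4⟩ := hi
    rw [e3] at e2
    rw [e1, e4, Nat.add_comm, Nat.add_mul_mod_self_right, Nat.mod_eq_of_lt e2]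
  · intro h
    obtain ⟨q, hq⟩ := exists_rep (x := fun i => rep a i / (rep b i * (rep j i + 1) + 1)) a
      (AE.of_forall (fun i => Nat.div_le_self _ _))
    refine ⟨q, mm_ext ?_, ?_⟩
    · refine ((h.and hq).and (rep_ent b j q r)).mono ?_
      intro i hi
      obtain ⟨⟨e1, e2⟩, e4⟩ := hi
      rw [e4, e2, ← e1, Nat.mul_comm]
      exact (Nat.div_add_mod _ _).symm
    · refine (lt_iff _ _).mpr ?_
      refine (h.and (rep_den b j)).mono ?_
      intro i hi
      rw [hi.2, ← hi.1]
      exact Nat.mod_lt _ (Nat.succ_pos _)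

theorem pow2_iff (l n : MM A) : Pow2 (Mod A) l n ↔ AE (fun i => rep n i = 2 ^ rep l i) := by
  constructor
  · rintro ⟨a, b, h0, hs, hl⟩
    replace h0 := (ent_iff _ _ _ _).mp h0
    replace hl := (ent_iff _ _ _ _).mp hl
    have h1 : AE (fun i => ∀ j, j < rep l i →
        rep a i % (rep b i * (j + 1 + 1) + 1) = 2 * (rep a i % (rep b i * (j + 1) + 1))) := by
      rw [← ae_forall_lt_iff (A := A) (fun i j => rep a i % (rep b i * (j + 1 + 1) + 1) =
        2 * (rep a i % (rep b i * (j + 1) + 1)))]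
      intro j hj
      obtain ⟨r, hr⟩ := exists_rep (x := fun i => rep a i % (rep b i * (rep j i + 1) + 1)) a
        (AE.of_forall (fun i => Nat.mod_le _ _))
      have h2 : Ent (Mod A) a b j r := by
        refine (ent_iff _ _ _ _).mpr ?_
        exact hr.mono (fun i hi => hi.symm)
      have h3 := hs j hj r h2
      replace h3 := (ent_iff _ _ _ _).mp h3
      refine ((h3.and hr).and ((rep_add j (Mod A).one).and ((rep_one (A := A)).and
        (rep_add r r)))).mono ?_
      intro i hi
      obtain ⟨⟨e1, e2⟩, e3, e4, e5⟩ := hi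
      rw [e3, e4, e5, e2] at e1
      rw [e1]; ring
    refine ((h0.and hl).and (h1.and ((rep_zero (A := A)).and (rep_one (A := A))))).mono ?_
    intro i hi
    obtain ⟨⟨e0, el⟩, e1, ez, eo⟩ := hi
    rw [ez, eo] at e0
    have key : ∀ j, j ≤ rep l i → rep a i % (rep b i * (j + 1) + 1) = 2 ^ j := by
      intro j
      induction j with
      | zero => intro _; rw [e0, pow_zero]
      | succ j ih =>
        intro hj
        rw [e1 j (by omega), ih (by omega), pow_succ]; ring
    rw [← el, key _ le_rfl]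
  · intro h
    choose ca cb hca hcb hcode using A.growth.code
    have hbd : ∀ g : ℕ → ℕ, (∀ l, g l ≤ A.G l) → Bd A (fun i => g (rep l i)) :=
      fun g hg => (rep_bd l).G.of_le (AE.of_forall (fun i => hg _))
    have ha := rep_mk (A := A) _ (hbd ca hca)
    have hb := rep_mk (A := A) _ (hbd cb hcb)
    refine ⟨mk _ (hbd ca hca), mk _ (hbd cb hcb), ?_, ?_, ?_⟩
    · refine (ent_iff _ _ _ _).mpr ?_
      refine ((ha.and hb).and ((rep_zero (A := A)).and (rep_one (A := A)))).mono ?_
      intro i hi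
      obtain ⟨⟨e1, e2⟩, e3, e4⟩ := hi
      rw [e1, e2, e3, e4]
      have := hcode (rep l i) 0 (Nat.zero_le _)
      rw [this, pow_zero]
    · intro j hj r hr
      replace hj := (lt_iff _ _).mp hj
      replace hr := (ent_iff _ _ _ _).mp hr
      refine (ent_iff _ _ _ _).mpr ?_
      refine (((ha.and hb).and (hj.and hr)).and ((rep_add j (Mod A).one).and
        ((rep_one (A := A)).and (rep_add r r)))).mono ?_
      intro i hi
      obtain ⟨⟨⟨e1, e2⟩, e3, e4⟩, e5, e6, e7⟩ := hi
      rw [e1, e2, hcode _ _ e3.le] at e4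
      rw [e1, e2, e5, e6, e7, ← e4, hcode _ _ (by omega), pow_succ]
      ring
    · refine (ent_iff _ _ _ _).mpr ?_
      refine ((ha.and hb).and h).mono ?_
      intro i hi
      obtain ⟨⟨e1, e2⟩, e3⟩ := hi
      rw [e1, e2, e3, hcode _ _ le_rfl]

theorem bit_iff (σ j : MM A) :
    Bit (Mod A) σ j ↔ AE (fun i => (rep σ i).testBit (rep j i) = true) := by
  have hdig : ∀ s j : ℕ, s.testBit j = true ↔ s / 2 ^ j % 2 = 1 := by
    intro s j
    rw [Nat.testBit_eq_decide_div_mod_eq]
    simp
  constructor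
  · rintro ⟨n, q, r, hn, hr, he⟩
    replace hn := (pow2_iff _ _).mp hn
    replace hr := (lt_iff _ _).mp hr
    have he' := mm_eq_iff.mp he
    refine (((hn.and hr).and he').and (rep_bit q n r)).mono ?_
    intro i hi
    obtain ⟨⟨⟨e1, e2⟩, e3⟩, e4⟩ := hi
    rw [e4, e1] at e3
    rw [e1] at e2
    rw [hdig, e3]
    have h1 : ((rep q i + rep q i + 1) * 2 ^ rep j i + rep r i) / 2 ^ rep j i =
        rep q i + rep q i + 1 := by
      rw [Nat.add_comm, Nat.add_mul_div_right _ _ (by positivity), Nat.div_eq_of_lt e2]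
      omega
    rw [h1]
    omega
  · intro h
    obtain ⟨q, hq⟩ := exists_rep (x := fun i => rep σ i / 2 ^ rep j i / 2) σ
      (AE.of_forall (fun i => (Nat.div_le_self _ _).trans (Nat.div_le_self _ _)))
    obtain ⟨r, hr⟩ := exists_rep (x := fun i => rep σ i % 2 ^ rep j i) σ
      (AE.of_forall (fun i => Nat.mod_le _ _))
    have hn := rep_mk (A := A) _ (rep_bd j).two_pow
    refine ⟨mk _ (rep_bd j).two_pow, q, r, ?_, ?_, mm_ext ?_⟩
    · exact (pow2_iff _ _).mpr hn
    · refine (lt_iff _ _).mpr ?_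
      refine (hn.and hr).mono ?_
      intro i hi
      rw [hi.1, hi.2]
      exact Nat.mod_lt _ (by positivity)
    · refine (((hn.and hr).and (hq.and h)).and
        (rep_bit q (mk _ (rep_bd j).two_pow) r)).mono ?_
      intro i hi
      obtain ⟨⟨⟨e1, e2⟩, e3, e0⟩, e4⟩ := hi
      rw [e4, e1, e2, e3]
      rw [hdig] at e0
      have h1 : rep σ i / 2 ^ rep j i / 2 + rep σ i / 2 ^ rep j i / 2 + 1 =
          rep σ i / 2 ^ rep j i := by omega
      rw [h1, Nat.mul_comm]
      exact (Nat.div_add_mod _ _).symm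

theorem count_imp (C : MM A → Prop) (Ch : ℕ → ℕ → Prop) (n m : MM A)
    (hC : ∀ σ : MM A, (Mod A).lt σ n → (C σ ↔ AE (fun i => Ch i (rep σ i))))
    (h : Count (Mod A) C n m) :
    AE (fun i => rep m i = ((Finset.range (rep n i)).filter (fun σ => Ch i σ)).card) := by
  obtain ⟨a, b, h0, hs, hl⟩ := h
  replace h0 := (ent_iff _ _ _ _).mp h0
  replace hl := (ent_iff _ _ _ _).mp hl
  have h1 : AE (fun i => ∀ j, j < rep n i →
      rep a i % (rep b i * (j + 1 + 1) + 1) = rep a i % (rep b i * (j + 1) + 1) +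
        (if Ch i j then 1 else 0)) := by
    rw [← ae_forall_lt_iff (A := A) (fun i j => rep a i % (rep b i * (j + 1 + 1) + 1) =
      rep a i % (rep b i * (j + 1) + 1) + (if Ch i j then 1 else 0))]
    intro j hj
    obtain ⟨r, hr⟩ := exists_rep (x := fun i => rep a i % (rep b i * (rep j i + 1) + 1)) a
      (AE.of_forall (fun i => Nat.mod_le _ _))
    have h2 : Ent (Mod A) a b j r := by
      refine (ent_iff _ _ _ _).mpr ?_
      exact hr.mono (fun i hi => hi.symm)
    have h3 := hs j hj r h2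
    by_cases hc : C j
    · have h4 := (h3.1 hc)
      replace h4 := (ent_iff _ _ _ _).mp h4
      have h5 := (hC j hj).mp hc
      refine ((h4.and hr).and ((rep_add j (Mod A).one).and ((rep_one (A := A)).and
        ((rep_add r (Mod A).one).and h5)))).mono ?_
      intro i hi
      obtain ⟨⟨e1, e2⟩, e3, e4, e5, e6⟩ := hi
      rw [e3, e4, e5, e4, e2] at e1
      rw [e1, if_pos e6]
    · have h4 := (h3.2 hc)
      replace h4 := (ent_iff _ _ _ _).mp h4
      have h5 : AE (fun i => ¬ Ch i (rep j i)) := by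
        rw [ae_not]
        exact fun h => hc ((hC j hj).mpr h)
      refine ((h4.and hr).and ((rep_add j (Mod A).one).and ((rep_one (A := A)).and h5))).mono ?_
      intro i hi
      obtain ⟨⟨e1, e2⟩, e3, e4, e6⟩ := hi
      rw [e3, e4, e2] at e1
      rw [e1, if_neg e6]; rfl
  refine ((h0.and hl).and (h1.and (rep_zero (A := A)))).mono ?_
  intro i hi
  obtain ⟨⟨e0, el⟩, e1, ez⟩ := hi
  rw [ez] at e0
  have key : ∀ j, j ≤ rep n i → rep a i % (rep b i * (j + 1) + 1) =
      ((Finset.range j).filter (fun σ => Ch i σ)).card := by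
    intro j
    induction j with
    | zero => intro _; rw [e0]; simp
    | succ j ih =>
      intro hj
      rw [e1 j (by omega), ih (by omega), Finset.range_add_one, Finset.filter_insert]
      split
      · rw [Finset.card_insert_of_notMem (by simp)]
      · simp
  rw [← el, key _ le_rfl]

end Pool.Agent.SepRT
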