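import Mathlib

/-!
# Second-order arithmetic, `2-RAN` and `coRT^2_2(p)`: definitions

All notions are about an arbitrary structure `A : L2` for the language of second-order
arithmetic (a first-order part `A.M` with `0, 1, +, *, <` and a family `A.S` of subsets of it).
-/

namespace Pool.Agent.SepRT

/-- Terms with number variables `x_0, x_1, ...` (`var n` is `x_n`). -/
inductive Tm : Type
  | var : ℕ → Tm
  | zero : Tm
  | one : Tm
  | add : Tm → Tm → Tm
  | mul : Tm → Tm → Tm

/-- Bounded (`Σ^0_0`) formulas with number variables `x_n` and set variables `X_j`: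
`mem t j` is `t ∈ X_j`, and `ball n t φ` is `∀ x_n < t, φ` (the bound `t` is evaluated
outside the quantifier). -/
inductive Fm : Type
  | eq : Tm → Tm → Fm
  | lt : Tm → Tm → Fm
  | mem : Tm → ℕ → Fm
  | neg : Fm → Fm
  | and : Fm → Fm → Fm
  | ball : ℕ → Tm → Fm → Fm

/-- A structure for the language of second-order arithmetic. -/
structure L2 where
  /-- the numbers -/
  M : Type
  /-- zero -/
  zero : M
  /-- one -/
  one : M
  /-- addition -/
  add : M → M → M
  /-- multiplication -/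
  mul : M → M → M
  /-- the order -/
  lt : M → M → Prop
  /-- the sets -/
  S : Set (Set M)

/-- Value of a term under the assignment `v`. -/
def Tm.val (A : L2) (v : ℕ → A.M) : Tm → A.M
  | .var n => v n
  | .zero => A.zero
  | .one => A.one
  | .add s t => A.add (s.val A v) (t.val A v)
  | .mul s t => A.mul (s.val A v) (t.val A v)

/-- Truth of a bounded formula; `V` interprets the set variables, `v` the number variables. -/
def Fm.sat (A : L2) (V : ℕ → Set A.M) : Fm → (ℕ → A.M) → Prop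
  | .eq s t, v => s.val A v = t.val A v
  | .lt s t, v => A.lt (s.val A v) (t.val A v)
  | .mem t j, v => t.val A v ∈ V j
  | .neg φ, v => ¬ Fm.sat A V φ v
  | .and φ ψ, v => Fm.sat A V φ v ∧ Fm.sat A V ψ v
  | .ball n t φ, v => ∀ x, A.lt x (t.val A v) → Fm.sat A V φ (Function.update v n x)

/-- `asg v l`: the assignment `v` with the values of `x_0, ..., x_{l.length-1}` replaced by the
entries of the list `l`. -/
def asg {M : Type} (v : ℕ → M) (l : List M) : ℕ → M := fun n => (l[n]?).getD (v n)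

/-- The basic axioms of second-order arithmetic. -/
structure BasicAx (A : L2) : Prop where
  succ_ne : ∀ n, A.add n A.one ≠ A.zero
  succ_inj : ∀ m n, A.add m A.one = A.add n A.one → m = n
  add_zero : ∀ m, A.add m A.zero = m
  add_succ : ∀ m n, A.add m (A.add n A.one) = A.add (A.add m n) A.one
  mul_zero : ∀ m, A.mul m A.zero = A.zero
  mul_succ : ∀ m n, A.mul m (A.add n A.one) = A.add (A.mul m n) m
  not_lt_zero : ∀ m, ¬ A.lt m A.zero
  lt_succ : ∀ m n, A.lt m (A.add n A.one) ↔ A.lt m n ∨ m = n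

/-- `Σ^0_1` induction (induction variable `x_0`, existential variable `x_1`). -/
def ISigma1 (A : L2) : Prop :=
  ∀ (φ : Fm) (V : ℕ → Set A.M) (v : ℕ → A.M), (∀ j, V j ∈ A.S) →
    (∃ y, φ.sat A V (asg v [A.zero, y])) →
    (∀ x, (∃ y, φ.sat A V (asg v [x, y])) → ∃ y, φ.sat A V (asg v [A.add x A.one, y])) →
    ∀ x, ∃ y, φ.sat A V (asg v [x, y])

/-- `Δ^0_1` comprehension. -/
def Delta1CA (A : L2) : Prop :=
  ∀ (φ ψ : Fm) (V : ℕ → Set A.M) (v : ℕ → A.M), (∀ j, V j ∈ A.S) →
    (∀ x, (∃ y, φ.sat A V (asg v [x, y])) ↔ ¬ ∃ y, ψ.sat A V (asg v [x, y])) →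
    ∃ X ∈ A.S, ∀ x, x ∈ X ↔ ∃ y, φ.sat A V (asg v [x, y])

/-- The axioms of `RCA_0`. -/
structure RCA0 (A : L2) : Prop where
  basic : BasicAx A
  isigma : ISigma1 A
  comp : Delta1CA A

/-- `Σ^0_2` collection (bounding), for the `Σ^0_2` formula `∃ x_2 ∀ x_3 φ`. -/
def BSigma2 (A : L2) : Prop :=
  ∀ (φ : Fm) (V : ℕ → Set A.M) (v : ℕ → A.M) (c : A.M), (∀ j, V j ∈ A.S) →
    (∀ x, A.lt x c → ∃ y, ∃ p, ∀ q, φ.sat A V (asg v [x, y, p, q])) →
    ∃ w, ∀ x, A.lt x c → ∃ y, A.lt y w ∧ ∃ p, ∀ q, φ.sat A V (asg v [x, y, p, q])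

/-- Goedel's `β`: `r` is the remainder of `a` modulo `b (j+1) + 1`; thus `(a, b)` codes a finite
sequence whose `j`-th entry is `r`. -/
def Ent (A : L2) (a b j r : A.M) : Prop :=
  ∃ q, a = A.add (A.mul q (A.add (A.mul b (A.add j A.one)) A.one)) r ∧
    A.lt r (A.add (A.mul b (A.add j A.one)) A.one)

/-- `n = 2 ^ l`, by a coded sequence. -/
def Pow2 (A : L2) (l n : A.M) : Prop :=
  ∃ a b, Ent A a b A.zero A.one ∧
    (∀ j, A.lt j l → ∀ r, Ent A a b j r → Ent A a b (A.add j A.one) (A.add r r)) ∧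
    Ent A a b l n

/-- The `j`-th binary digit of `σ` is `1`. Numbers `σ < 2 ^ l` are used as codes of the binary
strings of length `l`. -/
def Bit (A : L2) (σ j : A.M) : Prop :=
  ∃ n q r, Pow2 A j n ∧ A.lt r n ∧ σ = A.add (A.mul (A.add (A.add q q) A.one) n) r

/-- The number of `σ < n` with `C σ` is `c`, by a coded sequence. -/
def Count (A : L2) (C : A.M → Prop) (n c : A.M) : Prop :=
  ∃ a b, Ent A a b A.zero A.zero ∧
    (∀ j, A.lt j n → ∀ r, Ent A a b j r →
      (C j → Ent A a b (A.add j A.one) (A.add r A.one)) ∧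
      (¬ C j → Ent A a b (A.add j A.one) r)) ∧
    Ent A a b n c

/-- Interpretation of the set variables: `X_0` is `X`, `X_1` is `Y`, the others are empty. -/
def setv {M : Type} (X Y : Set M) : ℕ → Set M
  | 0 => X
  | 1 => Y
  | _ => ∅

/-- The `Σ^0_2(X)` class `U_k = {Y : ∃ u ∀ b φ(k, u, b, X, Y)}` (`k = x_0`, `u = x_1`,
`b = x_2`, the other number variables are parameters) has measure at most `2 ^ (-k)`:
for all `c` and `d` there is `s` such that the clopen class
`{Y : ∃ u < c ∀ b < s φ(k, u, b, X, Y)}` has measure at most `2 ^ (-k) + 2 ^ (-d)`;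
its measure is computed by counting the strings `σ` of any sufficiently large length `l`. -/
def MeasLE (A : L2) (φ : Fm) (v : ℕ → A.M) (X : Set A.M) (k : A.M) : Prop :=
  ∀ c d, ∃ s l₀, ∀ l, ¬ A.lt l l₀ → ∃ n pk pd m,
    Pow2 A l n ∧ Pow2 A k pk ∧ Pow2 A d pd ∧
    Count A (fun σ => ∃ u, A.lt u c ∧ ∀ b, A.lt b s →
      φ.sat A (setv X {j | Bit A σ j}) (asg v [k, u, b])) n m ∧
    ¬ A.lt (A.mul n (A.add pk pd)) (A.mul m (A.mul pk pd))

/-- `Y` is 2-random relative to `X`: `Y` is not in `⋂ U_k` for any uniform sequence `U_k` of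
`Σ^0_2(X)` classes with measure of `U_k` at most `2 ^ (-k)` for every `k`. -/
def TwoRandom (A : L2) (X Y : Set A.M) : Prop :=
  ∀ (φ : Fm) (v : ℕ → A.M), (∀ k, MeasLE A φ v X k) →
    ∃ k, ¬ ∃ u, ∀ b, φ.sat A (setv X Y) (asg v [k, u, b])

/-- The statement `2-RAN`. -/
def TwoRAN (A : L2) : Prop := ∀ X ∈ A.S, ∃ Y ∈ A.S, TwoRandom A X Y

/-- The pairing `(x + y)^2 + x`. -/
def pr (A : L2) (x y : A.M) : A.M := A.add (A.mul (A.add x y) (A.add x y)) x

/-- Permutations are given by their range sequences; `Separable p`: `p` arises from the one-point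
permutation by direct and skew sums. -/
inductive Separable : List ℕ → Prop
  | one : Separable [0]
  | dsum (π σ : List ℕ) : Separable π → Separable σ →
      Separable (π ++ σ.map (fun a => a + π.length))
  | ssum (π σ : List ℕ) : Separable π → Separable σ →
      Separable (π.map (fun a => a + σ.length) ++ σ)

/-- The colouring `f : [M]^2 → 2` coded by `F` (`f(x, y) = 1` iff `pr x y ∈ F`, for `x < y`)
avoids the pattern of the permutation with range sequence `p`. -/
def Avoids (A : L2) (F : Set A.M) (p : List ℕ) : Prop :=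
  ¬ ∃ x : Fin p.length → A.M, (∀ i j, i < j → A.lt (x i) (x j)) ∧
    ∀ i j, i < j → (pr A (x i) (x j) ∈ F ↔ p.get j < p.get i)

/-- The statement `coRT^2_2(p)`: every colouring of pairs that avoids `p` has an infinite
homogeneous set. -/
def CoRT (A : L2) (p : List ℕ) : Prop :=
  ∀ F ∈ A.S, Avoids A F p → ∃ H ∈ A.S, (∀ x, ∃ y ∈ H, A.lt x y) ∧
    ((∀ x ∈ H, ∀ y ∈ H, A.lt x y → pr A x y ∈ F) ∨
     (∀ x ∈ H, ∀ y ∈ H, A.lt x y → pr A x y ∉ F))

end Pool.Agent.SepRT
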