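import Pool.Agent.Lib.MP_26a456_lc.Funs

/-!
# A countable family of functionals closed under the operations
-/

open Classical

namespace Pool.Agent.SepRT

deriving instance Countable for Tm
deriving instance Countable for Fm

/-- the levels of the closure -/
noncomputable def lvl : ℕ → Set Fn
  | 0 => {colFn, zFn}
  | n + 1 => lvl n ∪ maskFn '' lvl n ∪ edgeFn '' lvl n ∪ cntFn '' lvl n ∪
      Set.range (fun q : ℕ × Fm × Fm × List (lvl n) =>
        dlFn q.1 q.2.1 q.2.2.1 (q.2.2.2.map Subtype.val))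

theorem lvl_countable : ∀ n, (lvl n).Countable := by
  intro n
  induction n with
  | zero => exact (Set.countable_singleton _).insert _
  | succ n ih =>
    have : Countable (lvl n) := ih.to_subtype
    refine ((((ih.union (ih.image _)).union (ih.image _)).union (ih.image _)).union ?_)
    exact Set.countable_range _

theorem lvl_mono {m n : ℕ} (h : m ≤ n) : lvl m ⊆ lvl n := by
  induction h with
  | refl => exact subset_rfl
  | step h ih =>
    intro F hF
    exact Or.inl (Or.inl (Or.inl (Or.inl (ih hF))))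

theorem exists_enum : Nonempty Enum := by
  have hc : (⋃ n, lvl n).Countable := Set.countable_iUnion lvl_countable
  have hne : (⋃ n, lvl n).Nonempty := ⟨colFn, Set.mem_iUnion.2 ⟨0, Or.inl rfl⟩⟩
  obtain ⟨F, hF⟩ := hc.exists_eq_range hne
  have mem : ∀ j, ∃ n, F j ∈ lvl n := fun j => by
    have : F j ∈ Set.range F := ⟨j, rfl⟩
    rw [← hF] at this
    exact Set.mem_iUnion.1 this
  have hit : ∀ n, ∀ G ∈ lvl n, ∃ k, F k = G := fun n G hG => by
    have : G ∈ Set.range F := by
      rw [← hF]
      exact Set.mem_iUnion.2 ⟨n, hG⟩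
    exact this
  refine ⟨⟨F, hit 0 _ (Or.inl rfl), hit 0 _ (Or.inr rfl), ?_, ?_, ?_, ?_⟩⟩
  · intro j
    obtain ⟨n, hn⟩ := mem j
    exact hit (n + 1) _ (Or.inl (Or.inl (Or.inl (Or.inr ⟨_, hn, rfl⟩))))
  · intro j
    obtain ⟨n, hn⟩ := mem j
    exact hit (n + 1) _ (Or.inl (Or.inl (Or.inr ⟨_, hn, rfl⟩)))
  · intro j
    obtain ⟨n, hn⟩ := mem j
    exact hit (n + 1) _ (Or.inl (Or.inr ⟨_, hn, rfl⟩))
  · intro i φ ψ L
    have key : ∀ L : List ℕ, ∃ n, ∀ j ∈ L, F j ∈ lvl n := by
      intro L
      induction L with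
      | nil => exact ⟨0, by simp⟩
      | cons a L ih =>
        obtain ⟨n, hn⟩ := ih
        obtain ⟨m, hm⟩ := mem a
        refine ⟨max m n, ?_⟩
        intro j hj
        rcases List.mem_cons.1 hj with rfl | hj
        · exact lvl_mono (le_max_left _ _) hm
        · exact lvl_mono (le_max_right _ _) (hn j hj)
    obtain ⟨n, hn⟩ := key L
    have lift : ∃ L' : List (lvl n), L'.map Subtype.val = L.map F := by
      refine ⟨L.attach.map (fun j => ⟨F j.1, hn j.1 j.2⟩), ?_⟩
      rw [List.map_map]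
      have : (Subtype.val ∘ fun j : {x // x ∈ L} => (⟨F j.1, hn j.1 j.2⟩ : lvl n)) =
          F ∘ Subtype.val := rfl
      rw [this, ← List.map_map, List.attach_map_subtype_val]
    obtain ⟨L', hL'⟩ := lift
    refine hit (n + 1) _ (Or.inr ⟨(i, φ, ψ, L'), ?_⟩)
    simp only [hL']

end Pool.Agent.SepRT
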