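import Pool.Agent.Lib.MP_26a456_lc.Defs

/-!
# Stage functionals

A stage functional reads a colouring `f`, a sequence of columns `z`, a stage `s` and an input,
and outputs `none` (not yet halted) or `some b`. It is monotone in the stage and at stage `s` only
uses the part of the oracles below `s`.
-/

open Classical

namespace Pool.Agent.SepRT

/-- colourings of pairs `x < y` -/
abbrev Col := ℕ → ℕ → Bool

/-- oracles: a sequence of columns -/
abbrev Orc := ℕ → ℕ → Bool

/-- `f` and `g` agree on pairs `x < y < s` -/
def Agree (s : ℕ) (f g : Col) : Prop := ∀ x y, x < y → y < s → f x y = g x y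

/-- agreement of the oracles below `s` -/
def AgreeZ (s : ℕ) (z w : Orc) : Prop := ∀ c x, c < s → x < s → z c x = w c x

/-- the first `n` columns -/
def mask (n : ℕ) (z : Orc) : Orc := fun c x => if c < n then z c x else false

/-- the first `n` columns of `z`, followed by the column `Y`, followed by empty columns -/
def setcol (z : Orc) (n : ℕ) (Y : ℕ → Bool) : Orc :=
  fun c x => if c < n then z c x else if c = n then Y x else false

theorem mask_mask (m n : ℕ) (h : m ≤ n) (z : Orc) : mask m (mask n z) = mask m z := by
  funext c x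
  unfold mask
  by_cases hc : c < m
  · rw [if_pos hc, if_pos (lt_of_lt_of_le hc h), if_pos hc]
  · rw [if_neg hc, if_neg hc]

theorem setcol_self (n : ℕ) (z : Orc) : setcol z n (z n) = mask (n + 1) z := by
  funext c x
  unfold setcol mask
  by_cases hc : c < n
  · rw [if_pos hc, if_pos (by omega)]
  · by_cases hc' : c = n
    · rw [if_neg hc, if_pos hc', if_pos (by omega), hc']
    · rw [if_neg hc, if_neg hc', if_neg (by omega)]

theorem AgreeZ.mask {s : ℕ} {z w : Orc} (h : AgreeZ s z w) (n : ℕ) :
    AgreeZ s (SepRT.mask n z) (SepRT.mask n w) := by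
  intro c x hc hx
  unfold SepRT.mask
  rw [h c x hc hx]

/-- Stage functionals. -/
structure Fn where
  /-- the output at a stage on an input -/
  run : Col → Orc → ℕ → ℕ → Option Bool
  mono : ∀ f z s s' x b, s ≤ s' → run f z s x = some b → run f z s' x = some b
  use : ∀ f f' z z' s x, Agree s f f' → AgreeZ s z z' → run f z s x = run f' z' s x

theorem Fn.mono_ne (F : Fn) {f z s s' x} (h : s ≤ s') (h1 : F.run f z s x ≠ none) :
    F.run f z s' x = F.run f z s x := by
  obtain ⟨b, hb⟩ := Option.ne_none_iff_exists'.mp h1
  rw [hb, F.mono f z s s' x b h hb]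

/-- decoding of lists of numbers by iterated unpairing -/
def dec : ℕ → ℕ → ℕ
  | a, 0 => (Nat.unpair a).1
  | a, n + 1 => dec (Nat.unpair a).2 n

/-- coding of the first `N` values of `v` -/
def enc (v : ℕ → ℕ) : ℕ → ℕ
  | 0 => 0
  | N + 1 => Nat.pair (v 0) (enc (fun n => v (n + 1)) N)

theorem dec_pair (x a : ℕ) : ∀ n, dec (Nat.pair x a) (n + 1) = dec a n := by
  intro n
  simp [dec]

theorem dec_pair_zero (x a : ℕ) : dec (Nat.pair x a) 0 = x := by
  simp [dec]

theorem dec_enc (N : ℕ) : ∀ (v : ℕ → ℕ) (n : ℕ), n < N → dec (enc v N) n = v n := by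
  induction N with
  | zero => intro v n hn; omega
  | succ N ih =>
    intro v n hn
    cases n with
    | zero => simp [enc, dec]
    | succ n =>
      rw [enc, dec_pair, ih _ n (by omega)]

/-- value of terms in `ℕ` -/
def Tm.nval (v : ℕ → ℕ) : Tm → ℕ
  | .var n => v n
  | .zero => 0
  | .one => 1
  | .add s t => s.nval v + t.nval v
  | .mul s t => s.nval v * t.nval v

/-- truth of bounded formulas in `ℕ` -/
def Fm.nsat (V : ℕ → Set ℕ) : Fm → (ℕ → ℕ) → Prop
  | .eq s t, v => s.nval v = t.nval v
  | .lt s t, v => s.nval v < t.nval v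
  | .mem t j, v => t.nval v ∈ V j
  | .neg φ, v => ¬ Fm.nsat V φ v
  | .and φ ψ, v => Fm.nsat V φ v ∧ Fm.nsat V ψ v
  | .ball n t φ, v => ∀ x, x < t.nval v → Fm.nsat V φ (Function.update v n x)

/-- three-valued evaluation of bounded formulas in `ℕ`, where `q j y` is the current knowledge on
`y ∈ X_j`; strict: the value is `none` as soon as a needed query is undecided -/
noncomputable def Fm.dsat (q : ℕ → ℕ → Option Bool) : Fm → (ℕ → ℕ) → Option Bool
  | .eq s t, v => some (decide (s.nval v = t.nval v))
  | .lt s t, v => some (decide (s.nval v < t.nval v))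
  | .mem t j, v => q j (t.nval v)
  | .neg φ, v => (Fm.dsat q φ v).map not
  | .and φ ψ, v =>
      if Fm.dsat q φ v = none ∨ Fm.dsat q ψ v = none then none
      else some (decide (Fm.dsat q φ v = some true ∧ Fm.dsat q ψ v = some true))
  | .ball n t φ, v =>
      if ∃ x, x < t.nval v ∧ Fm.dsat q φ (Function.update v n x) = none then none
      else some (decide (∀ x, x < t.nval v → Fm.dsat q φ (Function.update v n x) = some true))

/-- monotonicity of the three-valued evaluation -/
theorem Fm.dsat_mono {q q' : ℕ → ℕ → Option Bool}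
    (h : ∀ j y b, q j y = some b → q' j y = some b) (φ : Fm) :
    ∀ (v : ℕ → ℕ) (b : Bool), φ.dsat q v = some b → φ.dsat q' v = some b := by
  induction φ with
  | eq s t => intro v b hb; exact hb
  | lt s t => intro v b hb; exact hb
  | mem t j => intro v b hb; exact h _ _ _ hb
  | neg φ ih =>
    intro v b hb
    simp only [Fm.dsat, Option.map_eq_some_iff] at hb ⊢
    obtain ⟨a, ha, hab⟩ := hb
    exact ⟨a, ih v a ha, hab⟩
  | and φ ψ ih1 ih2 =>
    intro v b hb
    simp only [Fm.dsat] at hb ⊢
    split at hb
    · exact absurd hb (by simp)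
    · rename_i hn
      push Not at hn
      obtain ⟨a, ha⟩ := Option.ne_none_iff_exists'.mp hn.1
      obtain ⟨c, hc⟩ := Option.ne_none_iff_exists'.mp hn.2
      rw [ih1 v a ha, ih2 v c hc]
      rw [ha, hc] at hb
      simpa using hb
  | ball n t φ ih =>
    intro v b hb
    simp only [Fm.dsat] at hb ⊢
    split at hb
    · exact absurd hb (by simp)
    · rename_i hn
      push Not at hn
      have key : ∀ x, x < t.nval v → Fm.dsat q' φ (Function.update v n x) =
          Fm.dsat q φ (Function.update v n x) := by
        intro x hx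
        obtain ⟨a, ha⟩ := Option.ne_none_iff_exists'.mp (hn x hx)
        rw [ha, ih _ a ha]
      rw [if_neg]
      · rw [← hb]
        congr 1
        apply decide_eq_decide.mpr
        constructor
        · intro h1 x hx
          rw [← key x hx]; exact h1 x hx
        · intro h1 x hx
          rw [key x hx]; exact h1 x hx
      · push Not
        intro x hx
        rw [key x hx]
        exact hn x hx

/-- correctness of the three-valued evaluation -/
theorem Fm.dsat_sound {q : ℕ → ℕ → Option Bool} {V : ℕ → Set ℕ}
    (h : ∀ j y b, q j y = some b → (b = true ↔ y ∈ V j)) (φ : Fm) :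
    ∀ (v : ℕ → ℕ) (b : Bool), φ.dsat q v = some b → (b = true ↔ φ.nsat V v) := by
  induction φ with
  | eq s t =>
    intro v b hb
    simp only [Fm.dsat, Option.some.injEq] at hb
    simp [Fm.nsat, ← hb]
  | lt s t =>
    intro v b hb
    simp only [Fm.dsat, Option.some.injEq] at hb
    simp [Fm.nsat, ← hb]
  | mem t j => intro v b hb; exact h _ _ _ hb
  | neg φ ih =>
    intro v b hb
    simp only [Fm.dsat, Option.map_eq_some_iff] at hb
    obtain ⟨a, ha, hab⟩ := hb
    have := ih v a ha
    simp only [Fm.nsat]
    rw [← this, ← hab]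
    cases a <;> simp
  | and φ ψ ih1 ih2 =>
    intro v b hb
    simp only [Fm.dsat] at hb
    split at hb
    · exact absurd hb (by simp)
    · rename_i hn
      push Not at hn
      obtain ⟨a, ha⟩ := Option.ne_none_iff_exists'.mp hn.1
      obtain ⟨c, hc⟩ := Option.ne_none_iff_exists'.mp hn.2
      have h1 := ih1 v a ha
      have h2 := ih2 v c hc
      rw [ha, hc] at hb
      simp only [Option.some.injEq] at hb
      simp only [Fm.nsat]
      rw [← h1, ← h2, ← hb]
      simp
  | ball n t φ ih =>
    intro v b hb
    simp only [Fm.dsat] at hb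
    split at hb
    · exact absurd hb (by simp)
    · rename_i hn
      push Not at hn
      simp only [Option.some.injEq] at hb
      rw [← hb]
      simp only [decide_eq_true_eq, Fm.nsat]
      constructor
      · intro h1 x hx
        exact (ih _ _ (h1 x hx)).mp rfl
      · intro h1 x hx
        obtain ⟨a, ha⟩ := Option.ne_none_iff_exists'.mp (hn x hx)
        have := (ih _ _ ha).mpr (h1 x hx)
        rw [ha, this]

end Pool.Agent.SepRT
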