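import Pool.Agent.Lib.MP_26a456_lc.Fn

/-!
# The basic functionals and the operations on functionals
-/

open Classical

namespace Pool.Agent.SepRT

/-- reads the colouring: the set of all `(x + y)^2 + x` with `x < y` and `f x y = true`
(input: `pair element parameter`, the parameter is ignored) -/
noncomputable def colFn : Fn where
  run f _ s w := if (Nat.unpair w).1 < s then
      some (decide (∃ x y, x < y ∧ (x + y) * (x + y) + x = (Nat.unpair w).1 ∧ f x y = true))
    else none
  mono := by
    intro f z s s' x b hs h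
    split at h
    · rename_i h1
      rw [if_pos (lt_of_lt_of_le h1 hs)]; exact h
    · exact absurd h (by simp)
  use := by
    intro f f' z z' s w hf hz
    split
    · rename_i h1
      congr 1
      apply decide_eq_decide.mpr
      have key : ∀ x y, x < y → (x + y) * (x + y) + x = (Nat.unpair w).1 → y < s := by
        intro x y hxy he
        have : y ≤ (x + y) * (x + y) := by nlinarith
        omega
      constructor
      · rintro ⟨x, y, hxy, he, hb⟩
        exact ⟨x, y, hxy, he, by rw [← hf x y hxy (key x y hxy he)]; exact hb⟩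
      · rintro ⟨x, y, hxy, he, hb⟩
        exact ⟨x, y, hxy, he, by rw [hf x y hxy (key x y hxy he)]; exact hb⟩
    · rfl

/-- reads a column (input: `pair element column`) -/
noncomputable def zFn : Fn where
  run _ z s w := if (Nat.unpair w).1 < s ∧ (Nat.unpair w).2 < s then
      some (z (Nat.unpair w).2 (Nat.unpair w).1) else none
  mono := by
    intro f z s s' x b hs h
    split at h
    · rename_i h1
      rw [if_pos ⟨lt_of_lt_of_le h1.1 hs, lt_of_lt_of_le h1.2 hs⟩]; exact h
    · exact absurd h (by simp)
  use := by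
    intro f f' z z' s w hf hz
    split
    · rename_i h1
      rw [hz _ _ h1.2 h1.1]
    · rfl

/-- masks the oracle by the first component of the input -/
noncomputable def maskFn (F : Fn) : Fn where
  run f z s w := F.run f (mask (Nat.unpair w).1 z) s (Nat.unpair w).2
  mono := by
    intro f z s s' x b hs h
    exact F.mono _ _ _ _ _ _ hs h
  use := by
    intro f f' z z' s w hf hz
    exact F.use _ _ _ _ _ _ hf (hz.mask _)

/-- searches for an edge inside the set computed by `F` with parameter `a` -/
noncomputable def edgeFn (F : Fn) : Fn where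
  run f z s a := if ∃ x y, x < y ∧ y < s ∧ F.run f z s (Nat.pair x a) = some true ∧
      F.run f z s (Nat.pair y a) = some true ∧ f x y = true then some true else none
  mono := by
    intro f z s s' x b hs h
    split at h
    · rename_i h1
      obtain ⟨x', y', h2, h3, h4, h5, h6⟩ := h1
      rw [if_pos ⟨x', y', h2, lt_of_lt_of_le h3 hs, F.mono _ _ _ _ _ _ hs h4,
        F.mono _ _ _ _ _ _ hs h5, h6⟩]
      exact h
    · exact absurd h (by simp)
  use := by
    intro f f' z z' s w hf hz
    have e : ∀ x, F.run f z s x = F.run f' z' s x := fun x => F.use _ _ _ _ _ _ hf hz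
    congr 1
    apply propext
    constructor
    · rintro ⟨x', y', h2, h3, h4, h5, h6⟩
      exact ⟨x', y', h2, h3, by rw [← e]; exact h4, by rw [← e]; exact h5,
        by rw [← hf _ _ h2 h3]; exact h6⟩
    · rintro ⟨x', y', h2, h3, h4, h5, h6⟩
      exact ⟨x', y', h2, h3, by rw [e]; exact h4, by rw [e]; exact h5,
        by rw [hf _ _ h2 h3]; exact h6⟩

/-- input `pair c a`: waits until the set computed by `F` with parameter `a` is decided on an
initial segment that contains at least `c` elements -/
noncomputable def cntFn (F : Fn) : Fn where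
  run f z s w := if ∃ m, m < s ∧ (∀ x, x < m → F.run f z s (Nat.pair x (Nat.unpair w).2) ≠ none) ∧
      (Nat.unpair w).1 ≤ ((Finset.range m).filter
        (fun x => F.run f z s (Nat.pair x (Nat.unpair w).2) = some true)).card
      then some true else none
  mono := by
    intro f z s s' x b hs h
    split at h
    · rename_i h1
      obtain ⟨m, h2, h3, h4⟩ := h1
      have e : ∀ y, y < m → F.run f z s' (Nat.pair y (Nat.unpair x).2) =
          F.run f z s (Nat.pair y (Nat.unpair x).2) := fun y hy => F.mono_ne hs (h3 y hy)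
      have h5 : (Nat.unpair x).1 ≤ ((Finset.range m).filter
          (fun y => F.run f z s' (Nat.pair y (Nat.unpair x).2) = some true)).card := by
        refine le_trans h4 (Finset.card_le_card ?_)
        intro y hy
        rw [Finset.mem_filter] at hy ⊢
        refine ⟨hy.1, ?_⟩
        rw [e y (Finset.mem_range.mp hy.1)]; exact hy.2
      rw [if_pos ⟨m, lt_of_lt_of_le h2 hs, fun y hy => by rw [e y hy]; exact h3 y hy, h5⟩]
      exact h
    · exact absurd h (by simp)
  use := by
    intro f f' z z' s w hf hz
    have e : ∀ x, F.run f z s x = F.run f' z' s x := fun x => F.use _ _ _ _ _ _ hf hz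
    simp only [e]

/-- the current knowledge about the set variables: `X_j` is the set computed by the `j`-th
functional of `L` with the oracle masked by `dec b (2j)` and parameter `dec b (2j+1)`;
it is empty if `j ≥ L.length` -/
noncomputable def qry (L : List Fn) (f : Col) (z : Orc) (b s : ℕ) (j y : ℕ) : Option Bool :=
  match L[j]? with
  | some F => F.run f (mask (dec b (2 * j)) z) s (Nat.pair y (dec b (2 * j + 1)))
  | none => some false

/-- `φ` is verified at stage `s` with search variable `x_i`; the input `w` is
`pair x (pair p b)`, the number variables are decoded from `pair x p` -/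
def wit (i : ℕ) (φ : Fm) (L : List Fn) (f : Col) (z : Orc) (s w : ℕ) : Prop :=
  ∃ y, y < s ∧ φ.dsat (qry L f z (Nat.unpair (Nat.unpair w).2).2 s)
    (Function.update (dec (Nat.pair (Nat.unpair w).1 (Nat.unpair (Nat.unpair w).2).1)) i y) =
      some true

theorem qry_mono (L : List Fn) (f : Col) (z : Orc) (b s s' : ℕ) (hs : s ≤ s') (j y : ℕ)
    (c : Bool) (h : qry L f z b s j y = some c) : qry L f z b s' j y = some c := by
  unfold qry at h ⊢
  split at h
  · exact Fn.mono _ _ _ _ _ _ _ hs h
  · exact h

theorem wit_mono (i : ℕ) (φ : Fm) (L : List Fn) (f : Col) (z : Orc) (s s' w : ℕ) (hs : s ≤ s')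
    (h : wit i φ L f z s w) : wit i φ L f z s' w := by
  obtain ⟨y, hy, h1⟩ := h
  exact ⟨y, lt_of_lt_of_le hy hs,
    Fm.dsat_mono (fun j y c => qry_mono L f z _ s s' hs j y c) _ _ _ h1⟩

theorem wit_use (i : ℕ) (φ : Fm) (L : List Fn) (f f' : Col) (z z' : Orc) (s w : ℕ)
    (hf : Agree s f f') (hz : AgreeZ s z z') : wit i φ L f z s w ↔ wit i φ L f' z' s w := by
  unfold wit
  have e : ∀ b, qry L f z b s = qry L f' z' b s := by
    intro b
    funext j y
    unfold qry
    split
    · exact Fn.use _ _ _ _ _ _ _ hf (hz.mask _)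
    · rfl
  rw [e]

/-- searches for a witness of `φ` (output `true`) or of `ψ` (output `false`), whichever comes
first; input `pair x (pair p b)` -/
noncomputable def dlFn (i : ℕ) (φ ψ : Fm) (L : List Fn) : Fn where
  run f z s w := if h : ∃ t, t ≤ s ∧ (wit i φ L f z t w ∨ wit i ψ L f z t w) then
      some (decide (wit i φ L f z (Nat.find h) w)) else none
  mono := by
    intro f z s s' x b hs h
    split at h
    · rename_i h1
      obtain ⟨t, ht, h2⟩ := h1
      have h1' : ∃ t, t ≤ s ∧ (wit i φ L f z t x ∨ wit i ψ L f z t x) := ⟨t, ht, h2⟩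
      have h1'' : ∃ t, t ≤ s' ∧ (wit i φ L f z t x ∨ wit i ψ L f z t x) :=
        ⟨t, ht.trans hs, h2⟩
      rw [dif_pos h1'']
      have : Nat.find h1'' = Nat.find h1' := by
        rw [Nat.find_eq_iff]
        refine ⟨⟨(Nat.find_spec h1').1.trans hs, (Nat.find_spec h1').2⟩, ?_⟩
        intro n hn h3
        exact Nat.find_min h1' hn ⟨hn.le.trans (Nat.find_spec h1').1, h3.2⟩
      rw [this]
      exact h
    · exact absurd h (by simp)
  use := by
    intro f f' z z' s w hf hz
    have e : ∀ (θ : Fm) t, t ≤ s → (wit i θ L f z t w ↔ wit i θ L f' z' t w) := by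
      intro θ t ht
      apply wit_use
      · exact fun x y hxy hy => hf x y hxy (by omega)
      · exact fun x y hxy hy => hz x y (by omega) (by omega)
    have e2 : ∀ t, (t ≤ s ∧ (wit i φ L f z t w ∨ wit i ψ L f z t w)) ↔
        (t ≤ s ∧ (wit i φ L f' z' t w ∨ wit i ψ L f' z' t w)) := by
      intro t
      constructor
      · rintro ⟨h1, h2⟩
        exact ⟨h1, by rw [← e φ t h1, ← e ψ t h1]; exact h2⟩
      · rintro ⟨h1, h2⟩
        exact ⟨h1, by rw [e φ t h1, e ψ t h1]; exact h2⟩
    by_cases h : ∃ t, t ≤ s ∧ (wit i φ L f z t w ∨ wit i ψ L f z t w)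
    · have h' : ∃ t, t ≤ s ∧ (wit i φ L f' z' t w ∨ wit i ψ L f' z' t w) := by
        obtain ⟨t, ht⟩ := h
        exact ⟨t, (e2 t).mp ht⟩
      rw [dif_pos h, dif_pos h']
      have h3 : Nat.find h = Nat.find h' := by
        rw [Nat.find_eq_iff]
        refine ⟨(e2 _).mpr (Nat.find_spec h'), ?_⟩
        intro n hn h3
        exact Nat.find_min h' hn ((e2 n).mp h3)
      rw [h3]
      congr 1
      exact decide_eq_decide.mpr (e φ _ (Nat.find_spec h').1)
    · have h' : ¬ ∃ t, t ≤ s ∧ (wit i φ L f' z' t w ∨ wit i ψ L f' z' t w) := by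
        rintro ⟨t, ht⟩
        exact h ⟨t, (e2 t).mpr ht⟩
      rw [dif_neg h, dif_neg h']

/-- An enumeration of a family of functionals closed under the operations. -/
structure Enum where
  /-- the enumeration -/
  F : ℕ → Fn
  col : ∃ j, F j = colFn
  z : ∃ j, F j = zFn
  msk : ∀ j, ∃ k, F k = maskFn (F j)
  edge : ∀ j, ∃ k, F k = edgeFn (F j)
  cnt : ∀ j, ∃ k, F k = cntFn (F j)
  dl : ∀ i φ ψ (L : List ℕ), ∃ k, F k = dlFn i φ ψ (L.map F)

end Pool.Agent.SepRT
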