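import Pool.Agent.Lib.MP_26a456_lc.Opp

/-!
# The model: an initial segment of an ultrapower
-/

open Classical Filter

namespace Pool.Agent.SepRT

/-- the ultrafilter on the set of worlds -/
noncomputable abbrev UF : Ultrafilter ℕ := Filter.hyperfilter ℕ

/-- `AE p`: the property `p i` holds for almost all worlds `i` -/
def AE (p : ℕ → Prop) : Prop := ∀ᶠ i in (UF : Filter ℕ), p i

theorem AE.mono {p q : ℕ → Prop} (h : AE p) (hpq : ∀ i, p i → q i) : AE q :=
  Filter.Eventually.mono h hpq

theorem AE.and {p q : ℕ → Prop} (hp : AE p) (hq : AE q) : AE (fun i => p i ∧ q i) :=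
  Filter.Eventually.and hp hq

theorem AE.of_forall {p : ℕ → Prop} (h : ∀ i, p i) : AE p := Filter.Eventually.of_forall h

theorem ae_not {p : ℕ → Prop} : AE (fun i => ¬ p i) ↔ ¬ AE p := Ultrafilter.eventually_not

theorem ae_or {p q : ℕ → Prop} : AE (fun i => p i ∨ q i) ↔ AE p ∨ AE q :=
  Ultrafilter.eventually_or

theorem ae_and {p q : ℕ → Prop} : AE (fun i => p i ∧ q i) ↔ AE p ∧ AE q :=
  Filter.eventually_and

theorem ae_imp {p q : ℕ → Prop} : AE (fun i => p i → q i) ↔ (AE p → AE q) :=
  Ultrafilter.eventually_imp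

theorem ae_ge (m : ℕ) : AE (fun i => m ≤ i) := by
  have h : ∀ᶠ i in (Filter.cofinite : Filter ℕ), m ≤ i := by
    rw [Nat.cofinite_eq_atTop]
    exact Filter.eventually_ge_atTop m
  exact Filter.hyperfilter_le_cofinite h

theorem ae_exists {p : ℕ → Prop} (h : AE p) : ∃ i, p i := Filter.Eventually.exists h

theorem ae_forall_lt {p : ℕ → ℕ → Prop} (N : ℕ) (h : ∀ n, n < N → AE (p n)) :
    AE (fun i => ∀ n, n < N → p n i) := by
  induction N with
  | zero => exact AE.of_forall (fun i n hn => absurd hn (Nat.not_lt_zero n))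
  | succ N ih =>
    refine ((ih (fun n hn => h n (by omega))).and (h N (by omega))).mono ?_
    intro i hi n hn
    rcases Nat.lt_or_ge n N with h1 | h1
    · exact hi.1 n h1
    · rw [show n = N by omega]; exact hi.2

/-- The growth conditions used in the model. -/
structure Growth (G : ℕ → ℕ) : Prop where
  mono : Monotone G
  sq : ∀ n, (n + 3) ^ 2 ≤ G n
  pow : ∀ n, 2 ^ n ≤ G n
  code : ∀ l, ∃ a b, a ≤ G l ∧ b ≤ G l ∧ ∀ j, j ≤ l → a % (b * (j + 1) + 1) = 2 ^ j

/-- A family of worlds. -/
structure Fam where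
  /-- the enumerated functionals -/
  E : Enum
  /-- the growth function -/
  G : ℕ → ℕ
  growth : Growth G
  /-- the worlds -/
  W : ∀ i, WData E G i

variable (A : Fam)

/-- bounded sequences -/
def Bd (x : ℕ → ℕ) : Prop := ∃ m, AE (fun i => x i ≤ (A.W i).T m)

variable {A}

theorem Bd.of_le {x y : ℕ → ℕ} (h : Bd A y) (hxy : AE (fun i => x i ≤ y i)) : Bd A x := by
  obtain ⟨m, hm⟩ := h
  exact ⟨m, (hm.and hxy).mono (fun i hi => hi.2.trans hi.1)⟩

variable (A) in
theorem T_G (m : ℕ) : AE (fun i => A.G ((A.W i).T m) ≤ (A.W i).T (m + 1)) :=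
  (ae_ge (m + 1)).mono (fun i hi => ((A.W i).TG m (by omega)).1)

variable (A) in
theorem T_lt (m : ℕ) : AE (fun i => (A.W i).T m < (A.W i).T (m + 1)) :=
  (ae_ge (m + 1)).mono (fun i hi => ((A.W i).TG m (by omega)).2)

variable (A) in
theorem T_le {m n : ℕ} (h : m ≤ n) : AE (fun i => (A.W i).T m ≤ (A.W i).T n) := by
  induction n with
  | zero =>
    rw [Nat.le_zero.mp h]
    exact AE.of_forall (fun i => le_rfl)
  | succ n ih =>
    rcases Nat.lt_or_ge m (n + 1) with h1 | h1
    · exact ((ih (by omega)).and (T_lt A n)).mono (fun i hi => by omega)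
    · rw [le_antisymm h h1]
      exact AE.of_forall (fun i => le_rfl)

/-- bounded sequences are closed under `G` -/
theorem Bd.G {x : ℕ → ℕ} (h : Bd A x) : Bd A (fun i => A.G (x i)) := by
  obtain ⟨m, hm⟩ := h
  refine ⟨m + 1, (hm.and (T_G A m)).mono (fun i hi => ?_)⟩
  exact (A.growth.mono hi.1).trans hi.2

theorem Bd.max {x y : ℕ → ℕ} (hx : Bd A x) (hy : Bd A y) : Bd A (fun i => max (x i) (y i)) := by
  obtain ⟨m, hm⟩ := hx
  obtain ⟨n, hn⟩ := hy
  refine ⟨Max.max m n, ?_⟩
  refine ((hm.and hn).and ((T_le A (le_max_left m n)).and (T_le A (le_max_right m n)))).mono ?_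
  intro i hi
  exact max_le (hi.1.1.trans hi.2.1) (hi.1.2.trans hi.2.2)

/-- bounded sequences are closed under all functions below `G (max ..)` -/
theorem Bd.map₂ {x y : ℕ → ℕ} (hx : Bd A x) (hy : Bd A y) (g : ℕ → ℕ → ℕ)
    (hg : ∀ a b, g a b ≤ A.G (Max.max a b)) : Bd A (fun i => g (x i) (y i)) :=
  (hx.max hy).G.of_le (AE.of_forall (fun _ => hg _ _))

theorem Bd.add {x y : ℕ → ℕ} (hx : Bd A x) (hy : Bd A y) : Bd A (fun i => x i + y i) := by
  apply hx.map₂ hy (fun a b => a + b)
  intro a b
  refine le_trans ?_ (A.growth.sq _)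
  have h1 := le_max_left a b
  have h2 := le_max_right a b
  nlinarith

theorem Bd.mul {x y : ℕ → ℕ} (hx : Bd A x) (hy : Bd A y) : Bd A (fun i => x i * y i) := by
  apply hx.map₂ hy (fun a b => a * b)
  intro a b
  refine le_trans ?_ (A.growth.sq _)
  have h1 := le_max_left a b
  have h2 := le_max_right a b
  nlinarith [Nat.mul_le_mul h1 h2]

theorem Bd.pair {x y : ℕ → ℕ} (hx : Bd A x) (hy : Bd A y) :
    Bd A (fun i => Nat.pair (x i) (y i)) := by
  apply hx.map₂ hy (fun a b => Nat.pair a b)
  intro a b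
  refine le_trans ?_ (A.growth.sq _)
  have h := Nat.pair_lt_max_add_one_sq a b
  have h2 : (Max.max a b + 1) ^ 2 ≤ (Max.max a b + 3) ^ 2 := Nat.pow_le_pow_left (by omega) 2
  omega

theorem Bd.const (c : ℕ) : Bd A (fun _ => c) :=
  ⟨0, (ae_ge c).mono (fun i hi => by have := (A.W i).T0; show c ≤ _; omega)⟩

theorem Bd.two_pow {x : ℕ → ℕ} (hx : Bd A x) : Bd A (fun i => 2 ^ x i) :=
  hx.G.of_le (AE.of_forall (fun _ => A.growth.pow _))

variable (A)

/-- almost everywhere equality of bounded sequences -/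
def stp : Setoid {x : ℕ → ℕ // Bd A x} where
  r x y := AE (fun i => x.1 i = y.1 i)
  iseqv := ⟨fun _ => AE.of_forall (fun _ => rfl),
    fun h => h.mono (fun _ hi => hi.symm),
    fun h1 h2 => (h1.and h2).mono (fun _ hi => hi.1.trans hi.2)⟩

/-- the numbers of the model -/
def MM : Type := Quotient (stp A)

variable {A}

/-- the number given by a bounded sequence -/
def mk (x : ℕ → ℕ) (h : Bd A x) : MM A := Quotient.mk (stp A) ⟨x, h⟩

/-- a representing sequence -/
noncomputable def rep (a : MM A) : ℕ → ℕ := (Quotient.out a).1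

theorem rep_bd (a : MM A) : Bd A (rep a) := (Quotient.out a).2

theorem rep_mk (x : ℕ → ℕ) (h : Bd A x) : AE (fun i => rep (mk x h) i = x i) :=
  Quotient.exact (Quotient.out_eq (mk x h))

theorem mm_ext {a b : MM A} (h : AE (fun i => rep a i = rep b i)) : a = b := by
  rw [← Quotient.out_eq a, ← Quotient.out_eq b]
  exact Quotient.sound h

theorem mm_eq_iff {a b : MM A} : a = b ↔ AE (fun i => rep a i = rep b i) :=
  ⟨fun h => by rw [h]; exact AE.of_forall (fun _ => rfl), mm_ext⟩

variable (A)

/-- `X` is computed by some functional with masked oracle and parameter -/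
def InS (X : Set (MM A)) : Prop :=
  ∃ (j : ℕ) (n a : MM A), ∀ x : MM A, ∃ s : MM A, AE (fun i =>
    (A.E.F j).run (A.W i).f (mask (rep n i) (A.W i).z) (rep s i)
      (Nat.pair (rep x i) (rep a i)) = some (decide (x ∈ X)))

/-- The model. -/
noncomputable def Mod : L2 where
  M := MM A
  zero := mk (fun _ => 0) (Bd.const 0)
  one := mk (fun _ => 1) (Bd.const 1)
  add a b := mk (fun i => rep a i + rep b i) ((rep_bd a).add (rep_bd b))
  mul a b := mk (fun i => rep a i * rep b i) ((rep_bd a).mul (rep_bd b))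
  lt a b := AE (fun i => rep a i < rep b i)
  S := {X | InS A X}

variable {A}

theorem rep_zero : AE (fun i => rep (A := A) (Mod A).zero i = 0) := rep_mk _ _

theorem rep_one : AE (fun i => rep (A := A) (Mod A).one i = 1) := rep_mk _ _

theorem rep_add (a b : MM A) :
    AE (fun i => rep (A := A) ((Mod A).add a b) i = rep a i + rep b i) := rep_mk _ _

theorem rep_mul (a b : MM A) :
    AE (fun i => rep (A := A) ((Mod A).mul a b) i = rep a i * rep b i) := rep_mk _ _

theorem lt_iff (a b : MM A) : (Mod A).lt a b ↔ AE (fun i => rep a i < rep b i) := Iff.rfl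

/-- the stages of the model are below the final stages -/
theorem rep_le_Q (a : MM A) : AE (fun i => rep a i ≤ (A.W i).Q) := by
  obtain ⟨m, hm⟩ := rep_bd a
  exact (hm.and (ae_ge m)).mono (fun i hi => hi.1.trans ((A.W i).TQ m hi.2))

/-- elements below an element of the model are in the model -/
theorem exists_rep {x : ℕ → ℕ} (a : MM A) (h : AE (fun i => x i ≤ rep a i)) :
    ∃ c : MM A, AE (fun i => rep c i = x i) :=
  ⟨mk x ((rep_bd a).of_le h), rep_mk _ _⟩

/-- pairing in the model -/
noncomputable def mpair (a b : MM A) : MM A :=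
  mk (fun i => Nat.pair (rep a i) (rep b i)) ((rep_bd a).pair (rep_bd b))

theorem rep_mpair (a b : MM A) :
    AE (fun i => rep (mpair a b) i = Nat.pair (rep a i) (rep b i)) := rep_mk _ _

/-- standard numbers -/
noncomputable def std (c : ℕ) : MM A := mk (fun _ => c) (Bd.const c)

theorem rep_std (c : ℕ) : AE (fun i => rep (std (A := A) c) i = c) := rep_mk _ _

/-- **Halting lemma**: a functional with masked oracle that halts by the final stage on an element
of the model halts at a stage in the model. -/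
theorem halt_lemma (j : ℕ) (n x : MM A)
    (h : AE (fun i => (A.E.F j).run (A.W i).f (mask (rep n i) (A.W i).z) (A.W i).Q (rep x i) ≠
      none)) :
    ∃ s : MM A, AE (fun i =>
      (A.E.F j).run (A.W i).f (mask (rep n i) (A.W i).z) (rep s i) (rep x i) ≠ none) := by
  obtain ⟨k, hk⟩ := A.E.msk j
  set e : MM A := mpair (std k) (mpair n x) with he
  have hrep : AE (fun i => rep e i = Nat.pair k (Nat.pair (rep n i) (rep x i))) := by
    refine ((rep_mpair (std k) (mpair n x)).and ((rep_std (A := A) k).and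
      (rep_mpair n x))).mono ?_
    intro i hi
    rw [he, hi.1, hi.2.1, hi.2.2]
  obtain ⟨m, hm⟩ := rep_bd e
  have hT : Bd A (fun i => (A.W i).T (m + 2)) := ⟨m + 2, AE.of_forall (fun i => le_rfl)⟩
  refine ⟨mk _ hT, ?_⟩
  refine ((h.and hrep).and ((hm.and (ae_ge (m + 3))).and ((T_lt A m).and
    (rep_mk _ hT)))).mono ?_
  intro i hi
  obtain ⟨⟨h1, h2⟩, ⟨h3, h4⟩, h5, h6⟩ := hi
  rw [h6]
  have h7 := (A.W i).halt (m + 1) (by omega) (rep e i) (by omega)
  have h8 : ∀ s, halts A.E.F (rep e i) s (A.W i).f (A.W i).z ↔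
      (A.E.F j).run (A.W i).f (mask (rep n i) (A.W i).z) s (rep x i) ≠ none := by
    intro s
    unfold halts
    rw [h2]
    simp only [Nat.unpair_pair, hk, maskFn]
  rw [h8, h8] at h7
  exact h7 h1

/-- the values of an assignment in world `i` -/
noncomputable def repv (v : ℕ → MM A) (i : ℕ) : ℕ → ℕ := fun n => rep (v n) i

/-- `SetCode V L b n`: the sets `V j` are computed by the functionals with indices in the list
`L`, with masks and parameters coded by `b`, the oracle being masked by `n` beforehand. -/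
def SetCode (V : ℕ → Set (MM A)) (L : List ℕ) (b n : MM A) : Prop :=
  ∀ (j : ℕ) (x : MM A), ∃ s : MM A, AE (fun i =>
    qry (L.map A.E.F) (A.W i).f (mask (rep n i) (A.W i).z) (rep b i) (rep s i) j (rep x i) =
      some (decide (x ∈ V j)))

end Pool.Agent.SepRT
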