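import Pool.Agent.Lib.MP_26a456_lc.Model

/-!
# Failure of `coRT^2_2(2130)` in the model
-/

open Classical Filter

namespace Pool.Agent.SepRT

variable {A : Fam}

namespace NotCoRT

/-- the halting lemma without mask -/
theorem halt_lemma' (j : ℕ) (x : MM A)
    (h : AE (fun i => (A.E.F j).run (A.W i).f (A.W i).z (A.W i).Q (rep x i) ≠ none)) :
    ∃ s : MM A, AE (fun i => (A.E.F j).run (A.W i).f (A.W i).z (rep s i) (rep x i) ≠ none) := by
  set e : MM A := mpair (std j) x with he
  have hrep : AE (fun i => rep e i = Nat.pair j (rep x i)) := by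
    refine ((rep_mpair (std j) x).and (rep_std (A := A) j)).mono ?_
    intro i hi
    rw [he, hi.1, hi.2]
  obtain ⟨m, hm⟩ := rep_bd e
  have hT : Bd A (fun i => (A.W i).T (m + 2)) := ⟨m + 2, AE.of_forall (fun i => le_rfl)⟩
  refine ⟨mk _ hT, ?_⟩
  refine ((h.and hrep).and ((hm.and (ae_ge (m + 3))).and ((T_lt A m).and
    (rep_mk _ hT)))).mono ?_
  intro i hi
  obtain ⟨⟨h1, h2⟩, ⟨h3, h4⟩, h5, h6⟩ := hi
  rw [h6]
  have h7 := (A.W i).halt (m + 1) (by omega) (rep e i) (by omega)
  have h8 : ∀ s, halts A.E.F (rep e i) s (A.W i).f (A.W i).z ↔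
      (A.E.F j).run (A.W i).f (A.W i).z s (rep x i) ≠ none := by
    intro s
    unfold halts
    rw [h2]
    simp only [Nat.unpair_pair]
  rw [h8, h8] at h7
  exact h7 h1

/-- the pairing is injective -/
theorem pairing_inj {x y x' y' : ℕ} (h : (x + y) * (x + y) + x = (x' + y') * (x' + y') + x') :
    x = x' ∧ y = y' := by
  have key : ∀ a b c d : ℕ, a ≤ b → c ≤ d → b * b + a = d * d + c → b ≤ d := by
    intro a b c d hab hcd he
    by_contra hlt
    push Not at hlt
    have : (d + 1) * (d + 1) ≤ b * b := Nat.mul_le_mul hlt hlt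
    nlinarith
  have h1 := key x (x + y) x' (x' + y') (by omega) (by omega) h
  have h2 := key x' (x' + y') x (x + y) (by omega) (by omega) h.symm
  have h3 : x + y = x' + y' := le_antisymm h1 h2
  rw [h3] at h
  omega

/-- the colouring of the model -/
def FF (A : Fam) : Set (MM A) := {w | AE (fun i => ∃ x y, x < y ∧
  (x + y) * (x + y) + x = rep w i ∧ (A.W i).f x y = true)}

theorem decide_ae (p : ℕ → Prop) : AE (fun i => decide (p i) = decide (AE p)) := by
  by_cases h : AE p
  · refine AE.mono (p := p) h (fun i hi => ?_)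
    rw [decide_eq_true hi, decide_eq_true h]
  · refine AE.mono (ae_not.mpr h) (fun i hi => ?_)
    rw [decide_eq_false hi, decide_eq_false h]

theorem FF_mem : FF A ∈ (Mod A).S := by
  obtain ⟨j, hj⟩ := A.E.col
  refine ⟨j, std 0, std 0, fun x => ⟨(Mod A).add x (Mod A).one, ?_⟩⟩
  refine ((rep_add x (Mod A).one).and ((rep_one (A := A)).and (decide_ae (fun i => ∃ x' y, x' < y ∧
    (x' + y) * (x' + y) + x' = rep x i ∧ (A.W i).f x' y = true)))).mono ?_
  intro i hi
  obtain ⟨h1, h2, h3⟩ := hi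
  rw [hj]
  simp only [colFn, Nat.unpair_pair]
  rw [if_pos (by rw [h1, h2]; omega), h3]
  rfl

theorem rep_pr (x y : MM A) : AE (fun i => rep (A := A) (pr (Mod A) x y) i =
    (rep x i + rep y i) * (rep x i + rep y i) + rep x i) := by
  unfold pr
  refine ((rep_add (A := A) ((Mod A).mul ((Mod A).add x y) ((Mod A).add x y)) x).and
    ((rep_mul (A := A) ((Mod A).add x y) ((Mod A).add x y)).and (rep_add x y))).mono ?_
  intro i hi
  rw [hi.1, hi.2.1, hi.2.2]

theorem pr_mem (x y : MM A) (hxy : (Mod A).lt x y) :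
    pr (Mod A) x y ∈ FF A ↔ AE (fun i => (A.W i).f (rep x i) (rep y i) = true) := by
  constructor
  · intro h
    refine (AE.and (p := fun i => ∃ x' y', x' < y' ∧
      (x' + y') * (x' + y') + x' = rep (A := A) (pr (Mod A) x y) i ∧ (A.W i).f x' y' = true)
      h (rep_pr x y)).mono ?_
    rintro i ⟨⟨x', y', h1, h2, h3⟩, h4⟩
    rw [h4] at h2
    obtain ⟨h5, h6⟩ := pairing_inj h2
    rw [← h5, ← h6]; exact h3
  · intro h
    refine ((AE.and (p := fun i => rep x i < rep y i) hxy h).and (rep_pr x y)).mono ?_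
    rintro i ⟨⟨h1, h2⟩, h3⟩
    exact ⟨rep x i, rep y i, h1, h3.symm, h2⟩

/-- the colouring avoids the pattern -/
theorem avoids : Avoids (Mod A) (FF A) [2, 1, 3, 0] := by
  rintro ⟨x, hx, hp⟩
  have hlt : ∀ i j : Fin 4, i < j → (Mod A).lt (x i) (x j) := hx
  have hpr : ∀ i j : Fin 4, i < j → (pr (Mod A) (x i) (x j) ∈ FF A ↔
      ([2, 1, 3, 0] : List ℕ).get j < ([2, 1, 3, 0] : List ℕ).get i) := hp
  have e01 := (pr_mem _ _ (hlt 0 1 (by decide))).mp ((hpr 0 1 (by decide)).mpr (by decide))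
  have e03 := (pr_mem _ _ (hlt 0 3 (by decide))).mp ((hpr 0 3 (by decide)).mpr (by decide))
  have e13 := (pr_mem _ _ (hlt 1 3 (by decide))).mp ((hpr 1 3 (by decide)).mpr (by decide))
  have e23 := (pr_mem _ _ (hlt 2 3 (by decide))).mp ((hpr 2 3 (by decide)).mpr (by decide))
  have n02 : ¬ AE (fun i => (A.W i).f (rep (x 0) i) (rep (x 2) i) = true) := by
    rw [← pr_mem _ _ (hlt 0 2 (by decide)), hpr 0 2 (by decide)]
    decide
  have l01 : AE (fun i => rep (x 0) i < rep (x 1) i) := hlt 0 1 (by decide)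
  have l12 : AE (fun i => rep (x 1) i < rep (x 2) i) := hlt 1 2 (by decide)
  have l23 : AE (fun i => rep (x 2) i < rep (x 3) i) := hlt 2 3 (by decide)
  apply n02
  refine (((l01.and l12).and l23).and ((e01.and e03).and (e13.and e23))).mono ?_
  rintro i ⟨⟨⟨h01, h12⟩, h23⟩, ⟨f01, f03⟩, f13, f23⟩
  obtain ⟨r, -, hr⟩ := (A.W i).shape (rep (x 3) i)
  have r01 := hr _ _ h01 (h12.trans h23) f03 f13
  have r12 := hr _ _ h12 h23 f13 f23
  have r02 := hr _ _ (h01.trans h12) h23 f03 f23
  exact r02.2.mpr (lt_of_lt_of_le (r01.2.mp f01) r12.1)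

/-- the functional that removes the mask -/
theorem unmask (jH : ℕ) : ∃ j, ∀ (f : Col) (z : Orc) (s x n a : ℕ), 1 ≤ s →
    (A.E.F j).run f z s (Nat.pair x (Nat.pair 0 (Nat.pair n (Nat.pair a 0)))) =
      (A.E.F jH).run f (mask n z) s (Nat.pair x a) := by
  obtain ⟨j, hj⟩ := A.E.dl 1 (.mem (.var 0) 0) (.neg (.mem (.var 0) 0)) [jH]
  refine ⟨j, ?_⟩
  intro f z s x n a hs
  rw [hj]
  set w := Nat.pair x (Nat.pair 0 (Nat.pair n (Nat.pair a 0))) with hw
  have hu1 : (Nat.unpair w).1 = x := by rw [hw]; simp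
  have hu2 : (Nat.unpair (Nat.unpair w).2).1 = 0 := by rw [hw]; simp
  have hu3 : (Nat.unpair (Nat.unpair w).2).2 = Nat.pair n (Nat.pair a 0) := by rw [hw]; simp
  have hq : ∀ t, qry ([jH].map A.E.F) f z (Nat.pair n (Nat.pair a 0)) t 0 x =
      (A.E.F jH).run f (mask n z) t (Nat.pair x a) := by
    intro t
    simp [qry, dec]
  have hup : ∀ y, Function.update (dec (Nat.pair x 0)) 1 y 0 = x := by
    intro y
    rw [Function.update_of_ne (by norm_num)]
    simp [dec]
  have hw1 : ∀ t, wit 1 (.mem (.var 0) 0) ([jH].map A.E.F) f z t w ↔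
      1 ≤ t ∧ (A.E.F jH).run f (mask n z) t (Nat.pair x a) = some true := by
    intro t
    unfold wit
    rw [hu1, hu2, hu3]
    simp only [Fm.dsat, Tm.nval, hup, hq]
    constructor
    · rintro ⟨y, hy, h1⟩
      exact ⟨by omega, h1⟩
    · rintro ⟨h1, h2⟩
      exact ⟨0, by omega, h2⟩
  have hw2 : ∀ t, wit 1 (.neg (.mem (.var 0) 0)) ([jH].map A.E.F) f z t w ↔
      1 ≤ t ∧ (A.E.F jH).run f (mask n z) t (Nat.pair x a) = some false := by
    intro t
    unfold wit
    rw [hu1, hu2, hu3]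
    simp only [Fm.dsat, Tm.nval, hup, hq]
    constructor
    · rintro ⟨y, hy, h1⟩
      refine ⟨by omega, ?_⟩
      cases hr : (A.E.F jH).run f (mask n z) t (Nat.pair x a) with
      | none => rw [hr] at h1; simp at h1
      | some b => rw [hr] at h1; simpa using h1
    · rintro ⟨h1, h2⟩
      exact ⟨0, by omega, by rw [h2]; rfl⟩
  have hrun : (dlFn 1 (.mem (.var 0) 0) (.neg (.mem (.var 0) 0)) ([jH].map A.E.F)).run f z s w =
      (if h : ∃ t, t ≤ s ∧ (wit 1 (.mem (.var 0) 0) ([jH].map A.E.F) f z t w ∨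
      wit 1 (.neg (.mem (.var 0) 0)) ([jH].map A.E.F) f z t w) then
      some (decide (wit 1 (.mem (.var 0) 0) ([jH].map A.E.F) f z (Nat.find h) w)) else none) := rfl
  rw [hrun]
  clear hrun
  generalize wit 1 (.mem (.var 0) 0) ([jH].map A.E.F) f z = W1 at hw1 ⊢
  generalize wit 1 (.neg (.mem (.var 0) 0)) ([jH].map A.E.F) f z = W2 at hw2 ⊢
  by_cases h : ∃ t, t ≤ s ∧ (W1 t w ∨ W2 t w)
  · rw [dif_pos h]
    have h12 := Nat.find_spec h
    generalize Nat.find h = t0 at h12 ⊢
    obtain ⟨h1, h2⟩ := h12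
    rw [hw1, hw2] at h2
    rcases h2 with h2 | h2
    · rw [Fn.mono _ _ _ _ _ _ _ h1 h2.2, decide_eq_true ((hw1 t0).mpr h2)]
    · rw [Fn.mono _ _ _ _ _ _ _ h1 h2.2]
      have h3 : ¬ W1 t0 w := by
        rw [hw1, h2.2]
        simp
      rw [decide_eq_false h3]
  · rw [dif_neg h]
    cases hr : (A.E.F jH).run f (mask n z) s (Nat.pair x a) with
    | none => rfl
    | some b =>
      exfalso
      apply h
      refine ⟨s, le_rfl, ?_⟩
      rw [hw1, hw2]
      cases b with
      | true => exact Or.inl ⟨hs, hr⟩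
      | false => exact Or.inr ⟨hs, hr⟩

/-- sets in the model are computed without mask -/
theorem exists_unmasked {H : Set (MM A)} (hH : InS A H) : ∃ (j : ℕ) (a : MM A), ∀ x : MM A,
    ∃ s : MM A, AE (fun i => (A.E.F j).run (A.W i).f (A.W i).z (rep s i)
      (Nat.pair (rep x i) (rep a i)) = some (decide (x ∈ H))) := by
  obtain ⟨jH, nH, aH, h⟩ := hH
  obtain ⟨j, hj⟩ := unmask (A := A) jH
  refine ⟨j, mpair (std 0) (mpair nH (mpair aH (std 0))), fun x => ?_⟩
  obtain ⟨s, hs⟩ := h x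
  refine ⟨(Mod A).add s (Mod A).one, ?_⟩
  refine ((hs.and ((rep_add s (Mod A).one).and (rep_one (A := A)))).and
    (((rep_mpair (std 0) (mpair nH (mpair aH (std 0)))).and (rep_std (A := A) 0)).and
      ((rep_mpair nH (mpair aH (std 0))).and (rep_mpair aH (std 0))))).mono ?_
  rintro i ⟨⟨h1, h2, h3⟩, ⟨h4, h5⟩, h6, h7⟩
  rw [h4, h5, h6, h7, h5, h2, h3, hj _ _ _ _ _ _ (by omega)]
  exact Fn.mono _ _ _ _ _ _ _ (by omega) h1

/-- the slowest element -/
theorem slowest (F : Fn) (f : Col) (z : Orc) (a : ℕ) : ∀ B : ℕ, ∃ x, x ≤ B ∧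
    ∀ t, F.run f z t (Nat.pair x a) ≠ none → ∀ x', x' ≤ B → F.run f z t (Nat.pair x' a) ≠ none := by
  intro B
  induction B with
  | zero =>
    refine ⟨0, le_rfl, ?_⟩
    intro t ht x' hx'
    rw [Nat.le_zero.mp hx']; exact ht
  | succ B ih =>
    obtain ⟨x, hx, h⟩ := ih
    by_cases hc : ∀ t, F.run f z t (Nat.pair x a) ≠ none → F.run f z t (Nat.pair (B + 1) a) ≠ none
    · refine ⟨x, by omega, ?_⟩
      intro t ht x' hx'
      rcases Nat.lt_or_ge x' (B + 1) with h1 | h1
      · exact h t ht x' (by omega)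
      · rw [le_antisymm hx' h1]; exact hc t ht
    · push Not at hc
      obtain ⟨t0, h1, h2⟩ := hc
      refine ⟨B + 1, le_rfl, ?_⟩
      intro t ht x' hx'
      have htt : t0 ≤ t := by
        by_contra hlt
        push Not at hlt
        apply ht
        obtain ⟨b, hb⟩ := Option.ne_none_iff_exists'.mp ht
        rw [F.mono _ _ _ _ _ _ hlt.le hb] at h2
        exact absurd h2 (by simp)
      rcases Nat.lt_or_ge x' (B + 1) with h3 | h3
      · refine h t ?_ x' (by omega)
        rw [F.mono_ne htt h1]; exact h1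
      · rw [le_antisymm hx' h3]; exact ht

/-- the data of a set of the model, without mask -/
structure Code (H : Set (MM A)) (j : ℕ) (a : MM A) : Prop where
  dec : ∀ x : MM A, ∃ s : MM A, AE (fun i => (A.E.F j).run (A.W i).f (A.W i).z (rep s i)
      (Nat.pair (rep x i) (rep a i)) = some (decide (x ∈ H)))

/-- `s` decides everything up to `B` -/
theorem upto {H : Set (MM A)} {j : ℕ} {a : MM A} (h : Code H j a) (B : MM A) :
    ∃ s : MM A, AE (fun i => ∀ x, x ≤ rep B i → (A.E.F j).run (A.W i).f (A.W i).z (rep s i)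
      (Nat.pair x (rep a i)) ≠ none) := by
  choose x hx hx' using fun i => slowest (A.E.F j) (A.W i).f (A.W i).z (rep a i) (rep B i)
  obtain ⟨c, hc⟩ := exists_rep B (AE.of_forall hx)
  obtain ⟨s, hs⟩ := h.dec c
  refine ⟨s, (hc.and hs).mono ?_⟩
  rintro i ⟨h1, h2⟩
  rw [h1] at h2
  exact hx' i (rep s i) (by rw [h2]; simp)

/-- elements found at a stage of the model are in the set -/
theorem mem_of_run {H : Set (MM A)} {j : ℕ} {a : MM A} (h : Code H j a) (x s : MM A)
    (hs : AE (fun i => (A.E.F j).run (A.W i).f (A.W i).z (rep s i)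
      (Nat.pair (rep x i) (rep a i)) = some true)) : x ∈ H := by
  obtain ⟨s', hs'⟩ := h.dec x
  obtain ⟨i, h1, h2⟩ := ae_exists (hs.and hs')
  by_contra hx
  rw [decide_eq_false hx] at h2
  have h3 := (A.E.F j).mono _ _ _ _ _ _ (le_max_left (rep s i) (rep s' i)) h1
  have h4 := (A.E.F j).mono _ _ _ _ _ _ (le_max_right (rep s i) (rep s' i)) h2
  rw [h3] at h4
  exact absurd h4 (by simp)

theorem two_le_Q : ∀ i, 2 ≤ (A.W i).Q := fun i => by
  have h1 := (A.W i).T0
  have h2 := (A.W i).TQ 0 (Nat.zero_le i)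
  omega

/-- counting: an unbounded set of the model has at least `c` elements, for every `c` in the
model, at a stage in the model -/
theorem count_lemma {H : Set (MM A)} {j : ℕ} {a : MM A} (h : Code H j a)
    (hinf : ∀ x, ∃ y ∈ H, (Mod A).lt x y) (k : ℕ) (hk : A.E.F k = cntFn (A.E.F j)) (c : MM A) :
    ∃ s : MM A, AE (fun i => (A.E.F k).run (A.W i).f (A.W i).z (rep s i)
      (Nat.pair (rep c i) (rep a i)) ≠ none) := by
  have halt : ∀ c : MM A, AE (fun i => (A.E.F k).run (A.W i).f (A.W i).z (A.W i).Q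
      (Nat.pair (rep c i) (rep a i)) ≠ none) → ∃ s : MM A, AE (fun i =>
      (A.E.F k).run (A.W i).f (A.W i).z (rep s i) (Nat.pair (rep c i) (rep a i)) ≠ none) := by
    intro c hc
    obtain ⟨s, hs⟩ := halt_lemma' k (mpair c a) ((hc.and (rep_mpair c a)).mono
      (fun i hi => by rw [hi.2]; exact hi.1))
    exact ⟨s, (hs.and (rep_mpair c a)).mono (fun i hi => by rw [← hi.2]; exact hi.1)⟩
  apply halt
  by_contra hno
  rw [← ae_not] at hno
  -- the least counterexample
  set P : ℕ → ℕ → Prop := fun i c' => (A.E.F k).run (A.W i).f (A.W i).z (A.W i).Q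
      (Nat.pair c' (rep a i)) = none with hP
  have hex : ∀ i, ∃ c' : ℕ, (P i (rep c i) → P i c' ∧ ∀ c'' < c', ¬ P i c'') ∧ c' ≤ rep c i := by
    intro i
    by_cases hp : P i (rep c i)
    · refine ⟨Nat.find (⟨rep c i, hp⟩ : ∃ c', P i c'), ?_, Nat.find_le hp⟩
      intro _
      exact ⟨Nat.find_spec (⟨rep c i, hp⟩ : ∃ c', P i c'),
        fun c'' hc'' => Nat.find_min (⟨rep c i, hp⟩ : ∃ c', P i c') hc''⟩
    · exact ⟨0, fun h => absurd h hp, Nat.zero_le _⟩
  choose c' hc' hcle using hex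
  have hno' : AE (fun i => P i (rep c i)) := hno.mono (fun i hi => by
    simp only [not_not] at hi; exact hi)
  have hPc' : AE (fun i => P i (c' i) ∧ ∀ c'' < c' i, ¬ P i c'') :=
    hno'.mono (fun i hi => hc' i hi)
  have hpos : ∀ i, ¬ P i 0 := by
    intro i hi
    simp only [hP, hk] at hi
    have h2 := two_le_Q (A := A) i
    revert hi
    simp only [cntFn, Nat.unpair_pair]
    rw [if_pos ⟨0, by omega, by simp, by simp⟩]
    simp
  obtain ⟨d, hd⟩ := exists_rep (x := fun i => c' i - 1) c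
    (AE.of_forall (fun i => (Nat.sub_le _ _).trans (hcle i)))
  have hdc : AE (fun i => c' i = rep d i + 1 ∧ ¬ P i (rep d i) ∧ P i (rep d i + 1)) := by
    refine (hPc'.and hd).mono ?_
    rintro i ⟨⟨h1, h2⟩, h3⟩
    have h4 : c' i ≠ 0 := by
      intro h0
      rw [h0] at h1
      exact hpos i h1
    have h5 : c' i = rep d i + 1 := by omega
    exact ⟨h5, h2 _ (by omega), by rw [← h5]; exact h1⟩
  obtain ⟨s, hs⟩ := halt d (hdc.mono (fun i hi => hi.2.1))
  -- the initial segment
  have hm : ∀ i, ∃ m : ℕ, m ≤ rep s i ∧ ((A.E.F k).run (A.W i).f (A.W i).z (rep s i)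
      (Nat.pair (rep d i) (rep a i)) ≠ none → (∀ x, x < m → (A.E.F j).run (A.W i).f (A.W i).z
        (rep s i) (Nat.pair x (rep a i)) ≠ none) ∧ rep d i ≤ ((Finset.range m).filter
        (fun x => (A.E.F j).run (A.W i).f (A.W i).z (rep s i) (Nat.pair x (rep a i)) =
          some true)).card) := by
    intro i
    by_cases hr : (A.E.F k).run (A.W i).f (A.W i).z (rep s i)
      (Nat.pair (rep d i) (rep a i)) ≠ none
    · have hr' := hr
      rw [hk] at hr'
      simp only [cntFn, Nat.unpair_pair] at hr'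
      split at hr'
      · rename_i h1
        obtain ⟨m, h2, h3, h4⟩ := h1
        exact ⟨m, h2.le, fun _ => ⟨h3, h4⟩⟩
      · exact absurd rfl hr'
    · exact ⟨0, Nat.zero_le _, fun h => absurd h hr⟩
  choose m hms hm' using hm
  obtain ⟨mm, hmm⟩ := exists_rep s (AE.of_forall hms)
  obtain ⟨y, hyH, hy⟩ := hinf mm
  have hy' : AE (fun i => rep mm i < rep y i) := hy
  obtain ⟨s', hs'⟩ := upto h y
  obtain ⟨s'', hs''⟩ := h.dec y
  rw [decide_eq_true hyH] at hs''
  have hfin : AE (fun i => (A.E.F k).run (A.W i).f (A.W i).z (A.W i).Q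
      (Nat.pair (rep d i + 1) (rep a i)) ≠ none) := by
    refine ((((hs.and hmm).and (hy'.and hs')).and (hs''.and (rep_le_Q s))).and
      ((rep_le_Q s').and ((rep_le_Q s'').and ((rep_le_Q ((Mod A).add y
        ((Mod A).add (Mod A).one (Mod A).one))).and ((rep_add y
        ((Mod A).add (Mod A).one (Mod A).one)).and ((rep_add (A := A) (Mod A).one
        (Mod A).one).and (rep_one (A := A)))))))).mono ?_
    rintro i ⟨⟨⟨⟨h1, h2⟩, h3, h4⟩, h5, h6⟩, h7, h8, h9, h10, h11, h12⟩
    obtain ⟨h13, h14⟩ := hm' i h1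
    rw [h10, h11, h12] at h9
    rw [hk]
    simp only [cntFn, Nat.unpair_pair]
    rw [if_pos]
    · simp
    refine ⟨rep y i + 1, by omega, ?_, ?_⟩
    · intro x hx
      rw [(A.E.F j).mono_ne h7 (h4 x (by omega))]
      exact h4 x (by omega)
    · have hsub : insert (rep y i) ((Finset.range (m i)).filter
          (fun x => (A.E.F j).run (A.W i).f (A.W i).z (rep s i) (Nat.pair x (rep a i)) =
          some true)) ⊆ (Finset.range (rep y i + 1)).filter
          (fun x => (A.E.F j).run (A.W i).f (A.W i).z (A.W i).Q (Nat.pair x (rep a i)) =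
          some true) := by
        intro x hx
        rw [Finset.mem_insert, Finset.mem_filter, Finset.mem_range] at hx
        rw [Finset.mem_filter, Finset.mem_range]
        rcases hx with rfl | ⟨hx1, hx2⟩
        · exact ⟨by omega, (A.E.F j).mono _ _ _ _ _ _ h8 h5⟩
        · exact ⟨by omega, (A.E.F j).mono _ _ _ _ _ _ h6 hx2⟩
      refine le_trans ?_ (Finset.card_le_card hsub)
      rw [Finset.card_insert_of_notMem]
      · omega
      · rw [Finset.mem_filter, Finset.mem_range]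
        rintro ⟨hx1, -⟩
        omega
  obtain ⟨i, h1, h2⟩ := ae_exists (hfin.and hdc)
  exact h1 h2.2.2

/-- cliques have at most `i + 1` elements -/
theorem clique_card {i : ℕ} {f : Col} (hf : Shape i f) (S : Finset ℕ)
    (hS : ∀ x ∈ S, ∀ y ∈ S, x < y → f x y = true) : S.card ≤ i + 1 := by
  rcases S.eq_empty_or_nonempty with rfl | hne
  · simp
  set y := S.max' hne with hy
  obtain ⟨r, h1, h2⟩ := hf y
  have hlt : ∀ x ∈ S.erase y, x < y := by
    intro x hx
    rw [Finset.mem_erase] at hx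
    exact lt_of_le_of_ne (S.le_max' x hx.2) hx.1
  have hyS : y ∈ S := S.max'_mem hne
  have hcard : (S.erase y).card ≤ (Finset.range i).card := by
    apply Finset.card_le_card_of_injOn r
    · intro x hx
      rw [Finset.mem_coe] at hx
      rw [Finset.mem_coe, Finset.mem_range]
      exact h1 x (hlt x hx) (hS x (Finset.mem_of_mem_erase hx) y hyS (hlt x hx))
    · have key : ∀ x ∈ S.erase y, ∀ x' ∈ S.erase y, x < x' → r x < r x' := by
        intro x hx x' hx' hxx
        have h3 := h2 x x' hxx (hlt x' hx') (hS x (Finset.mem_of_mem_erase hx) y hyS (hlt x hx))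
          (hS x' (Finset.mem_of_mem_erase hx') y hyS (hlt x' hx'))
        exact h3.2.mp (hS x (Finset.mem_of_mem_erase hx) x' (Finset.mem_of_mem_erase hx') hxx)
      intro x hx x' hx' hxx
      rw [Finset.mem_coe] at hx hx'
      rcases lt_trichotomy x x' with h3 | h3 | h3
      · have := key x hx x' hx' h3; omega
      · exact h3
      · have := key x' hx' x hx h3; omega
  rw [Finset.card_range, Finset.card_erase_of_mem hyS] at hcard
  omega

/-- the set of the elements that are shown at a stage where `cntFn` has halted -/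
theorem cnt_spec {F : Fn} {f : Col} {z : Orc} {s c a : ℕ}
    (h : (cntFn F).run f z s (Nat.pair c a) ≠ none) :
    c ≤ ((Finset.range s).filter (fun x => F.run f z s (Nat.pair x a) = some true)).card := by
  simp only [cntFn, Nat.unpair_pair] at h
  split at h
  · rename_i h1
    obtain ⟨m, h2, h3, h4⟩ := h1
    refine le_trans h4 (Finset.card_le_card ?_)
    intro x hx
    rw [Finset.mem_filter, Finset.mem_range] at hx ⊢
    exact ⟨by omega, hx.2⟩
  · exact absurd rfl h

theorem no_clique {H : Set (MM A)} {j : ℕ} {a : MM A} (h : Code H j a)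
    (hinf : ∀ x, ∃ y ∈ H, (Mod A).lt x y)
    (hcl : ∀ x ∈ H, ∀ y ∈ H, (Mod A).lt x y → pr (Mod A) x y ∈ FF A) : False := by
  obtain ⟨k, hk⟩ := A.E.cnt j
  have hb : Bd A (fun i => i + 2) := ⟨0, AE.of_forall (fun i => (A.W i).T0)⟩
  obtain ⟨s, hs⟩ := count_lemma h hinf k hk (mk _ hb)
  -- bad pairs
  have hex : ∀ i, ∃ x y : ℕ, x ≤ rep s i ∧ y ≤ rep s i ∧
      ((∃ x' y', x' < y' ∧ y' < rep s i ∧
        (A.E.F j).run (A.W i).f (A.W i).z (rep s i) (Nat.pair x' (rep a i)) = some true ∧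
        (A.E.F j).run (A.W i).f (A.W i).z (rep s i) (Nat.pair y' (rep a i)) = some true ∧
        (A.W i).f x' y' ≠ true) → x < y ∧
        (A.E.F j).run (A.W i).f (A.W i).z (rep s i) (Nat.pair x (rep a i)) = some true ∧
        (A.E.F j).run (A.W i).f (A.W i).z (rep s i) (Nat.pair y (rep a i)) = some true ∧
        (A.W i).f x y ≠ true) := by
    intro i
    by_cases hp : ∃ x' y', x' < y' ∧ y' < rep s i ∧
        (A.E.F j).run (A.W i).f (A.W i).z (rep s i) (Nat.pair x' (rep a i)) = some true ∧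
        (A.E.F j).run (A.W i).f (A.W i).z (rep s i) (Nat.pair y' (rep a i)) = some true ∧
        (A.W i).f x' y' ≠ true
    · obtain ⟨x', y', h1, h2, h3, h4, h5⟩ := hp
      exact ⟨x', y', by omega, by omega, fun _ => ⟨h1, h3, h4, h5⟩⟩
    · exact ⟨0, 0, Nat.zero_le _, Nat.zero_le _, fun h => absurd h hp⟩
  choose x y hxs hys hxy using hex
  have hclique : AE (fun i => ¬ ∃ x' y', x' < y' ∧ y' < rep s i ∧
        (A.E.F j).run (A.W i).f (A.W i).z (rep s i) (Nat.pair x' (rep a i)) = some true ∧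
        (A.E.F j).run (A.W i).f (A.W i).z (rep s i) (Nat.pair y' (rep a i)) = some true ∧
        (A.W i).f x' y' ≠ true) := by
    rw [ae_not]
    intro hbad
    have hbad' := hbad.mono (fun i hi => hxy i hi)
    obtain ⟨X, hX⟩ := exists_rep s (AE.of_forall hxs)
    obtain ⟨Y, hY⟩ := exists_rep s (AE.of_forall hys)
    have hXH : X ∈ H := mem_of_run h X s ((hbad'.and hX).mono (fun i hi => by
      rw [hi.2]; exact hi.1.2.1))
    have hYH : Y ∈ H := mem_of_run h Y s ((hbad'.and hY).mono (fun i hi => by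
      rw [hi.2]; exact hi.1.2.2.1))
    have hlt : (Mod A).lt X Y := (hbad'.and (hX.and hY)).mono (fun i hi => by
      rw [hi.2.1, hi.2.2]; exact hi.1.1)
    have hF := (pr_mem X Y hlt).mp (hcl X hXH Y hYH hlt)
    obtain ⟨i, ⟨h1, h2⟩, h3, h4⟩ := ae_exists ((hF.and hbad').and (hX.and hY))
    rw [h3, h4] at h1
    exact h2.2.2.2 h1
  obtain ⟨i, ⟨h1, h2⟩, h3⟩ := ae_exists ((hclique.and hs).and (rep_mk _ hb))
  rw [h3, hk] at h2
  have h4 := cnt_spec h2
  have h5 := clique_card (A.W i).shape ((Finset.range (rep s i)).filter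
    (fun x => (A.E.F j).run (A.W i).f (A.W i).z (rep s i) (Nat.pair x (rep a i)) = some true)) (by
      intro x' hx' y' hy' hlt
      rw [Finset.mem_filter, Finset.mem_range] at hx' hy'
      by_contra hne
      exact h1 ⟨x', y', hlt, hy'.1, hx'.2, hy'.2, hne⟩)
  omega

theorem no_indep {H : Set (MM A)} {j : ℕ} {a : MM A} (h : Code H j a)
    (hinf : ∀ x, ∃ y ∈ H, (Mod A).lt x y)
    (hin : ∀ x ∈ H, ∀ y ∈ H, (Mod A).lt x y → pr (Mod A) x y ∉ FF A) : False := by
  obtain ⟨k, hk⟩ := A.E.cnt j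
  obtain ⟨k', hk'⟩ := A.E.edge j
  set e : MM A := mpair (std j) a with he
  have hrep : AE (fun i => rep e i = Nat.pair j (rep a i)) := by
    refine ((rep_mpair (std j) a).and (rep_std (A := A) j)).mono ?_
    intro i hi
    rw [he, hi.1, hi.2]
  obtain ⟨m, hm⟩ := rep_bd e
  have hT : Bd A (fun i => (A.W i).T (m + 2)) := ⟨m + 2, AE.of_forall (fun i => le_rfl)⟩
  obtain ⟨s, hs⟩ := count_lemma h hinf k hk (mk _ hT)
  have hedge : AE (fun i => (A.E.F k').run (A.W i).f (A.W i).z (A.W i).Q (rep a i) ≠ none) := by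
    refine (((hs.and (rep_mk _ hT)).and ((hm.and hrep).and ((T_lt A m).and (ae_ge (m + 3))))).and
      (rep_le_Q s)).mono ?_
    rintro i ⟨⟨⟨h1, h2⟩, ⟨h3, h4⟩, h5, h6⟩, h7⟩
    rw [h2, hk] at h1
    have h8 := cnt_spec h1
    have hsh : ∀ x, x ∈ shown A.E.F (rep e i) (A.W i).Q (A.W i).f (A.W i).z ↔
        x < (A.W i).Q ∧ (A.E.F j).run (A.W i).f (A.W i).z (A.W i).Q (Nat.pair x (rep a i)) =
          some true := by
      intro x
      unfold shown
      rw [Finset.mem_filter, Finset.mem_range, h4]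
      simp only [Nat.unpair_pair]
    have h9 : (A.W i).T (m + 2) ≤ (shown A.E.F (rep e i) (A.W i).Q (A.W i).f (A.W i).z).card := by
      refine le_trans h8 (Finset.card_le_card ?_)
      intro x hx
      rw [Finset.mem_filter, Finset.mem_range] at hx
      rw [hsh]
      exact ⟨by omega, (A.E.F j).mono _ _ _ _ _ _ h7 hx.2⟩
    have h10 := (A.W i).noHom (m + 1) (by omega) (rep e i) (by omega)
    have h11 : ¬ Indep (A.W i).f (shown A.E.F (rep e i) (A.W i).Q (A.W i).f (A.W i).z) :=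
      fun hc => h10 ⟨hc, h9⟩
    unfold Indep at h11
    push Not at h11
    obtain ⟨x, hx, y, hy, hxy, hf⟩ := h11
    rw [hsh] at hx hy
    rw [hk']
    simp only [edgeFn]
    rw [if_pos ⟨x, y, hxy, hy.1, hx.2, hy.2, by simpa using hf⟩]
    simp
  obtain ⟨t, ht⟩ := halt_lemma' k' a hedge
  have hex : ∀ i, ∃ x y : ℕ, x ≤ rep t i ∧ y ≤ rep t i ∧
      ((A.E.F k').run (A.W i).f (A.W i).z (rep t i) (rep a i) ≠ none → x < y ∧
        (A.E.F j).run (A.W i).f (A.W i).z (rep t i) (Nat.pair x (rep a i)) = some true ∧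
        (A.E.F j).run (A.W i).f (A.W i).z (rep t i) (Nat.pair y (rep a i)) = some true ∧
        (A.W i).f x y = true) := by
    intro i
    by_cases hp : (A.E.F k').run (A.W i).f (A.W i).z (rep t i) (rep a i) ≠ none
    · have hp' := hp
      rw [hk'] at hp'
      simp only [edgeFn] at hp'
      split at hp'
      · rename_i h1
        obtain ⟨x', y', h1, h2, h3, h4, h5⟩ := h1
        exact ⟨x', y', by omega, by omega, fun _ => ⟨h1, h3, h4, h5⟩⟩
      · exact absurd rfl hp'
    · exact ⟨0, 0, Nat.zero_le _, Nat.zero_le _, fun h => absurd h hp⟩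
  choose x y hxs hys hxy using hex
  have hgood := ht.mono (fun i hi => hxy i hi)
  obtain ⟨X, hX⟩ := exists_rep t (AE.of_forall hxs)
  obtain ⟨Y, hY⟩ := exists_rep t (AE.of_forall hys)
  have hXH : X ∈ H := mem_of_run h X t ((hgood.and hX).mono (fun i hi => by
    rw [hi.2]; exact hi.1.2.1))
  have hYH : Y ∈ H := mem_of_run h Y t ((hgood.and hY).mono (fun i hi => by
    rw [hi.2]; exact hi.1.2.2.1))
  have hlt : (Mod A).lt X Y := (hgood.and (hX.and hY)).mono (fun i hi => by
    rw [hi.2.1, hi.2.2]; exact hi.1.1)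
  refine hin X hXH Y hYH hlt ((pr_mem X Y hlt).mpr ?_)
  exact (hgood.and (hX.and hY)).mono (fun i hi => by
    rw [hi.2.1, hi.2.2]; exact hi.1.2.2.2)

end NotCoRT

open NotCoRT in
theorem not_coRT : ¬ CoRT (Mod A) [2, 1, 3, 0] := by
  intro hc
  obtain ⟨H, hH, hinf, hor⟩ := hc (FF A) FF_mem avoids
  obtain ⟨j, a, hja⟩ := exists_unmasked hH
  have hcode : Code H j a := ⟨hja⟩
  rcases hor with h | h
  · exact no_clique hcode hinf h
  · exact no_indep hcode hinf h

end Pool.Agent.SepRT
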