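import Pool.Agent.Lib.MP_26a456_lc.Funs

/-!
# Interface between the combinatorial core, the measure part and the model part
-/

open Classical MeasureTheory

namespace Pool.Agent.SepRT

/-- `X` contains no edge of `f` -/
def Indep (f : Col) (X : Finset ℕ) : Prop := ∀ x ∈ X, ∀ y ∈ X, x < y → f x y = false

/-- below every `y`, the set of lower neighbours of `y` is a transitive multipartite graph with at
most `k` parts, the parts being consecutive blocks -/
def Shape (k : ℕ) (f : Col) : Prop :=
  ∀ y, ∃ r : ℕ → ℕ, (∀ x, x < y → f x y = true → r x < k) ∧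
    ∀ x x', x < x' → x' < y → f x y = true → f x' y = true →
      r x ≤ r x' ∧ (f x x' = true ↔ r x < r x')

/-- An opponent: for every index `e` and stage `s`, events about the random point `ω` which only
depend on the part of the colouring `f` below `s`. -/
structure Opp (Ω : Type) [MeasurableSpace Ω] where
  /-- the finite set shown by index `e` at stage `s` -/
  Show : ℕ → ℕ → Col → Ω → Finset ℕ
  /-- index `e` has halted at stage `s` -/
  Wit : ℕ → ℕ → Col → Set Ω
  show_lt : ∀ e s f ω x, x ∈ Show e s f ω → x < s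
  show_mono : ∀ e s s' f ω, s ≤ s' → Show e s f ω ⊆ Show e s' f ω
  show_agree : ∀ e s f g, Agree s f g → Show e s f = Show e s g
  show_meas : ∀ e s f x, MeasurableSet {ω | x ∈ Show e s f ω}
  wit_mono : ∀ e s s' f, s ≤ s' → Wit e s f ⊆ Wit e s' f
  wit_agree : ∀ e s f g, Agree s f g → Wit e s f = Wit e s g
  wit_meas : ∀ e s f, MeasurableSet (Wit e s f)

/-- the set shown at stage `s` by the functional with index `(unpair e).1` and parameter
`(unpair e).2` -/
noncomputable def shown (F : ℕ → Fn) (e s : ℕ) (f : Col) (z : Orc) : Finset ℕ :=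
  (Finset.range s).filter
    (fun x => (F (Nat.unpair e).1).run f z s (Nat.pair x (Nat.unpair e).2) = some true)

/-- the functional with index `(unpair e).1` has halted on input `(unpair e).2` at stage `s` -/
def halts (F : ℕ → Fn) (e s : ℕ) (f : Col) (z : Orc) : Prop :=
  (F (Nat.unpair e).1).run f z s (Nat.unpair e).2 ≠ none

/-- the fair coin -/
noncomputable def coin : Measure Bool :=
  (2 : ENNReal)⁻¹ • (Measure.dirac true + Measure.dirac false)

/-- the law of one column -/
noncomputable def colMeas : Measure (ℕ → Bool) := Measure.infinitePi (fun _ => coin)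

/-- the level attached to a test -/
def lev (j n π : ℕ) : ℕ := Nat.pair j (Nat.pair n π) + 4

/-- the input attached to a test: `x_0 = k`, `x_1 = u`, the other variables and the set parameters
are given by `π` -/
def tin (k u π : ℕ) : ℕ :=
  Nat.pair k (Nat.pair (Nat.pair u (Nat.unpair π).1) (Nat.unpair π).2)

/-- The data of the `i`-th world. -/
structure WData (E : Enum) (G : ℕ → ℕ) (i : ℕ) where
  /-- the colouring -/
  f : Col
  /-- the levels -/
  T : ℕ → ℕ
  /-- the final stage -/
  Q : ℕ
  /-- the random oracle -/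
  z : Orc
  T0 : i + 2 ≤ T 0
  TG : ∀ l, l < i → G (T l) ≤ T (l + 1) ∧ T l < T (l + 1)
  TQ : ∀ l, l ≤ i → T l ≤ Q
  shape : Shape i f
  halt : ∀ l, l < i → ∀ e, e < T l → halts E.F e Q f z → halts E.F e (T (l + 1)) f z
  noHom : ∀ l, l < i → ∀ e, e < T l →
    ¬ (Indep f (shown E.F e Q f z) ∧ T (l + 1) ≤ (shown E.F e Q f z).card)
  rand : ∀ j n π c,
    colMeas.real {Y | ∃ u, u < c ∧
      (E.F j).run f (setcol z n Y) Q (tin (lev j n π) u π) = none} ≤
        2 * (1 / 2 : ℝ) ^ lev j n π →
    ∀ u, u < c → (E.F j).run f (setcol z n (z n)) Q (tin (lev j n π) u π) ≠ none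

end Pool.Agent.SepRT
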