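import Pool.Agent.Lib.MP_26a456_lc.SetCode

/-!
# Search functionals in the model; `RCA0` and `BSigma2`
-/

open Classical Filter

namespace Pool.Agent.SepRT

variable {A : Fam}

/-- a false bounded formula -/
def bot : Fm := .neg (.eq .zero .zero)

theorem not_wit_bot (i0 : ℕ) (L : List Fn) (f : Col) (z : Orc) (s w : ℕ) :
    ¬ wit i0 bot L f z s w := by
  rintro ⟨y, -, h⟩
  simp [bot, Fm.dsat] at h

theorem wit_pair (i0 : ℕ) (φ : Fm) (L : List Fn) (f : Col) (z : Orc) (s x p b : ℕ) :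
    wit i0 φ L f z s (Nat.pair x (Nat.pair p b)) ↔
      ∃ y, y < s ∧ φ.dsat (qry L f z b s) (Function.update (dec (Nat.pair x p)) i0 y) =
        some true := by
  unfold wit
  simp only [Nat.unpair_pair]

/-- the two assignments agree -/
theorem upd_agree {N i0 i : ℕ} {x p : ℕ} {v : ℕ → MM A} {y : MM A} {y' : ℕ}
    (hv : ∀ k, k < N → dec (Nat.pair x p) k = rep (v k) i) (hy : rep y i = y') :
    ∀ k, k < N → Function.update (dec (Nat.pair x p)) i0 y' k =
      repv (Function.update v i0 y) i k := by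
  intro k hk
  unfold repv
  by_cases h : k = i0
  · subst h
    rw [Function.update_self, Function.update_self, hy]
  · rw [Function.update_of_ne h, Function.update_of_ne h, hv k hk]

theorem wit_of_sat {V : ℕ → Set (MM A)} {L : List ℕ} {b n : MM A} (h : SetCode V L b n)
    (i0 : ℕ) (φ : Fm) (x p : MM A) (v : ℕ → MM A)
    (hv : AE (fun i => ∀ k, k < φ.nb → dec (Nat.pair (rep x i) (rep p i)) k = rep (v k) i))
    (y : MM A) (hy : φ.sat (Mod A) V (Function.update v i0 y)) :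
    ∃ t : MM A, AE (fun i => wit i0 φ (L.map A.E.F) (A.W i).f (mask (rep n i) (A.W i).z)
      (rep t i) (Nat.pair (rep x i) (Nat.pair (rep p i) (rep b i)))) := by
  obtain ⟨s, hs⟩ := h.decided φ (Function.update v i0 y)
  have hb : Bd A (fun i => Max.max (rep s i) (rep y i + 1)) :=
    (rep_bd s).max ((rep_bd y).add (Bd.const 1))
  refine ⟨mk _ hb, ?_⟩
  refine ((hs.and hv).and (rep_mk _ hb)).mono ?_
  rintro i ⟨⟨h1, h2⟩, h3⟩
  rw [h3, wit_pair]
  refine ⟨rep y i, by omega, ?_⟩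
  rw [Fm.dsat_congr φ _ _ _ _ (fun _ _ => rfl) (upd_agree h2 rfl)]
  have h4 := h1.trans (congrArg some (decide_eq_true hy))
  exact Fm.dsat_mono (fun j y c => qry_mono _ _ _ _ _ _ (le_max_left _ _) j y c) φ _ _ h4

theorem sat_of_wit {V : ℕ → Set (MM A)} {L : List ℕ} {b n : MM A} (h : SetCode V L b n)
    (i0 : ℕ) (φ : Fm) (x p : MM A) (v : ℕ → MM A)
    (hv : AE (fun i => ∀ k, k < φ.nb → dec (Nat.pair (rep x i) (rep p i)) k = rep (v k) i))
    (t : MM A) (ht : AE (fun i => wit i0 φ (L.map A.E.F) (A.W i).f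
      (mask (rep n i) (A.W i).z) (rep t i)
      (Nat.pair (rep x i) (Nat.pair (rep p i) (rep b i))))) :
    ∃ y, φ.sat (Mod A) V (Function.update v i0 y) := by
  have h1 : ∃ g : ℕ → ℕ, AE (fun i => g i < rep t i ∧
      φ.dsat (qry (L.map A.E.F) (A.W i).f (mask (rep n i) (A.W i).z) (rep b i) (rep t i))
        (Function.update (dec (Nat.pair (rep x i) (rep p i))) i0 (g i)) = some true) := by
    refine ⟨fun i => if h : ∃ y, y < rep t i ∧
      φ.dsat (qry (L.map A.E.F) (A.W i).f (mask (rep n i) (A.W i).z) (rep b i) (rep t i))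
        (Function.update (dec (Nat.pair (rep x i) (rep p i))) i0 y) = some true
      then h.choose else 0, ?_⟩
    refine ht.mono ?_
    intro i hi
    rw [wit_pair] at hi
    simp only [dif_pos hi]
    exact hi.choose_spec
  obtain ⟨g, hg⟩ := h1
  obtain ⟨y, hy⟩ := exists_rep (x := g) t (hg.mono fun i hi => hi.1.le)
  refine ⟨y, ?_⟩
  obtain ⟨s, hs⟩ := h.decided φ (Function.update v i0 y)
  obtain ⟨i, ⟨h1, h2⟩, h3, h4⟩ := ae_exists ((hg.and hy).and (hs.and hv))
  have h5 := h1.2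
  rw [Fm.dsat_congr φ _ _ _ _ (fun _ _ => rfl) (upd_agree h4 h2)] at h5
  have h6 := Fm.dsat_mono (fun j y c => qry_mono _ _ _ _ _ (Max.max (rep t i) (rep s i))
    (le_max_left _ _) j y c) φ _ _ h5
  have h7 := Fm.dsat_mono (fun j y c => qry_mono _ _ _ _ _ (Max.max (rep t i) (rep s i))
    (le_max_right _ _) j y c) φ _ _ h3
  rw [h6] at h7
  exact of_decide_eq_true (Option.some.inj h7).symm

theorem search_iff {V : ℕ → Set (MM A)} {L : List ℕ} {b n : MM A} (h : SetCode V L b n)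
    (i0 j : ℕ) (φ : Fm) (hj : A.E.F j = dlFn i0 φ bot (L.map A.E.F)) (x p : MM A)
    (v : ℕ → MM A)
    (hv : AE (fun i => ∀ k, k < φ.nb → dec (Nat.pair (rep x i) (rep p i)) k = rep (v k) i)) :
    (∃ y, φ.sat (Mod A) V (Function.update v i0 y)) ↔
      AE (fun i => (A.E.F j).run (A.W i).f (mask (rep n i) (A.W i).z) (A.W i).Q
        (Nat.pair (rep x i) (Nat.pair (rep p i) (rep b i))) ≠ none) := by
  have hrun : ∀ (f : Col) (z : Orc) (s w : ℕ), (A.E.F j).run f z s w ≠ none ↔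
      ∃ t, t ≤ s ∧ wit i0 φ (L.map A.E.F) f z t w := by
    intro f z s w
    rw [hj]
    simp only [dlFn]
    by_cases h1 : ∃ t, t ≤ s ∧ (wit i0 φ (L.map A.E.F) f z t w ∨ wit i0 bot (L.map A.E.F) f z t w)
    · rw [dif_pos h1]
      obtain ⟨t, ht, h2⟩ := h1
      refine ⟨fun _ => ⟨t, ht, ?_⟩, fun _ => by simp⟩
      exact h2.resolve_right (not_wit_bot _ _ _ _ _ _)
    · rw [dif_neg h1]
      refine ⟨fun h2 => absurd rfl h2, ?_⟩
      rintro ⟨t, ht, h2⟩
      exact absurd ⟨t, ht, Or.inl h2⟩ h1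
  constructor
  · rintro ⟨y, hy⟩
    obtain ⟨t, ht⟩ := wit_of_sat h i0 φ x p v hv y hy
    refine (ht.and (rep_le_Q t)).mono ?_
    rintro i ⟨h1, h2⟩
    rw [hrun]
    exact ⟨rep t i, h2, h1⟩
  · intro h1
    have h2 : AE (fun i => rep (mpair x (mpair p b)) i =
        Nat.pair (rep x i) (Nat.pair (rep p i) (rep b i))) := by
      refine ((rep_mpair x (mpair p b)).and (rep_mpair p b)).mono ?_
      rintro i ⟨h3, h4⟩
      rw [h3, h4]
    obtain ⟨s, hs⟩ := halt_lemma j n (mpair x (mpair p b)) ((h1.and h2).mono (by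
      rintro i ⟨h3, h4⟩
      rw [h4]; exact h3))
    refine sat_of_wit h i0 φ x p v hv s ((hs.and h2).mono ?_)
    rintro i ⟨h3, h4⟩
    rw [h4, hrun] at h3
    obtain ⟨t, ht, h5⟩ := h3
    exact wit_mono _ _ _ _ _ _ _ _ ht h5

/-- the code of a parameter tuple with the value of the first variable in front -/
theorem enc_upd {N i : ℕ} {x p : MM A} {v w : ℕ → MM A} (h0 : w 0 = x)
    (hw : ∀ k, w (k + 1) = v k)
    (h : ∀ k, k < N → dec (rep p i) k = rep (v k) i) :
    ∀ k, k < N → dec (Nat.pair (rep x i) (rep p i)) k = rep (w k) i := by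
  intro k hk
  cases k with
  | zero => rw [dec_pair_zero, h0]
  | succ k => rw [dec_pair, h k (by omega), hw]

/-- the set variables that do not occur may be emptied -/
theorem sat_cut (φ : Fm) (K : ℕ) (hK : φ.nb ≤ K) (V : ℕ → Set (MM A)) (v : ℕ → MM A) :
    φ.sat (Mod A) V v ↔ φ.sat (Mod A) (fun j => if j < K then V j else ∅) v := by
  refine Fm.sat_congr (Mod A) φ _ _ _ _ (fun j hj => ?_) (fun _ _ => rfl)
  exact (if_pos (lt_of_lt_of_le hj hK)).symm

theorem iSigma1 : ISigma1 (Mod A) := by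
  intro φ V v hV h0 hstep xs
  obtain ⟨L, b, n, -, hc⟩ := exists_setcode (A := A) V hV φ.nb
  obtain ⟨j, hj⟩ := A.E.dl 1 φ bot L
  obtain ⟨p, hp⟩ := exists_enc (A := A) (fun k => v (k + 1)) φ.nb
  let H : ℕ → ℕ → Prop := fun i a => (A.E.F j).run (A.W i).f (mask (rep n i) (A.W i).z)
    (A.W i).Q (Nat.pair a (Nat.pair (rep p i) (rep b i))) ≠ none
  have key : ∀ x : MM A, (∃ y, φ.sat (Mod A) V (asg v [x, y])) ↔ AE (fun i => H i (rep x i)) := by
    intro x
    have h1 := search_iff hc 1 j φ hj x p (Function.update v 0 x)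
      (hp.mono (fun i hi => enc_upd rfl (fun _ => rfl) hi))
    refine Iff.trans ?_ h1
    refine exists_congr fun y => ?_
    have e : asg v [x, y] = Function.update (Function.update v 0 x) 1 y := by
      funext k
      match k with
      | 0 => rfl
      | 1 => rfl
      | k + 2 => rfl
    rw [e]
    exact sat_cut φ _ le_rfl V _
  by_contra hcon
  have h1 := mt (key xs).mpr hcon
  have h2 : AE (fun i => ¬ H i (rep xs i)) := ae_not.mpr h1
  have h3 : ∃ g : ℕ → ℕ, AE (fun i => g i ≤ rep xs i ∧ ¬ H i (g i) ∧ ∀ a, a < g i → H i a) := by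
    refine ⟨fun i => if h : ∃ a, ¬ H i a then Nat.find h else 0, h2.mono ?_⟩
    intro i hi
    have h : ∃ a, ¬ H i a := ⟨_, hi⟩
    simp only [dif_pos h]
    refine ⟨Nat.find_min' h hi, Nat.find_spec h, ?_⟩
    intro a ha
    exact not_not.mp (Nat.find_min h ha)
  obtain ⟨g, hg⟩ := h3
  obtain ⟨y, hy⟩ := exists_rep (x := g) xs (hg.mono fun i hi => hi.1)
  have h0' := (key _).mp h0
  have hne : AE (fun i => g i ≠ 0) := by
    refine ((hg.and h0').and (rep_zero (A := A))).mono ?_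
    rintro i ⟨⟨h4, h5⟩, h6⟩ h7
    apply h4.2.1
    rw [h7]
    rw [h6] at h5
    exact h5
  obtain ⟨w, hw⟩ := exists_rep (x := fun i => g i - 1) xs (hg.mono fun i hi => by
    have := hi.1
    omega)
  have hPw : ∃ y, φ.sat (Mod A) V (asg v [w, y]) := by
    rw [key]
    refine ((hg.and hne).and hw).mono ?_
    rintro i ⟨⟨h4, h5⟩, h6⟩
    rw [h6]
    exact h4.2.2 _ (by omega)
  have hPy := (key _).mp (hstep w hPw)
  obtain ⟨i, ⟨⟨h4, h5⟩, h6⟩, ⟨h7, h8⟩, h9⟩ := ae_exists (((hg.and hne).and hw).and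
    ((hPy.and (rep_add w (Mod A).one)).and (rep_one (A := A))))
  apply h4.2.1
  have e : rep (A := A) ((Mod A).add w (Mod A).one) i = g i := by
    rw [h8, h9, h6]; omega
  rw [e] at h7
  exact h7

theorem delta1CA : Delta1CA (Mod A) := by
  intro φ ψ V v hV hφψ
  set K := Max.max φ.nb ψ.nb with hK
  obtain ⟨L, b, n, -, hc⟩ := exists_setcode (A := A) V hV K
  obtain ⟨j, hj⟩ := A.E.dl 1 φ ψ L
  obtain ⟨p, hp⟩ := exists_enc (A := A) (fun k => v (k + 1)) K
  refine ⟨{x | ∃ y, φ.sat (Mod A) V (asg v [x, y])}, ?_, fun x => Iff.rfl⟩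
  refine ⟨j, n, mpair p b, ?_⟩
  intro x
  have hv : ∀ N, N ≤ K → AE (fun i => ∀ k, k < N →
      dec (Nat.pair (rep x i) (rep p i)) k = rep (Function.update v 0 x k) i) := by
    intro N hN
    refine hp.mono (fun i hi => ?_)
    exact fun k hk => enc_upd (w := Function.update v 0 x) (v := fun k => v (k + 1)) rfl
      (fun _ => rfl) hi k (lt_of_lt_of_le hk hN)
  have e : ∀ y, asg v [x, y] = Function.update (Function.update v 0 x) 1 y := by
    intro y
    funext k
    match k with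
    | 0 => rfl
    | 1 => rfl
    | k + 2 => rfl
  have hex : ∀ (θ : Fm), θ.nb ≤ K → ((∃ y, θ.sat (Mod A) V (asg v [x, y])) ↔
      ∃ y, θ.sat (Mod A) (fun j => if j < K then V j else ∅)
        (Function.update (Function.update v 0 x) 1 y)) := by
    intro θ hθ
    refine exists_congr fun y => ?_
    rw [e]
    exact sat_cut θ _ hθ V _
  have hφK : φ.nb ≤ K := le_max_left _ _
  have hψK : ψ.nb ≤ K := le_max_right _ _
  -- an existential formula that is verified at stages of the model is true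
  have up : ∀ (θ : Fm), θ.nb ≤ K → ∀ t : MM A, AE (fun i => wit 1 θ (L.map A.E.F) (A.W i).f
      (mask (rep n i) (A.W i).z) (rep t i)
      (Nat.pair (rep x i) (Nat.pair (rep p i) (rep b i)))) →
      ∃ y, θ.sat (Mod A) V (asg v [x, y]) := by
    intro θ hθ t ht
    rw [hex θ hθ]
    exact sat_of_wit hc 1 θ x p _ (hv _ hθ) t ht
  have down : ∀ (θ : Fm), θ.nb ≤ K → (∃ y, θ.sat (Mod A) V (asg v [x, y])) →
      ∃ t : MM A, AE (fun i => wit 1 θ (L.map A.E.F) (A.W i).f
      (mask (rep n i) (A.W i).z) (rep t i)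
      (Nat.pair (rep x i) (Nat.pair (rep p i) (rep b i)))) := by
    intro θ hθ h1
    rw [hex θ hθ] at h1
    obtain ⟨y, hy⟩ := h1
    exact wit_of_sat hc 1 θ x p _ (hv _ hθ) y hy
  have hpb := rep_mpair p b
  by_cases hx : ∃ y, φ.sat (Mod A) V (asg v [x, y])
  · obtain ⟨t, ht⟩ := down φ hφK hx
    refine ⟨t, ?_⟩
    -- the first verified formula is not `ψ` alone
    have hn : AE (fun i => ¬ wit 1 ψ (L.map A.E.F) (A.W i).f
        (mask (rep n i) (A.W i).z) (rep t i)
        (Nat.pair (rep x i) (Nat.pair (rep p i) (rep b i)))) := by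
      rw [ae_not]
      intro h1
      exact (hφψ x).mp hx (up ψ hψK t h1)
    refine ((ht.and hn).and hpb).mono ?_
    rintro i ⟨⟨h1, h2⟩, h3⟩
    rw [h3, hj]
    simp only [dlFn]
    have h4 : ∃ s, s ≤ rep t i ∧ (wit 1 φ (L.map A.E.F) (A.W i).f
        (mask (rep n i) (A.W i).z) s (Nat.pair (rep x i) (Nat.pair (rep p i) (rep b i))) ∨
        wit 1 ψ (L.map A.E.F) (A.W i).f
        (mask (rep n i) (A.W i).z) s (Nat.pair (rep x i) (Nat.pair (rep p i) (rep b i)))) :=
      ⟨_, le_rfl, Or.inl h1⟩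
    rw [dif_pos h4]
    congr 1
    refine decide_eq_decide.mpr ⟨fun _ => hx, fun _ => ?_⟩
    rcases (Nat.find_spec h4).2 with h5 | h5
    · exact h5
    · exact absurd (wit_mono _ _ _ _ _ _ _ _ (Nat.find_spec h4).1 h5) h2
  · have hx' : ∃ y, ψ.sat (Mod A) V (asg v [x, y]) := by
      by_contra h1
      exact hx ((hφψ x).mpr h1)
    obtain ⟨t, ht⟩ := down ψ hψK hx'
    refine ⟨t, ?_⟩
    have hn : AE (fun i => ¬ wit 1 φ (L.map A.E.F) (A.W i).f
        (mask (rep n i) (A.W i).z) (rep t i)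
        (Nat.pair (rep x i) (Nat.pair (rep p i) (rep b i)))) := by
      rw [ae_not]
      intro h1
      exact hx (up φ hφK t h1)
    refine ((ht.and hn).and hpb).mono ?_
    rintro i ⟨⟨h1, h2⟩, h3⟩
    rw [h3, hj]
    simp only [dlFn]
    have h4 : ∃ s, s ≤ rep t i ∧ (wit 1 φ (L.map A.E.F) (A.W i).f
        (mask (rep n i) (A.W i).z) s (Nat.pair (rep x i) (Nat.pair (rep p i) (rep b i))) ∨
        wit 1 ψ (L.map A.E.F) (A.W i).f
        (mask (rep n i) (A.W i).z) s (Nat.pair (rep x i) (Nat.pair (rep p i) (rep b i)))) :=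
      ⟨_, le_rfl, Or.inr h1⟩
    rw [dif_pos h4]
    congr 1
    refine decide_eq_decide.mpr ⟨fun h5 => ?_, fun h5 => absurd h5 hx⟩
    exact absurd (wit_mono _ _ _ _ _ _ _ _ (Nat.find_spec h4).1 h5) h2

/-- truth of `∀ q φ` is the failure of a search -/
theorem pi_key (φ : Fm) (V : ℕ → Set (MM A)) (v : ℕ → MM A) (hV : ∀ j, InS A (V j)) :
    ∃ S : ℕ → ℕ → ℕ → Prop, ∀ x y p : MM A,
      (∀ q, φ.sat (Mod A) V (asg v [x, y, p, q])) ↔
        AE (fun i => S i (rep x i) (Nat.pair (rep y i) (rep p i))) := by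
  obtain ⟨L, b, n, -, hc⟩ := exists_setcode (A := A) V hV φ.nb
  obtain ⟨j, hj⟩ := A.E.dl 3 (.neg φ) bot L
  let r : ℕ → MM A := fun k => match k with
    | 0 => (Mod A).zero
    | k + 1 => v (k + 4)
  obtain ⟨rest, hr⟩ := exists_enc (A := A) r φ.nb
  refine ⟨fun i a w => ¬ ((A.E.F j).run (A.W i).f (mask (rep n i) (A.W i).z) (A.W i).Q
    (Nat.pair a (Nat.pair (Nat.pair w.unpair.1 (Nat.pair w.unpair.2 (rep rest i)))
      (rep b i))) ≠ none), ?_⟩
  intro x y p
  let w1 : ℕ → MM A := fun k => match k with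
    | 0 => p
    | k + 1 => r k
  let w2 : ℕ → MM A := fun k => match k with
    | 0 => y
    | k + 1 => w1 k
  let w3 : ℕ → MM A := fun k => match k with
    | 0 => x
    | k + 1 => w2 k
  have hpc : AE (fun i => rep (mpair y (mpair p rest)) i =
      Nat.pair (rep y i) (Nat.pair (rep p i) (rep rest i))) := by
    refine ((rep_mpair y (mpair p rest)).and (rep_mpair p rest)).mono ?_
    rintro i ⟨h3, h4⟩
    rw [h3, h4]
  have h1 : AE (fun i => ∀ k, k < (Fm.neg φ).nb →
      dec (Nat.pair (rep x i) (rep (mpair y (mpair p rest)) i)) k = rep (w3 k) i) := by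
    refine (hr.and ((rep_mpair y (mpair p rest)).and (rep_mpair p rest))).mono ?_
    rintro i ⟨h2, h3, h4⟩
    have e1 := enc_upd (w := w1) (x := p) rfl (fun _ => rfl) h2
    rw [← h4] at e1
    have e2 := enc_upd (w := w2) (x := y) rfl (fun _ => rfl) e1
    rw [← h3] at e2
    exact enc_upd (w := w3) (x := x) rfl (fun _ => rfl) e2
  have h2 := search_iff hc 3 j (.neg φ) hj x (mpair y (mpair p rest)) w3 h1
  have h3 : (∀ q, φ.sat (Mod A) V (asg v [x, y, p, q])) ↔
      ¬ (∃ q, (Fm.neg φ).sat (Mod A) (fun j => if j < φ.nb then V j else ∅)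
        (Function.update w3 3 q)) := by
    rw [not_exists]
    refine forall_congr' fun q => ?_
    have e : asg v [x, y, p, q] = Function.update w3 3 q := by
      funext k
      match k with
      | 0 => rfl
      | 1 => rfl
      | 2 => rfl
      | 3 => rfl
      | k + 4 => rfl
    refine (iff_of_eq (congrArg (fun u => φ.sat (Mod A) V u) e)).trans ?_
    refine (sat_cut φ _ le_rfl V _).trans ?_
    exact not_not.symm
  refine (h3.trans ((not_congr h2).trans ae_not.symm)).trans ?_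
  constructor
  · intro h4
    refine (h4.and hpc).mono ?_
    rintro i ⟨h5, h6⟩
    rw [h6] at h5
    simp only [Nat.unpair_pair]
    exact h5
  · intro h4
    refine (h4.and hpc).mono ?_
    rintro i ⟨h5, h6⟩
    rw [h6]
    simp only [Nat.unpair_pair] at h5
    exact h5

theorem bSigma2 : BSigma2 (Mod A) := by
  intro φ V v c hV hyp
  obtain ⟨S, hS⟩ := pi_key φ V v hV
  by_cases hc0 : AE (fun i => rep c i = 0)
  · refine ⟨(Mod A).zero, fun x hx => ?_⟩
    obtain ⟨i, h1, h2⟩ := ae_exists (hc0.and ((lt_iff x c).mp hx))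
    omega
  rw [← ae_not] at hc0
  -- the least code of a pair that works
  let m : ℕ → ℕ → ℕ := fun i a =>
    if h : ∃ w, w ≤ (A.W i).Q ∧ S i a w then Nat.find h else (A.W i).Q + 1
  have hm1 : ∀ i a w, w ≤ (A.W i).Q → S i a w → m i a ≤ w := by
    intro i a w h1 h2
    have h : ∃ w, w ≤ (A.W i).Q ∧ S i a w := ⟨w, h1, h2⟩
    simp only [m, dif_pos h]
    exact Nat.find_min' h ⟨h1, h2⟩
  have hm2 : ∀ i a, m i a ≤ (A.W i).Q → S i a (m i a) := by
    intro i a h1
    by_cases h : ∃ w, w ≤ (A.W i).Q ∧ S i a w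
    · simp only [m, dif_pos h]
      exact (Nat.find_spec h).2
    · simp only [m, dif_neg h] at h1
      omega
  -- the worst place
  have hmax : ∃ g : ℕ → ℕ, AE (fun i => g i < rep c i ∧ ∀ a, a < rep c i → m i a ≤ m i (g i)) := by
    have h1 : ∀ i, ∃ g, rep c i ≠ 0 → g < rep c i ∧ ∀ a, a < rep c i → m i a ≤ m i g := by
      intro i
      by_cases h : rep c i = 0
      · exact ⟨0, fun h2 => absurd h h2⟩
      · obtain ⟨g, hg, hg2⟩ := Finset.exists_max_image (Finset.range (rep c i)) (m i)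
          ⟨0, Finset.mem_range.mpr (by omega)⟩
        exact ⟨g, fun _ => ⟨Finset.mem_range.mp hg, fun a ha =>
          hg2 a (Finset.mem_range.mpr ha)⟩⟩
    choose g hg using h1
    exact ⟨g, hc0.mono fun i hi => hg i hi⟩
  obtain ⟨g, hg⟩ := hmax
  obtain ⟨a, ha⟩ := exists_rep (x := g) c (hg.mono fun i hi => hi.1.le)
  have hac : (Mod A).lt a c := by
    refine (lt_iff a c).mpr ?_
    refine (hg.and ha).mono ?_
    rintro i ⟨h1, h2⟩
    rw [h2]
    exact h1.1
  obtain ⟨y, p, hyp'⟩ := hyp a hac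
  have h1 := (hS a y p).mp hyp'
  have h2 : AE (fun i => ∀ a', a' < rep c i → m i a' ≤ rep (mpair y p) i ∧
      S i a' (m i a')) := by
    refine (((hg.and ha).and h1).and ((rep_mpair y p).and (rep_le_Q (mpair y p)))).mono ?_
    rintro i ⟨⟨⟨h3, h4⟩, h5⟩, h6, h7⟩ a' ha'
    rw [← h6] at h5
    have h8 := hm1 i _ _ h7 h5
    rw [h4] at h8
    have h9 := (h3.2 a' ha').trans h8
    exact ⟨h9, hm2 i a' (h9.trans h7)⟩
  refine ⟨(Mod A).add (mpair y p) (Mod A).one, fun x hx => ?_⟩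
  have hx' := (lt_iff x c).mp hx
  obtain ⟨y', hy'⟩ := exists_rep (x := fun i => (m i (rep x i)).unpair.1) (mpair y p)
    ((h2.and hx').mono (by
      rintro i ⟨h3, h4⟩
      exact (Nat.unpair_left_le _).trans (h3 _ h4).1))
  obtain ⟨p', hp'⟩ := exists_rep (x := fun i => (m i (rep x i)).unpair.2) (mpair y p)
    ((h2.and hx').mono (by
      rintro i ⟨h3, h4⟩
      exact (Nat.unpair_right_le _).trans (h3 _ h4).1))
  refine ⟨y', ?_, p', ?_⟩
  · refine (lt_iff _ _).mpr ?_
    refine (((h2.and hx').and hy').and ((rep_add (mpair y p) (Mod A).one).and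
      (rep_one (A := A)))).mono ?_
    rintro i ⟨⟨⟨h3, h4⟩, h5⟩, h6, h7⟩
    rw [h6, h7, h5]
    have h8 := (Nat.unpair_left_le (m i (rep x i))).trans (h3 _ h4).1
    omega
  · refine (hS x y' p').mpr ?_
    refine (((h2.and hx').and hy').and hp').mono ?_
    rintro i ⟨⟨⟨h3, h4⟩, h5⟩, h6⟩
    rw [h5, h6, Nat.pair_unpair]
    exact (h3 _ h4).2

end Pool.Agent.SepRT
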