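import Pool.Agent.Lib.MP_26a456_lc.Syn

/-!
# Syntax lemmas

Values of terms and truth of formulas depend only on the variables below `nb`, and only on the
queries below `qb`.
-/

open Classical

namespace Pool.Agent.SepRT

theorem Tm.val_congr (B : L2) (t : Tm) (v v' : ℕ → B.M) (h : ∀ n, n < t.nb → v n = v' n) :
    t.val B v = t.val B v' := by
  induction t with
  | var n => exact h n (Nat.lt_succ_self n)
  | zero => rfl
  | one => rfl
  | add s t ihs iht =>
    simp only [Tm.val]
    rw [ihs (fun n hn => h n (lt_of_lt_of_le hn (le_max_left _ _))),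
      iht (fun n hn => h n (lt_of_lt_of_le hn (le_max_right _ _)))]
  | mul s t ihs iht =>
    simp only [Tm.val]
    rw [ihs (fun n hn => h n (lt_of_lt_of_le hn (le_max_left _ _))),
      iht (fun n hn => h n (lt_of_lt_of_le hn (le_max_right _ _)))]

theorem Fm.sat_congr (B : L2) (φ : Fm) (V V' : ℕ → Set B.M) (v v' : ℕ → B.M)
    (hV : ∀ j, j < φ.nb → V j = V' j) (h : ∀ n, n < φ.nb → v n = v' n) :
    φ.sat B V v ↔ φ.sat B V' v' := by
  induction φ generalizing v v' with
  | eq s t =>
    simp only [Fm.sat]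
    rw [Tm.val_congr B s v v' (fun n hn => h n (lt_of_lt_of_le hn (le_max_left _ _))),
      Tm.val_congr B t v v' (fun n hn => h n (lt_of_lt_of_le hn (le_max_right _ _)))]
  | lt s t =>
    simp only [Fm.sat]
    rw [Tm.val_congr B s v v' (fun n hn => h n (lt_of_lt_of_le hn (le_max_left _ _))),
      Tm.val_congr B t v v' (fun n hn => h n (lt_of_lt_of_le hn (le_max_right _ _)))]
  | mem t j =>
    simp only [Fm.sat]
    rw [Tm.val_congr B t v v' (fun n hn => h n (lt_of_lt_of_le hn (le_max_left _ _))),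
      hV j (lt_of_lt_of_le (Nat.lt_succ_self j) (le_max_right _ _))]
  | neg φ ih =>
    simp only [Fm.sat]
    exact not_congr (ih v v' hV h)
  | and φ ψ ih1 ih2 =>
    simp only [Fm.sat]
    exact and_congr
      (ih1 v v' (fun j hj => hV j (lt_of_lt_of_le hj (le_max_left _ _)))
        (fun n hn => h n (lt_of_lt_of_le hn (le_max_left _ _))))
      (ih2 v v' (fun j hj => hV j (lt_of_lt_of_le hj (le_max_right _ _)))
        (fun n hn => h n (lt_of_lt_of_le hn (le_max_right _ _))))
  | ball n t φ ih =>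
    have e1 : φ.nb ≤ (Fm.ball n t φ).nb := (le_max_right _ _).trans (le_max_right _ _)
    have e2 : t.nb ≤ (Fm.ball n t φ).nb := (le_max_left _ _).trans (le_max_right _ _)
    simp only [Fm.sat]
    rw [Tm.val_congr B t v v' (fun m hm => h m (lt_of_lt_of_le hm e2))]
    refine forall_congr' (fun x => imp_congr_right (fun _ => ?_))
    refine ih _ _ (fun j hj => hV j (lt_of_lt_of_le hj e1)) (fun m hm => ?_)
    by_cases hmn : m = n
    · subst hmn; simp
    · rw [Function.update_of_ne hmn, Function.update_of_ne hmn]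
      exact h m (lt_of_lt_of_le hm e1)

theorem Tm.nval_congr (t : Tm) (v v' : ℕ → ℕ) (h : ∀ n, n < t.nb → v n = v' n) :
    t.nval v = t.nval v' := by
  induction t with
  | var n => exact h n (Nat.lt_succ_self n)
  | zero => rfl
  | one => rfl
  | add s t ihs iht =>
    simp only [Tm.nval]
    rw [ihs (fun n hn => h n (lt_of_lt_of_le hn (le_max_left _ _))),
      iht (fun n hn => h n (lt_of_lt_of_le hn (le_max_right _ _)))]
  | mul s t ihs iht =>
    simp only [Tm.nval]
    rw [ihs (fun n hn => h n (lt_of_lt_of_le hn (le_max_left _ _))),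
      iht (fun n hn => h n (lt_of_lt_of_le hn (le_max_right _ _)))]

theorem Fm.nsat_congr (φ : Fm) (V V' : ℕ → Set ℕ) (v v' : ℕ → ℕ)
    (hV : ∀ j, j < φ.nb → V j = V' j) (h : ∀ n, n < φ.nb → v n = v' n) :
    φ.nsat V v ↔ φ.nsat V' v' := by
  induction φ generalizing v v' with
  | eq s t =>
    simp only [Fm.nsat]
    rw [Tm.nval_congr s v v' (fun n hn => h n (lt_of_lt_of_le hn (le_max_left _ _))),
      Tm.nval_congr t v v' (fun n hn => h n (lt_of_lt_of_le hn (le_max_right _ _)))]
  | lt s t =>
    simp only [Fm.nsat]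
    rw [Tm.nval_congr s v v' (fun n hn => h n (lt_of_lt_of_le hn (le_max_left _ _))),
      Tm.nval_congr t v v' (fun n hn => h n (lt_of_lt_of_le hn (le_max_right _ _)))]
  | mem t j =>
    simp only [Fm.nsat]
    rw [Tm.nval_congr t v v' (fun n hn => h n (lt_of_lt_of_le hn (le_max_left _ _))),
      hV j (lt_of_lt_of_le (Nat.lt_succ_self j) (le_max_right _ _))]
  | neg φ ih =>
    simp only [Fm.nsat]
    exact not_congr (ih v v' hV h)
  | and φ ψ ih1 ih2 =>
    simp only [Fm.nsat]
    exact and_congr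
      (ih1 v v' (fun j hj => hV j (lt_of_lt_of_le hj (le_max_left _ _)))
        (fun n hn => h n (lt_of_lt_of_le hn (le_max_left _ _))))
      (ih2 v v' (fun j hj => hV j (lt_of_lt_of_le hj (le_max_right _ _)))
        (fun n hn => h n (lt_of_lt_of_le hn (le_max_right _ _))))
  | ball n t φ ih =>
    have e1 : φ.nb ≤ (Fm.ball n t φ).nb := (le_max_right _ _).trans (le_max_right _ _)
    have e2 : t.nb ≤ (Fm.ball n t φ).nb := (le_max_left _ _).trans (le_max_right _ _)
    simp only [Fm.nsat]
    rw [Tm.nval_congr t v v' (fun m hm => h m (lt_of_lt_of_le hm e2))]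
    refine forall_congr' (fun x => imp_congr_right (fun _ => ?_))
    refine ih _ _ (fun j hj => hV j (lt_of_lt_of_le hj e1)) (fun m hm => ?_)
    by_cases hmn : m = n
    · subst hmn; simp
    · rw [Function.update_of_ne hmn, Function.update_of_ne hmn]
      exact h m (lt_of_lt_of_le hm e1)

theorem Fm.dsat_congr (φ : Fm) (q q' : ℕ → ℕ → Option Bool) (v v' : ℕ → ℕ)
    (hq : ∀ j, j < φ.nb → q j = q' j) (h : ∀ n, n < φ.nb → v n = v' n) :
    φ.dsat q v = φ.dsat q' v' := by
  induction φ generalizing v v' with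
  | eq s t =>
    simp only [Fm.dsat]
    rw [Tm.nval_congr s v v' (fun n hn => h n (lt_of_lt_of_le hn (le_max_left _ _))),
      Tm.nval_congr t v v' (fun n hn => h n (lt_of_lt_of_le hn (le_max_right _ _)))]
  | lt s t =>
    simp only [Fm.dsat]
    rw [Tm.nval_congr s v v' (fun n hn => h n (lt_of_lt_of_le hn (le_max_left _ _))),
      Tm.nval_congr t v v' (fun n hn => h n (lt_of_lt_of_le hn (le_max_right _ _)))]
  | mem t j =>
    simp only [Fm.dsat]
    rw [Tm.nval_congr t v v' (fun n hn => h n (lt_of_lt_of_le hn (le_max_left _ _))),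
      hq j (lt_of_lt_of_le (Nat.lt_succ_self j) (le_max_right _ _))]
  | neg φ ih =>
    simp only [Fm.dsat]
    rw [ih v v' hq h]
  | and φ ψ ih1 ih2 =>
    simp only [Fm.dsat]
    rw [ih1 v v' (fun j hj => hq j (lt_of_lt_of_le hj (le_max_left _ _)))
        (fun n hn => h n (lt_of_lt_of_le hn (le_max_left _ _))),
      ih2 v v' (fun j hj => hq j (lt_of_lt_of_le hj (le_max_right _ _)))
        (fun n hn => h n (lt_of_lt_of_le hn (le_max_right _ _)))]
  | ball n t φ ih =>
    have e1 : φ.nb ≤ (Fm.ball n t φ).nb := (le_max_right _ _).trans (le_max_right _ _)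
    have e2 : t.nb ≤ (Fm.ball n t φ).nb := (le_max_left _ _).trans (le_max_right _ _)
    have key : ∀ x, φ.dsat q (Function.update v n x) = φ.dsat q' (Function.update v' n x) := by
      intro x
      refine ih _ _ (fun j hj => hq j (lt_of_lt_of_le hj e1)) (fun m hm => ?_)
      by_cases hmn : m = n
      · subst hmn; simp
      · rw [Function.update_of_ne hmn, Function.update_of_ne hmn]
        exact h m (lt_of_lt_of_le hm e1)
    simp only [Fm.dsat]
    rw [Tm.nval_congr t v v' (fun m hm => h m (lt_of_lt_of_le hm e2))]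
    simp only [key]

theorem Tm.nval_le_tb (t : Tm) (v : ℕ → ℕ) (c : ℕ) (h : ∀ n, n < t.nb → v n ≤ c) :
    t.nval v ≤ t.tb c := by
  induction t with
  | var n => exact h n (Nat.lt_succ_self n)
  | zero => exact le_rfl
  | one => exact le_rfl
  | add s t ihs iht =>
    exact Nat.add_le_add (ihs (fun n hn => h n (lt_of_lt_of_le hn (le_max_left _ _))))
      (iht (fun n hn => h n (lt_of_lt_of_le hn (le_max_right _ _))))
  | mul s t ihs iht =>
    exact Nat.mul_le_mul (ihs (fun n hn => h n (lt_of_lt_of_le hn (le_max_left _ _))))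
      (iht (fun n hn => h n (lt_of_lt_of_le hn (le_max_right _ _))))

theorem Fm.dsat_ne_none (φ : Fm) (q : ℕ → ℕ → Option Bool) (v : ℕ → ℕ) (c : ℕ)
    (h : ∀ n, n < φ.nb → v n ≤ c) (hq : ∀ j y, y ≤ φ.qb c → q j y ≠ none) :
    φ.dsat q v ≠ none := by
  induction φ generalizing v c with
  | eq s t => simp [Fm.dsat]
  | lt s t => simp [Fm.dsat]
  | mem t j =>
    simp only [Fm.dsat]
    exact hq j _ (Tm.nval_le_tb t v c (fun n hn => h n (lt_of_lt_of_le hn (le_max_left _ _))))
  | neg φ ih =>
    simp only [Fm.dsat, ne_eq, Option.map_eq_none_iff]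
    exact ih v c h hq
  | and φ ψ ih1 ih2 =>
    have a1 := ih1 v c (fun n hn => h n (lt_of_lt_of_le hn (le_max_left _ _)))
      (fun j y hy => hq j y (hy.trans (le_max_left _ _)))
    have a2 := ih2 v c (fun n hn => h n (lt_of_lt_of_le hn (le_max_right _ _)))
      (fun j y hy => hq j y (hy.trans (le_max_right _ _)))
    simp only [Fm.dsat]
    rw [if_neg (not_or.mpr ⟨a1, a2⟩)]
    simp
  | ball n t φ ih =>
    have e1 : φ.nb ≤ (Fm.ball n t φ).nb := (le_max_right _ _).trans (le_max_right _ _)
    have e2 : t.nb ≤ (Fm.ball n t φ).nb := (le_max_left _ _).trans (le_max_right _ _)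
    have e3 : t.nval v ≤ t.tb c := Tm.nval_le_tb t v c (fun m hm => h m (lt_of_lt_of_le hm e2))
    have key : ∀ x, x < t.nval v → φ.dsat q (Function.update v n x) ≠ none := by
      intro x hx
      refine ih _ (max c (t.tb c)) (fun m hm => ?_) (fun j y hy => hq j y hy)
      by_cases hmn : m = n
      · subst hmn
        rw [Function.update_self]
        exact (hx.le.trans e3).trans (le_max_right _ _)
      · rw [Function.update_of_ne hmn]
        exact (h m (lt_of_lt_of_le hm e1)).trans (le_max_left _ _)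
    simp only [Fm.dsat]
    rw [if_neg]
    · simp
    · rintro ⟨x, hx, hn⟩
      exact key x hx hn

theorem Fm.nsat_congr_below (φ : Fm) (V V' : ℕ → Set ℕ) (v : ℕ → ℕ) (c : ℕ)
    (h : ∀ n, n < φ.nb → v n ≤ c) (hV : ∀ j y, y ≤ φ.qb c → (y ∈ V j ↔ y ∈ V' j)) :
    φ.nsat V v ↔ φ.nsat V' v := by
  induction φ generalizing v c with
  | eq s t => exact Iff.rfl
  | lt s t => exact Iff.rfl
  | mem t j =>
    simp only [Fm.nsat]
    exact hV j _ (Tm.nval_le_tb t v c (fun n hn => h n (lt_of_lt_of_le hn (le_max_left _ _))))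
  | neg φ ih =>
    simp only [Fm.nsat]
    exact not_congr (ih v c h hV)
  | and φ ψ ih1 ih2 =>
    simp only [Fm.nsat]
    exact and_congr
      (ih1 v c (fun n hn => h n (lt_of_lt_of_le hn (le_max_left _ _)))
        (fun j y hy => hV j y (hy.trans (le_max_left _ _))))
      (ih2 v c (fun n hn => h n (lt_of_lt_of_le hn (le_max_right _ _)))
        (fun j y hy => hV j y (hy.trans (le_max_right _ _))))
  | ball n t φ ih =>
    have e1 : φ.nb ≤ (Fm.ball n t φ).nb := (le_max_right _ _).trans (le_max_right _ _)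
    have e2 : t.nb ≤ (Fm.ball n t φ).nb := (le_max_left _ _).trans (le_max_right _ _)
    have e3 : t.nval v ≤ t.tb c := Tm.nval_le_tb t v c (fun m hm => h m (lt_of_lt_of_le hm e2))
    simp only [Fm.nsat]
    refine forall_congr' (fun x => imp_congr_right (fun hx => ?_))
    refine ih _ (max c (t.tb c)) (fun m hm => ?_) (fun j y hy => hV j y hy)
    by_cases hmn : m = n
    · subst hmn
      rw [Function.update_self]
      exact (hx.le.trans e3).trans (le_max_right _ _)
    · rw [Function.update_of_ne hmn]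
      exact (h m (lt_of_lt_of_le hm e1)).trans (le_max_left _ _)

end Pool.Agent.SepRT
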