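import Pool.Agent.Lib.MP_26a456_lc.Model
import Pool.Agent.Lib.MP_26a456_lc.SynLem

/-!
# Transfer: Los theorem for bounded formulas, basic axioms
-/

open Classical Filter

namespace Pool.Agent.SepRT

variable {A : Fam}

theorem Bd.tb {c : ℕ → ℕ} (hc : Bd A c) (t : Tm) : Bd A (fun i => t.tb (c i)) := by
  induction t with
  | var n => exact hc
  | zero => exact Bd.const 0
  | one => exact Bd.const 1
  | add s t ihs iht => exact ihs.add iht
  | mul s t ihs iht => exact ihs.mul iht

theorem Bd.qb {c : ℕ → ℕ} (hc : Bd A c) (φ : Fm) : Bd A (fun i => φ.qb (c i)) := by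
  induction φ generalizing c with
  | eq s t => exact Bd.const 0
  | lt s t => exact Bd.const 0
  | mem t j => exact hc.tb t
  | neg φ ih => exact ih hc
  | and φ ψ ih1 ih2 => exact (ih1 hc).max (ih2 hc)
  | ball n t φ ih => exact ih (hc.max (hc.tb t))

theorem val_rep (t : Tm) (v : ℕ → MM A) :
    AE (fun i => rep (A := A) (t.val (Mod A) v) i = t.nval (repv v i)) := by
  induction t with
  | var n => exact AE.of_forall (fun _ => rfl)
  | zero => exact rep_zero
  | one => exact rep_one
  | add s t ihs iht =>
    refine ((rep_add (A := A) (s.val (Mod A) v) (t.val (Mod A) v)).and (ihs.and iht)).mono ?_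
    intro i hi
    simp only [Tm.val, Tm.nval]
    rw [hi.1, hi.2.1, hi.2.2]
  | mul s t ihs iht =>
    refine ((rep_mul (A := A) (s.val (Mod A) v) (t.val (Mod A) v)).and (ihs.and iht)).mono ?_
    intro i hi
    simp only [Tm.val, Tm.nval]
    rw [hi.1, hi.2.1, hi.2.2]

theorem repv_update (v : ℕ → MM A) (n : ℕ) (x : MM A) (i : ℕ) :
    repv (Function.update v n x) i = Function.update (repv v i) n (rep x i) := by
  funext m
  by_cases h : m = n
  · subst h; simp [repv]
  · simp [repv, Function.update_of_ne h]

/-- equivalent coordinatewise properties -/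
theorem ae_congr {p q : ℕ → Prop} (h : AE (fun i => (p i ↔ q i))) : AE p ↔ AE q :=
  ⟨fun hp => (h.and hp).mono (fun _ hi => hi.1.mp hi.2),
    fun hq => (h.and hq).mono (fun _ hi => hi.1.mpr hi.2)⟩

/-- Los theorem for bounded formulas -/
theorem sat_iff (φ : Fm) (V : ℕ → Set (MM A)) (Vh : ℕ → ℕ → Set ℕ)
    (h : ∀ j (x : MM A), x ∈ V j ↔ AE (fun i => rep x i ∈ Vh i j)) (v : ℕ → MM A) :
    φ.sat (Mod A) V v ↔ AE (fun i => φ.nsat (Vh i) (repv v i)) := by
  induction φ generalizing v with
  | eq s t =>
    simp only [Fm.sat, Fm.nsat]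
    refine (mm_eq_iff (A := A)).trans (ae_congr ?_)
    refine ((val_rep s v).and (val_rep t v)).mono ?_
    intro i hi
    rw [hi.1, hi.2]
  | lt s t =>
    simp only [Fm.sat, Fm.nsat]
    refine (lt_iff (A := A) _ _).trans (ae_congr ?_)
    refine ((val_rep s v).and (val_rep t v)).mono ?_
    intro i hi
    rw [hi.1, hi.2]
  | mem t j =>
    simp only [Fm.sat, Fm.nsat]
    refine (h j _).trans (ae_congr ?_)
    refine (val_rep t v).mono ?_
    intro i hi
    rw [hi]
  | neg φ ih =>
    simp only [Fm.sat, Fm.nsat]
    rw [ih v, ae_not]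
  | and φ ψ ih1 ih2 =>
    simp only [Fm.sat, Fm.nsat]
    rw [ih1 v, ih2 v, ae_and]
  | ball n t φ ih =>
    simp only [Fm.sat, Fm.nsat]
    constructor
    · intro hx
      by_contra hc
      rw [← ae_not] at hc
      -- choose a bad element in every bad world
      let x : ℕ → ℕ := fun i =>
        if hb : ∃ y, y < t.nval (repv v i) ∧ ¬ φ.nsat (Vh i) (Function.update (repv v i) n y)
        then Classical.choose hb else 0
      have hx1 : AE (fun i => x i < t.nval (repv v i) ∧
          ¬ φ.nsat (Vh i) (Function.update (repv v i) n (x i))) := by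
        refine hc.mono ?_
        intro i hi
        have hb : ∃ y, y < t.nval (repv v i) ∧
            ¬ φ.nsat (Vh i) (Function.update (repv v i) n y) := by
          by_contra hno
          apply hi
          intro y hy
          by_contra hy2
          exact hno ⟨y, hy, hy2⟩
        have : x i = Classical.choose hb := dif_pos hb
        rw [this]
        exact Classical.choose_spec hb
      obtain ⟨c, hcx⟩ := exists_rep (A := A) (x := x) (t.val (Mod A) v)
        ((hx1.and (val_rep t v)).mono (fun i hi => by
          have h1 := hi.1.1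
          have h2 := hi.2
          rw [h2]
          exact h1.le))
      have hlt : (Mod A).lt c (t.val (Mod A) v) := by
        rw [lt_iff]
        refine (hcx.and (hx1.and (val_rep t v))).mono ?_
        intro i hi
        have h1 := hi.2.1.1
        have h2 := hi.2.2
        rw [hi.1, h2]
        exact h1
      have hsat := (ih (Function.update v n c)).mp (hx c hlt)
      have hfalse : AE (fun _ => False) := by
        refine ((hsat.and hcx).and hx1).mono ?_
        intro i hi
        obtain ⟨⟨h1, h2⟩, h3⟩ := hi
        rw [repv_update, h2] at h1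
        exact h3.2 h1
      obtain ⟨_, hf⟩ := ae_exists hfalse
      exact hf
    · intro hae x hx
      rw [ih]
      rw [lt_iff] at hx
      refine ((hae.and hx).and (val_rep t v)).mono ?_
      intro i hi
      obtain ⟨⟨h1, h2⟩, h3⟩ := hi
      have e : repv (A := A) (Function.update v n x) i = Function.update (repv v i) n (rep x i) :=
        repv_update v n x i
      have h4 : φ.nsat (Vh i) (Function.update (repv v i) n (rep x i)) := by
        apply h1
        rw [← h3]
        exact h2
      exact e ▸ h4

theorem basicAx : BasicAx (Mod A) where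
  succ_ne := by
    intro n h
    have h1 := mm_eq_iff.mp h
    obtain ⟨i, h1, h2, h3, h4⟩ := ae_exists
      (h1.and ((rep_add (A := A) n (Mod A).one).and ((rep_one (A := A)).and (rep_zero (A := A)))))
    rw [h2, h3, h4] at h1
    omega
  succ_inj := by
    intro m n h
    have h1 := mm_eq_iff.mp h
    apply mm_ext (A := A)
    refine (h1.and ((rep_add (A := A) n (Mod A).one).and
      ((rep_add (A := A) m (Mod A).one).and (rep_one (A := A))))).mono ?_
    intro i hi
    obtain ⟨h1, h2, h3, h4⟩ := hi
    rw [h2, h3, h4] at h1
    omega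
  add_zero := by
    intro m
    apply mm_ext (A := A)
    refine ((rep_add (A := A) m (Mod A).zero).and (rep_zero (A := A))).mono ?_
    intro i hi
    rw [hi.1, hi.2]
    omega
  add_succ := by
    intro m n
    apply mm_ext (A := A)
    refine ((rep_add (A := A) m ((Mod A).add n (Mod A).one)).and
      ((rep_add (A := A) n (Mod A).one).and
      ((rep_add (A := A) ((Mod A).add m n) (Mod A).one).and
      ((rep_add (A := A) m n).and (rep_one (A := A)))))).mono ?_
    intro i hi
    obtain ⟨h1, h2, h3, h4, h5⟩ := hi
    rw [h1, h2, h3, h4, h5]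
    omega
  mul_zero := by
    intro m
    apply mm_ext (A := A)
    refine ((rep_mul (A := A) m (Mod A).zero).and (rep_zero (A := A))).mono ?_
    intro i hi
    rw [hi.1, hi.2, Nat.mul_zero]
  mul_succ := by
    intro m n
    apply mm_ext (A := A)
    refine ((rep_mul (A := A) m ((Mod A).add n (Mod A).one)).and
      ((rep_add (A := A) n (Mod A).one).and
      ((rep_add (A := A) ((Mod A).mul m n) m).and
      ((rep_mul (A := A) m n).and (rep_one (A := A)))))).mono ?_
    intro i hi
    obtain ⟨h1, h2, h3, h4, h5⟩ := hi
    rw [h1, h2, h3, h4, h5]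
    ring
  not_lt_zero := by
    intro m h
    rw [lt_iff] at h
    obtain ⟨i, h1, h2⟩ := ae_exists (h.and (rep_zero (A := A)))
    rw [h2] at h1
    omega
  lt_succ := by
    intro m n
    rw [lt_iff, lt_iff]
    refine Iff.trans ?_ (or_congr_right (mm_eq_iff (A := A)).symm)
    rw [← ae_or]
    apply ae_congr
    refine ((rep_add (A := A) n (Mod A).one).and (rep_one (A := A))).mono ?_
    intro i hi
    rw [hi.1, hi.2]
    omega

end Pool.Agent.SepRT
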