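import Pool.Agent.Lib.MP_26a456_lc.SetCodeA
import Pool.Agent.Lib.MP_26a456_lc.SynLem
import Pool.Agent.Lib.MP_26a456_lc.Transfer

/-!
# Formulas are decided at a stage of the model
-/

open Classical Filter

namespace Pool.Agent.SepRT

variable {A : Fam}

theorem SetCode.decided {V : ℕ → Set (MM A)} {L : List ℕ} {b n : MM A} (h : SetCode V L b n)
    (φ : Fm) (v : ℕ → MM A) : ∃ s : MM A, AE (fun i =>
      φ.dsat (qry (L.map A.E.F) (A.W i).f (mask (rep n i) (A.W i).z) (rep b i) (rep s i))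
        (repv v i) = some (decide (φ.sat (Mod A) V v))) := by
  obtain ⟨c, hc⟩ := exists_ub v φ.nb
  obtain ⟨s, hs⟩ := h.upto (mk _ ((rep_bd c).qb φ))
  have hdec : AE (fun i => φ.sat (Mod A) V v ↔ φ.nsat (Vset L b n i) (repv v i)) := by
    have h1 := sat_iff φ V (fun i j => Vset L b n i j) (fun j x => h.mem_iff j x) v
    by_cases h2 : φ.sat (Mod A) V v
    · exact (h1.mp h2).mono (fun i hi => ⟨fun _ => hi, fun _ => h2⟩)
    · have h3 : AE (fun i => ¬ φ.nsat (Vset L b n i) (repv v i)) := by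
        rw [ae_not]
        exact fun h4 => h2 (h1.mpr h4)
      exact h3.mono (fun i hi => ⟨fun h4 => absurd h4 h2, fun h4 => absurd h4 hi⟩)
  refine ⟨s, ((hs.and hc).and ((rep_mk _ ((rep_bd c).qb φ)).and hdec)).mono ?_⟩
  rintro i ⟨⟨h1, h2⟩, h3, h4⟩
  have h5 : φ.dsat (qry (L.map A.E.F) (A.W i).f (mask (rep n i) (A.W i).z) (rep b i) (rep s i))
      (repv v i) ≠ none := by
    apply Fm.dsat_ne_none φ _ _ (rep c i) h2
    intro j y hy
    apply h1 j y
    rw [h3]
    exact hy
  obtain ⟨d, hd⟩ := Option.ne_none_iff_exists'.mp h5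
  have h6 := Fm.dsat_sound (fun j y e he => qry_iff_Vset L b n i _ j y e he) φ _ d hd
  rw [hd]
  congr 1
  rw [← h4] at h6
  cases d
  · symm
    apply decide_eq_false
    intro h7
    exact absurd (h6.mpr h7) (by simp)
  · symm
    exact decide_eq_true (h6.mp rfl)

end Pool.Agent.SepRT
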