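import Pool.Agent.Lib.MP_26a456_lc.Funs

/-!
# Bounds attached to formulas
-/

open Classical

namespace Pool.Agent.SepRT

/-- all variables of the term are below this number -/
def Tm.nb : Tm → ℕ
  | .var n => n + 1
  | .zero => 0
  | .one => 0
  | .add s t => max s.nb t.nb
  | .mul s t => max s.nb t.nb

/-- all number and set variables of the formula are below this number -/
def Fm.nb : Fm → ℕ
  | .eq s t => max s.nb t.nb
  | .lt s t => max s.nb t.nb
  | .mem t j => max t.nb (j + 1)
  | .neg φ => φ.nb
  | .and φ ψ => max φ.nb ψ.nb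
  | .ball n t φ => max (n + 1) (max t.nb φ.nb)

/-- bound for the value of a term if all variables are at most `c` -/
def Tm.tb (c : ℕ) : Tm → ℕ
  | .var _ => c
  | .zero => 0
  | .one => 1
  | .add s t => s.tb c + t.tb c
  | .mul s t => s.tb c * t.tb c

/-- bound for the queries of a formula if all variables are at most `c` -/
def Fm.qb : Fm → ℕ → ℕ
  | .eq _ _, _ => 0
  | .lt _ _, _ => 0
  | .mem t _, c => t.tb c
  | .neg φ, c => φ.qb c
  | .and φ ψ, c => max (φ.qb c) (ψ.qb c)
  | .ball _ t φ, c => φ.qb (max c (t.tb c))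

end Pool.Agent.SepRT
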