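import Pool.Agent.Lib.MP_26a456_lc.Model
import Pool.Agent.Lib.MP_26a456_lc.Syn

/-!
# Codes for assignments and for set variables
-/

open Classical Filter

namespace Pool.Agent.SepRT

variable {A : Fam}

theorem bd_enc (N : ℕ) : ∀ v : ℕ → MM A, Bd A (fun i => enc (repv v i) N) := by
  induction N with
  | zero => intro v; exact Bd.const 0
  | succ N ih =>
    intro v
    exact (rep_bd (v 0)).pair (ih (fun n => v (n + 1)))

/-- coding of assignments -/
theorem exists_enc (v : ℕ → MM A) (N : ℕ) :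
    ∃ p : MM A, AE (fun i => ∀ k, k < N → dec (rep p i) k = rep (v k) i) := by
  refine ⟨mk _ (bd_enc N v), (rep_mk _ (bd_enc N v)).mono ?_⟩
  intro i hi k hk
  rw [hi, dec_enc N _ k hk]
  rfl

/-- upper bounds of finitely many numbers -/
theorem exists_ub (u : ℕ → MM A) (N : ℕ) :
    ∃ m : MM A, AE (fun i => ∀ k, k < N → rep (u k) i ≤ rep m i) := by
  induction N with
  | zero => exact ⟨u 0, AE.of_forall (fun i k hk => absurd hk (Nat.not_lt_zero k))⟩
  | succ N ih =>
    obtain ⟨m, hm⟩ := ih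
    have hb := (rep_bd m).max (rep_bd (u N))
    refine ⟨mk _ hb, (hm.and (rep_mk _ hb)).mono ?_⟩
    intro i hi k hk
    rw [hi.2]
    rcases Nat.lt_or_ge k N with h1 | h1
    · exact (hi.1 k h1).trans (le_max_left _ _)
    · rw [show k = N by omega]; exact le_max_right _ _

theorem exists_setcode (V : ℕ → Set (MM A)) (hV : ∀ j, InS A (V j)) (K : ℕ) :
    ∃ (L : List ℕ) (b n : MM A), L.length = K ∧
      SetCode (fun j => if j < K then V j else ∅) L b n := by
  choose f nn a hfa using hV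
  obtain ⟨n, hn⟩ := exists_ub nn K
  obtain ⟨b, hb⟩ := exists_enc (A := A) (fun k => if k % 2 = 0 then nn (k / 2) else a (k / 2))
    (2 * K)
  refine ⟨(List.range K).map f, b, n, by simp, ?_⟩
  intro j x
  by_cases hj : j < K
  · obtain ⟨s, hs⟩ := hfa j x
    refine ⟨s, ((hs.and hn).and hb).mono ?_⟩
    rintro i ⟨⟨h1, h2⟩, h3⟩
    have e1 : (((List.range K).map f).map A.E.F)[j]? = some (A.E.F (f j)) := by
      simp [List.getElem?_range hj]
    have e2 : dec (rep b i) (2 * j) = rep (nn j) i := by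
      rw [h3 (2 * j) (by omega)]
      have h4 : 2 * j % 2 = 0 := by omega
      have h5 : 2 * j / 2 = j := by omega
      simp only [h4, if_true, h5]
    have e3 : dec (rep b i) (2 * j + 1) = rep (a j) i := by
      rw [h3 (2 * j + 1) (by omega)]
      have h4 : ¬ (2 * j + 1) % 2 = 0 := by omega
      have h5 : (2 * j + 1) / 2 = j := by omega
      simp only [h4, if_false, h5]
    simp only [qry, e1, e2, e3, mask_mask _ _ (h2 j hj), hj, if_true]
    exact h1
  · refine ⟨b, AE.of_forall ?_⟩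
    intro i
    have e1 : (((List.range K).map f).map A.E.F)[j]? = none := by
      rw [List.getElem?_eq_none]
      simp only [List.length_map, List.length_range]
      omega
    simp [qry, hj]

theorem SetCode.upto_one {V : ℕ → Set (MM A)} {L : List ℕ} {b n : MM A} (h : SetCode V L b n)
    (B : MM A) (j : ℕ) : ∃ s : MM A, AE (fun i => ∀ y, y ≤ rep B i →
      qry (L.map A.E.F) (A.W i).f (mask (rep n i) (A.W i).z) (rep b i) (rep s i) j y ≠ none) := by
  set q : ℕ → ℕ → ℕ → Option Bool := fun i s y =>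
    qry (L.map A.E.F) (A.W i).f (mask (rep n i) (A.W i).z) (rep b i) s j y with hq
  set t : ℕ → ℕ := fun i =>
    Nat.findGreatest (fun s => ¬ ∀ y, y ≤ rep B i → q i s y ≠ none) (A.W i).Q with ht
  have hy : ∀ i, ∃ y, y ≤ rep B i ∧
      ((¬ ∀ y, y ≤ rep B i → q i (t i) y ≠ none) → q i (t i) y = none) := by
    intro i
    by_cases h1 : ∀ y, y ≤ rep B i → q i (t i) y ≠ none
    · exact ⟨0, Nat.zero_le _, fun h2 => absurd h1 h2⟩
    · push Not at h1
      obtain ⟨y, hy1, hy2⟩ := h1
      exact ⟨y, hy1, fun _ => hy2⟩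
  choose y hy1 hy2 using hy
  obtain ⟨c, hc⟩ := exists_rep B (AE.of_forall hy1)
  obtain ⟨s, hs⟩ := h j c
  refine ⟨s, ((hs.and hc).and (rep_le_Q s)).mono ?_⟩
  rintro i ⟨⟨h1, h2⟩, h3⟩
  show ∀ y, y ≤ rep B i → q i (rep s i) y ≠ none
  by_contra h4
  have h5 : rep s i ≤ t i := Nat.le_findGreatest h3 h4
  have h6 : ¬ ∀ y, y ≤ rep B i → q i (t i) y ≠ none :=
    Nat.findGreatest_spec (P := fun s => ¬ ∀ y, y ≤ rep B i → q i s y ≠ none) h3 h4
  have h7 := hy2 i h6
  rw [h2] at h1
  have h8 := qry_mono _ _ _ _ _ _ h5 _ _ _ h1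
  rw [hq] at h7
  simp only at h7
  rw [h8] at h7
  exact absurd h7 (by simp)

theorem SetCode.upto {V : ℕ → Set (MM A)} {L : List ℕ} {b n : MM A} (h : SetCode V L b n)
    (B : MM A) : ∃ s : MM A, AE (fun i => ∀ j y, y ≤ rep B i →
      qry (L.map A.E.F) (A.W i).f (mask (rep n i) (A.W i).z) (rep b i) (rep s i) j y ≠ none) := by
  choose s hs using fun j => h.upto_one B j
  obtain ⟨m, hm⟩ := exists_ub s L.length
  refine ⟨m, ((ae_forall_lt L.length (fun j _ => hs j)).and hm).mono ?_⟩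
  rintro i ⟨h1, h2⟩ j y hy
  by_cases hj : j < L.length
  · obtain ⟨c, hc⟩ := Option.ne_none_iff_exists'.mp (h1 j hj y hy)
    rw [qry_mono _ _ _ _ _ _ (h2 j hj) _ _ _ hc]
    simp
  · have e1 : (L.map A.E.F)[j]? = none := by
      rw [List.getElem?_eq_none]
      simp only [List.length_map]
      omega
    simp [qry, e1]

/-- the set computed in world `i` -/
def Vset (L : List ℕ) (b n : MM A) (i j : ℕ) : Set ℕ :=
  {y | ∃ t, qry (L.map A.E.F) (A.W i).f (mask (rep n i) (A.W i).z) (rep b i) t j y = some true}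

theorem qry_iff_Vset (L : List ℕ) (b n : MM A) (i s j y : ℕ) (c : Bool)
    (hc : qry (L.map A.E.F) (A.W i).f (mask (rep n i) (A.W i).z) (rep b i) s j y = some c) :
    c = true ↔ y ∈ Vset L b n i j := by
  constructor
  · rintro rfl
    exact ⟨s, hc⟩
  · rintro ⟨t, ht⟩
    have h1 := qry_mono _ _ _ _ _ _ (le_max_left s t) _ _ _ hc
    have h2 := qry_mono _ _ _ _ _ _ (le_max_right s t) _ _ _ ht
    rw [h1] at h2
    exact Option.some.inj h2

theorem SetCode.mem_iff {V : ℕ → Set (MM A)} {L : List ℕ} {b n : MM A} (h : SetCode V L b n)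
    (j : ℕ) (x : MM A) : x ∈ V j ↔ AE (fun i => rep x i ∈ Vset L b n i j) := by
  obtain ⟨s, hs⟩ := h j x
  constructor
  · intro hx
    refine hs.mono ?_
    intro i hi
    rw [decide_eq_true hx] at hi
    exact ⟨_, hi⟩
  · intro hx
    by_contra hn
    obtain ⟨i, h1, h2⟩ := ae_exists (hs.and hx)
    have h3 := (qry_iff_Vset L b n i _ j _ _ h1).mpr h2
    exact hn (of_decide_eq_true h3)

end Pool.Agent.SepRT
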