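import Pool.Agent.Lib.MP_26a456_lc.CountPow
import Pool.Agent.Lib.MP_26a456_lc.Search
import Pool.Agent.Lib.MP_26a456_lc.Coin

/-!
# `2-RAN` holds in the model
-/

open Classical Filter MeasureTheory

namespace Pool.Agent.SepRT

theorem mask_setcol (z : Orc) (n : ℕ) (Y : ℕ → Bool) : mask n (setcol z n Y) = mask n z := by
  funext c x
  unfold mask setcol
  by_cases hc : c < n
  · rw [if_pos hc, if_pos hc, if_pos hc]
  · rw [if_neg hc, if_neg hc]

theorem asg_congr (φ : Fm) (v : ℕ → ℕ) (k u b' π' : ℕ)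
    (hv : ∀ m, m < φ.nb → dec π' m = v (m + 2)) :
    ∀ n, n < φ.nb → Function.update (dec (Nat.pair k (Nat.pair u π'))) 2 b' n =
      asg v [k, u, b'] n := by
  intro n hn
  rcases n with _ | _ | _ | n
  · rw [Function.update_of_ne (by omega), dec_pair_zero]
    simp [asg]
  · rw [Function.update_of_ne (by omega), dec_pair, dec_pair_zero]
    simp [asg]
  · rw [Function.update_self]
    simp [asg]
  · rw [Function.update_of_ne (by omega), dec_pair, dec_pair, hv (n + 1) (by omega)]
    simp [asg]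

/-- the inclusion of the test class, in one world -/
theorem world_incl (φ : Fm) (FX : Fn) (f : Col) (z : Orc) (nX aX bc : ℕ)
    (hb0 : dec bc 0 = nX) (hb1 : dec bc 1 = aX) (hb2 : dec bc 2 = nX + 1) (hb3 : dec bc 3 = nX)
    (Q t c0 k s u π' : ℕ) (v : ℕ → ℕ) (Y' : ℕ → Bool)
    (hv : ∀ m, m < φ.nb → dec π' m = v (m + 2))
    (htQ : t ≤ Q) (ht1 : φ.qb c0 < t) (ht2 : nX < t) (ht3 : s ≤ t)
    (hc0 : ∀ m, m < φ.nb → v m ≤ c0) (hk : k ≤ c0) (hu : u ≤ c0) (hs : s ≤ c0)
    (hdec : ∀ y, y ≤ φ.qb c0 → FX.run f (mask nX z) t (Nat.pair y aX) ≠ none)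
    (hrun : (dlFn 2 (.neg φ) bot [FX, zFn]).run f (setcol z nX Y') Q
      (Nat.pair k (Nat.pair (Nat.pair u π') bc)) = none) :
    ∀ b', b' < s → φ.nsat (setv {y | ∃ t, FX.run f (mask nX z) t (Nat.pair y aX) = some true}
      {j | Y' j = true}) (asg v [k, u, b']) := by
  intro b' hb'
  by_contra hns
  -- no witness by stage `Q`
  have hnw : ¬ ∃ t, t ≤ Q ∧ (wit 2 (.neg φ) [FX, zFn] f (setcol z nX Y') t
      (Nat.pair k (Nat.pair (Nat.pair u π') bc)) ∨ wit 2 bot [FX, zFn] f (setcol z nX Y') t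
      (Nat.pair k (Nat.pair (Nat.pair u π') bc))) := by
    intro h
    simp only [dlFn] at hrun
    rw [dif_pos h] at hrun
    exact absurd hrun (by simp)
  apply hnw
  refine ⟨t, htQ, Or.inl ⟨b', by omega, ?_⟩⟩
  simp only [Nat.unpair_pair]
  set q := qry [FX, zFn] f (setcol z nX Y') bc t with hq
  have hq0 : ∀ y, q 0 y = FX.run f (mask nX z) t (Nat.pair y aX) := by
    intro y
    rw [hq]
    simp only [qry, List.getElem?_cons_zero, Nat.mul_zero, Nat.zero_add]
    rw [hb0, hb1, mask_setcol]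
  have hq1 : ∀ y, q 1 y = if y < t then some (Y' y) else none := by
    intro y
    rw [hq]
    simp only [qry, List.getElem?_cons_succ, List.getElem?_cons_zero, Nat.mul_one, zFn,
      Nat.unpair_pair]
    rw [hb2, hb3]
    by_cases hy : y < t
    · rw [if_pos ⟨hy, ht2⟩, if_pos hy]
      simp [mask, setcol]
    · rw [if_neg (fun h => hy h.1), if_neg hy]
  have hq2 : ∀ j y, q (j + 2) y = some false := by
    intro j y
    rw [hq]
    simp only [qry]
    simp
  set V : ℕ → Set ℕ := setv {y | ∃ t, FX.run f (mask nX z) t (Nat.pair y aX) = some true}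
      {j | Y' j = true} with hV
  have hsound : ∀ j y b, q j y = some b → (b = true ↔ y ∈ V j) := by
    intro j y b h
    rcases j with _ | _ | j
    · rw [hq0] at h
      rw [hV]
      constructor
      · intro hb
        rw [hb] at h
        exact ⟨t, h⟩
      · rintro ⟨t', ht'⟩
        rcases le_total t t' with h1 | h1
        · have := FX.mono _ _ _ _ _ _ h1 h
          rw [ht'] at this
          exact (Option.some.inj this).symm
        · have := FX.mono _ _ _ _ _ _ h1 ht'
          rw [h] at this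
          exact (Option.some.inj this)
    · rw [show 0 + 1 = 1 from rfl, hq1] at h
      split at h
      · have := Option.some.inj h
        rw [← this, hV]
        rfl
      · exact absurd h (by simp)
    · rw [show j + 1 + 1 = j + 2 from rfl, hq2] at h
      have := Option.some.inj h
      rw [← this, hV]
      simp [setv]
  set w := Function.update (dec (Nat.pair k (Nat.pair u π'))) 2 b' with hw
  have hcong := asg_congr φ v k u b' π' hv
  have hbound : ∀ n, n < φ.nb → w n ≤ c0 := by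
    intro n hn
    rw [hw, hcong n hn]
    rcases n with _ | _ | _ | n
    · simpa [asg] using hk
    · simpa [asg] using hu
    · simp only [asg]
      simp
      omega
    · have := hc0 (n + 3) hn
      simpa [asg] using this
  have hne : φ.dsat q w ≠ none := by
    apply Fm.dsat_ne_none φ q w c0 hbound
    intro j y hy
    rcases j with _ | _ | j
    · rw [hq0]; exact hdec y hy
    · rw [show 0 + 1 = 1 from rfl, hq1, if_pos (by omega)]; simp
    · rw [show j + 1 + 1 = j + 2 from rfl, hq2]; simp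
  obtain ⟨b0, hb0'⟩ := Option.ne_none_iff_exists'.mp hne
  have h1 := Fm.dsat_sound hsound φ w b0 hb0'
  have h2 : φ.nsat V w ↔ φ.nsat V (asg v [k, u, b']) :=
    Fm.nsat_congr φ V V w _ (fun _ _ => rfl) hcong
  have h3 : b0 = false := by
    cases b0
    · rfl
    · exact absurd (h2.mp (h1.mp rfl)) hns
  simp only [Fm.dsat]
  rw [hb0', h3]
  rfl

/-- the contradiction in one world -/
theorem world_final {E : Enum} {G : ℕ → ℕ} {i : ℕ} (W : WData E G i) (φ : Fm) (jX jN : ℕ)
    (hjN : E.F jN = dlFn 2 (.neg φ) bot [E.F jX, zFn]) (nX aX bc : ℕ)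
    (hb0 : dec bc 0 = nX) (hb1 : dec bc 1 = aX) (hb2 : dec bc 2 = nX + 1) (hb3 : dec bc 3 = nX)
    (t c0 k s u π' l m : ℕ) (v : ℕ → ℕ)
    (hk : k = lev jN nX (Nat.pair π' bc))
    (hv : ∀ m, m < φ.nb → dec π' m = v (m + 2))
    (htQ : t ≤ W.Q) (ht1 : φ.qb c0 < t) (ht2 : nX < t) (ht3 : s ≤ t)
    (hc0 : ∀ m, m < φ.nb → v m ≤ c0) (hkc : k ≤ c0) (hu : u ≤ c0) (hs : s ≤ c0)
    (hdec : ∀ y, y ≤ φ.qb c0 → (E.F jX).run W.f (mask nX W.z) t (Nat.pair y aX) ≠ none)
    (hl : φ.qb c0 < l)
    (hm : m = ((Finset.range (2 ^ l)).filter (fun σ => ∃ u', u' < u + 1 ∧ ∀ b', b' < s →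
      φ.nsat (setv {y | ∃ t, (E.F jX).run W.f (mask nX W.z) t (Nat.pair y aX) = some true}
        {j | σ.testBit j = true}) (asg v [k, u', b']))).card)
    (hmle : m * (2 ^ k * 2 ^ k) ≤ 2 ^ l * (2 ^ k + 2 ^ k)) :
    (E.F jN).run W.f (mask (nX + 1) W.z) W.Q (Nat.pair k (Nat.pair (Nat.pair u π') bc)) ≠
      none := by
  set Xh : Set ℕ := {y | ∃ t, (E.F jX).run W.f (mask nX W.z) t (Nat.pair y aX) = some true}
    with hXh
  set C : (ℕ → Bool) → Prop := fun Y' => ∃ u', u' < u + 1 ∧ ∀ b', b' < s →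
      φ.nsat (setv Xh {j | Y' j = true}) (asg v [k, u', b']) with hC
  have hbd : ∀ u' b', u' < u + 1 → b' < s → ∀ n, n < φ.nb → asg v [k, u', b'] n ≤ c0 := by
    intro u' b' hu' hb' n hn
    rcases n with _ | _ | _ | n
    · simpa [asg] using hkc
    · simp only [asg]
      simp
      omega
    · simp only [asg]
      simp
      omega
    · have := hc0 (n + 3) hn
      simpa [asg] using this
  have hdep : ∀ Y Y' : ℕ → Bool, (∀ x, x < l → Y x = Y' x) → (C Y ↔ C Y') := by
    have aux : ∀ Y Y' : ℕ → Bool, (∀ x, x < l → Y x = Y' x) → C Y → C Y' := by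
      intro Y Y' hYY hCY
      obtain ⟨u', hu', h⟩ := hCY
      refine ⟨u', hu', fun b' hb' => ?_⟩
      refine (Fm.nsat_congr_below φ _ _ _ c0 (hbd u' b' hu' hb') ?_).mp (h b' hb')
      intro j y hy
      rcases j with _ | _ | j
      · rfl
      · show Y y = true ↔ Y' y = true
        rw [hYY y (by omega)]
      · rfl
    exact fun Y Y' h => ⟨aux Y Y' h, aux Y' Y (fun x hx => (h x hx).symm)⟩
  have hcount := colMeas_count C l hdep
  have hm' : (m : ℝ) = colMeas.real {Y | C Y} * 2 ^ l := by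
    rw [hcount, hm]
    simp only [hC]
  have hreal : colMeas.real {Y | C Y} ≤ 2 * (1 / 2 : ℝ) ^ k := by
    have h1 : (m : ℝ) * (2 ^ k * 2 ^ k) ≤ 2 ^ l * (2 ^ k + 2 ^ k) := by exact_mod_cast hmle
    rw [hm'] at h1
    have hp : (0 : ℝ) < 2 ^ l := by positivity
    have hq : (0 : ℝ) < 2 ^ k := by positivity
    have h2 : colMeas.real {Y | C Y} * 2 ^ k ≤ 2 := by
      by_contra hcon
      push Not at hcon
      have : 2 ^ l * 2 ^ k * 2 < 2 ^ l * 2 ^ k * (colMeas.real {Y | C Y} * 2 ^ k) :=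
        mul_lt_mul_of_pos_left hcon (by positivity)
      nlinarith
    rw [one_div, inv_pow, ← div_eq_mul_inv, le_div_iff₀ hq]
    exact h2
  have hincl : {Y | ∃ u', u' < u + 1 ∧ (E.F jN).run W.f (setcol W.z nX Y) W.Q
      (tin (lev jN nX (Nat.pair π' bc)) u' (Nat.pair π' bc)) = none} ⊆ {Y | C Y} := by
    rintro Y ⟨u', hu', hrun⟩
    refine ⟨u', hu', ?_⟩
    rw [hjN, ← hk] at hrun
    simp only [tin, Nat.unpair_pair] at hrun
    exact world_incl φ (E.F jX) W.f W.z nX aX bc hb0 hb1 hb2 hb3 W.Q t c0 k s u' π' v Y hv htQ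
      ht1 ht2 ht3 hc0 hkc (by omega) hs hdec hrun
  have h1 := W.rand jN nX (Nat.pair π' bc) (u + 1)
    ((measureReal_mono hincl).trans (by rw [← hk]; exact hreal)) u (by omega)
  rw [setcol_self, ← hk] at h1
  simpa only [tin, Nat.unpair_pair] using h1

variable {A : Fam}

/-- the random column attached to a mask -/
def colSet (nX : MM A) : Set (MM A) := {x | AE (fun i => (A.W i).z (rep nX i) (rep x i) = true)}

theorem colSet_decide (nX x : MM A) :
    AE (fun i => (A.W i).z (rep nX i) (rep x i) = decide (x ∈ colSet nX)) := by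
  by_cases h : x ∈ colSet nX
  · refine AE.mono (p := fun i => (A.W i).z (rep nX i) (rep x i) = true) h ?_
    intro i hi
    rw [hi, decide_eq_true h]
  · have h1 : AE (fun i => ¬ (A.W i).z (rep nX i) (rep x i) = true) := by
      rw [ae_not]
      exact h
    refine h1.mono ?_
    intro i hi
    rw [decide_eq_false h]
    simpa using hi

/-- successor -/
noncomputable def msucc (x : MM A) : MM A := mk (fun i => rep x i + 1) ((rep_bd x).add (Bd.const 1))

theorem rep_msucc (x : MM A) : AE (fun i => rep (msucc x) i = rep x i + 1) := rep_mk _ _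

/-- maximum -/
noncomputable def mmax (x y : MM A) : MM A :=
  mk (fun i => max (rep x i) (rep y i)) ((rep_bd x).max (rep_bd y))

theorem rep_mmax (x y : MM A) : AE (fun i => rep (mmax x y) i = max (rep x i) (rep y i)) :=
  rep_mk _ _

theorem colSet_inS (nX : MM A) : InS A (colSet nX) := by
  obtain ⟨jz, hjz⟩ := A.E.z
  refine ⟨jz, msucc nX, nX, fun x => ⟨msucc (mmax x nX), ?_⟩⟩
  refine (((rep_msucc nX).and (rep_msucc (mmax x nX))).and ((rep_mmax x nX).and
    (colSet_decide nX x))).mono ?_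
  intro i hi
  obtain ⟨⟨e1, e2⟩, e3, e4⟩ := hi
  rw [hjz, e1, e2, e3, ← e4]
  simp only [zFn, Nat.unpair_pair]
  rw [if_pos ⟨by omega, by omega⟩]
  simp [mask]

theorem hyp_Xh {X : Set (MM A)} {jX : ℕ} {nX aX : MM A} (hX : ∀ x : MM A, ∃ s : MM A,
    AE (fun i => (A.E.F jX).run (A.W i).f (mask (rep nX i) (A.W i).z) (rep s i)
      (Nat.pair (rep x i) (rep aX i)) = some (decide (x ∈ X)))) (x : MM A) :
    x ∈ X ↔ AE (fun i => rep x i ∈ {y | ∃ t, (A.E.F jX).run (A.W i).f
      (mask (rep nX i) (A.W i).z) t (Nat.pair y (rep aX i)) = some true}) := by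
  obtain ⟨s, hs⟩ := hX x
  constructor
  · intro h
    refine hs.mono ?_
    intro i hi
    rw [decide_eq_true h] at hi
    exact ⟨_, hi⟩
  · intro h
    by_contra hn
    rw [decide_eq_false hn] at hs
    obtain ⟨i, hi, t, ht⟩ := ae_exists (hs.and h)
    rcases le_total t (rep s i) with h1 | h1
    · have := Fn.mono _ _ _ _ _ _ _ h1 ht
      rw [hi] at this
      exact absurd this (by simp)
    · have := Fn.mono _ _ _ _ _ _ _ h1 hi
      rw [ht] at this
      exact absurd this (by simp)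

theorem repv_asg (v : ℕ → MM A) (x y z : MM A) (i : ℕ) :
    repv (asg v [x, y, z]) i = asg (repv v i) [rep x i, rep y i, rep z i] := by
  funext n
  rcases n with _ | _ | _ | n <;> simp [repv, asg]

theorem test_iff {X : Set (MM A)} (Xh : ℕ → Set ℕ)
    (hX : ∀ x : MM A, x ∈ X ↔ AE (fun i => rep x i ∈ Xh i)) (φ : Fm) (v : ℕ → MM A)
    (k c s σ : MM A) :
    (∃ u, (Mod A).lt u c ∧ ∀ b, (Mod A).lt b s →
      φ.sat (Mod A) (setv X {j | Bit (Mod A) σ j}) (asg v [k, u, b])) ↔
    AE (fun i => ∃ u', u' < rep c i ∧ ∀ b', b' < rep s i →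
      φ.nsat (setv (Xh i) {j | (rep σ i).testBit j = true})
        (asg (repv v i) [rep k i, u', b'])) := by
  rw [← ae_exists_lt_iff (A := A) (fun i u' => ∀ b', b' < rep s i →
      φ.nsat (setv (Xh i) {j | (rep σ i).testBit j = true})
        (asg (repv v i) [rep k i, u', b']))]
  refine exists_congr (fun u => and_congr_right (fun hu => ?_))
  rw [← ae_forall_lt_iff (A := A) (fun i b' =>
      φ.nsat (setv (Xh i) {j | (rep σ i).testBit j = true})
        (asg (repv v i) [rep k i, rep u i, b']))]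
  refine forall_congr' (fun b => imp_congr_right (fun hb => ?_))
  refine (sat_iff φ (setv X {j | Bit (Mod A) σ j})
    (fun i => setv (Xh i) {j | (rep σ i).testBit j = true}) ?_ (asg v [k, u, b])).trans ?_
  · intro j x
    rcases j with _ | _ | j
    · exact hX x
    · exact bit_iff σ x
    · constructor
      · intro h; exact absurd h (by simp [setv])
      · intro h
        obtain ⟨i, hi⟩ := ae_exists h
        exact absurd hi (by simp [setv])
  · have e : ∀ i, repv (asg v [k, u, b]) i = asg (repv v i) [rep k i, rep u i, rep b i] :=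
      fun i => repv_asg v k u b i
    simp only [e]

theorem update_asg {M : Type} (v : ℕ → M) (k u y : M) :
    Function.update (asg v [k, u]) 2 y = asg v [k, u, y] := by
  funext n
  rcases n with _ | _ | _ | n
  · rw [Function.update_of_ne (by omega)]; simp [asg]
  · rw [Function.update_of_ne (by omega)]; simp [asg]
  · rw [Function.update_self]; simp [asg]
  · rw [Function.update_of_ne (by omega)]; simp [asg]

theorem sat_update (V : ℕ → Set (Mod A).M) (φ : Fm) (v : ℕ → (Mod A).M) (k u y : (Mod A).M)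
    (h : φ.sat (Mod A) V (asg v [k, u, y])) :
    φ.sat (Mod A) V (Function.update (asg v [k, u]) 2 y) := by
  rw [update_asg]; exact h

theorem exists_bound (v : ℕ → MM A) (N : ℕ) :
    ∃ c : MM A, AE (fun i => ∀ m, m < N → rep (v m) i ≤ rep c i) := by
  induction N with
  | zero => exact ⟨std 0, AE.of_forall (fun i m hm => absurd hm (Nat.not_lt_zero m))⟩
  | succ N ih =>
    obtain ⟨c, hc⟩ := ih
    refine ⟨mmax c (v N), (hc.and (rep_mmax c (v N))).mono ?_⟩
    intro i hi m hm
    rw [hi.2]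
    rcases Nat.lt_or_ge m N with h | h
    · exact (hi.1 m h).trans (le_max_left _ _)
    · rw [show m = N by omega]; exact le_max_right _ _

theorem no_test (X : Set (MM A)) (jX : ℕ) (nX aX : MM A)
    (hX : ∀ x : MM A, ∃ s : MM A, AE (fun i =>
      (A.E.F jX).run (A.W i).f (mask (rep nX i) (A.W i).z) (rep s i)
        (Nat.pair (rep x i) (rep aX i)) = some (decide (x ∈ X)))) (φ : Fm) (v : ℕ → MM A)
    (hmeas : ∀ k : MM A, MeasLE (Mod A) φ v X k) :
    ∃ k : MM A, ¬ ∃ u : MM A, ∀ b : MM A,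
      φ.sat (Mod A) (setv X (colSet nX)) (asg v [k, u, b]) := by
  by_contra hcon
  push Not at hcon
  obtain ⟨jz, hjz⟩ := A.E.z
  obtain ⟨b, hb⟩ := exists_enc (A := A) (fun k => match k with
    | 0 => nX | 1 => aX | 2 => msucc nX | _ => nX) 4
  have hb' : AE (fun i => dec (rep b i) 0 = rep nX i ∧ dec (rep b i) 1 = rep aX i ∧
      dec (rep b i) 2 = rep nX i + 1 ∧ dec (rep b i) 3 = rep nX i) := by
    refine (hb.and (rep_msucc nX)).mono ?_
    intro i hi
    refine ⟨hi.1 0 (by omega), hi.1 1 (by omega), ?_, hi.1 3 (by omega)⟩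
    rw [hi.1 2 (by omega)]
    exact hi.2
  have hcode : SetCode (setv X (colSet nX)) [jX, jz] b (msucc nX) := by
    intro j x
    rcases j with _ | _ | j
    · obtain ⟨s, hs⟩ := hX x
      refine ⟨s, (hs.and (hb'.and (rep_msucc nX))).mono ?_⟩
      intro i hi
      obtain ⟨e1, ⟨e2, e3, e4, e5⟩, e6⟩ := hi
      simp only [qry, List.map_cons, List.getElem?_cons_zero, Nat.mul_zero, Nat.zero_add]
      rw [e2, e3, e6, mask_mask _ _ (by omega), e1]
      rfl
    · refine ⟨msucc (mmax x nX), ?_⟩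
      refine (((rep_msucc nX).and (rep_msucc (mmax x nX))).and ((rep_mmax x nX).and
        ((colSet_decide nX x).and hb'))).mono ?_
      intro i hi
      obtain ⟨⟨e1, e2⟩, e3, e4, e5, e6, e7, e8⟩ := hi
      simp only [qry, List.map_cons, List.getElem?_cons_succ, List.getElem?_cons_zero,
        Nat.zero_add, Nat.mul_one]
      rw [hjz, e1, e2, e3, e7, e8, mask_mask _ _ le_rfl]
      simp only [zFn, Nat.unpair_pair]
      rw [if_pos ⟨by omega, by omega⟩]
      simp only [mask, if_pos (Nat.lt_succ_self _)]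
      rw [e4]
      rfl
    · refine ⟨x, AE.of_forall ?_⟩
      intro i
      simp only [qry]
      simp [setv]
  obtain ⟨π', hπ'⟩ := exists_enc (A := A) (fun m => v (m + 2)) φ.nb
  obtain ⟨jN, hjN⟩ := A.E.dl 2 (.neg φ) bot [jX, jz]
  have hkbd : Bd A (fun i => lev jN (rep nX i) (Nat.pair (rep π' i) (rep b i))) :=
    ((Bd.const jN).pair ((rep_bd nX).pair ((rep_bd π').pair (rep_bd b)))).add (Bd.const 4)
  set k : MM A := mk _ hkbd with hkdef
  have hk : AE (fun i => rep k i = lev jN (rep nX i) (Nat.pair (rep π' i) (rep b i))) :=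
    rep_mk _ _
  obtain ⟨u, hu⟩ := hcon k
  -- the search does not halt
  have hstar : ¬ AE (fun i => (A.E.F jN).run (A.W i).f (mask (rep (msucc nX) i) (A.W i).z)
      (A.W i).Q (Nat.pair (rep k i) (Nat.pair (rep (mpair u π') i) (rep b i))) ≠ none) := by
    rw [← search_iff hcode 2 jN (.neg φ) hjN k (mpair u π') (asg v [k, u]) ?_]
    · rintro ⟨y, hy⟩
      exact hy (sat_update (setv X (colSet nX)) φ v k u y (hu y))
    · refine (hπ'.and (rep_mpair u π')).mono ?_
      intro i hi n hn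
      rw [hi.2]
      simp only [Fm.nb] at hn
      rcases n with _ | _ | n
      · rw [dec_pair_zero]; simp [asg]
      · rw [dec_pair, dec_pair_zero]; simp [asg]
      · rw [dec_pair, dec_pair, hi.1 n (by omega)]; simp [asg]
  apply hstar
  -- the measure
  obtain ⟨s, l0, hl0⟩ := hmeas k (msucc u) k
  obtain ⟨c1, hc1⟩ := exists_bound v φ.nb
  set c0 : MM A := mmax c1 (mmax k (mmax u s)) with hc0def
  have hc0 : AE (fun i => rep c1 i ≤ rep c0 i ∧ rep k i ≤ rep c0 i ∧ rep u i ≤ rep c0 i ∧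
      rep s i ≤ rep c0 i) := by
    refine ((rep_mmax c1 (mmax k (mmax u s))).and ((rep_mmax k (mmax u s)).and
      (rep_mmax u s))).mono ?_
    intro i hi
    obtain ⟨e1, e2, e3⟩ := hi
    rw [hc0def, e1, e2, e3]
    refine ⟨?_, ?_, ?_, ?_⟩ <;> simp
  set B : MM A := mk _ (Bd.qb (rep_bd c0) φ) with hBdef
  have hB : AE (fun i => rep B i = φ.qb (rep c0 i)) := rep_mk _ _
  set l : MM A := mmax l0 (msucc B) with hldef
  have hl : AE (fun i => rep l0 i ≤ rep l i ∧ rep B i < rep l i) := by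
    refine ((rep_mmax l0 (msucc B)).and (rep_msucc B)).mono ?_
    intro i hi
    rw [hldef, hi.1, hi.2]
    refine ⟨le_max_left _ _, ?_⟩
    exact lt_of_lt_of_le (Nat.lt_succ_self _) (le_max_right _ _)
  have hll : ¬ (Mod A).lt l l0 := by
    intro h
    replace h := (lt_iff _ _).mp h
    obtain ⟨i, hi⟩ := ae_exists (h.and hl)
    omega
  obtain ⟨n, pk, pd, m, h1, h2, h3, h4, h5⟩ := hl0 l hll
  replace h1 := (pow2_iff _ _).mp h1
  replace h2 := (pow2_iff _ _).mp h2
  replace h3 := (pow2_iff _ _).mp h3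
  have hXh := hyp_Xh hX
  have h4' := count_imp _ (fun i σ => ∃ u', u' < rep (msucc u) i ∧ ∀ b', b' < rep s i →
      φ.nsat (setv {y | ∃ t, (A.E.F jX).run (A.W i).f
        (mask (rep nX i) (A.W i).z) t (Nat.pair y (rep aX i)) = some true}
          {j | σ.testBit j = true}) (asg (repv v i) [rep k i, u', b'])) n m
    (fun σ _ => test_iff (fun i => {y | ∃ t, (A.E.F jX).run (A.W i).f
        (mask (rep nX i) (A.W i).z) t (Nat.pair y (rep aX i)) = some true}) hXh φ v k
        (msucc u) s σ) h4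
  have h5' : AE (fun i => rep m i * (rep pk i * rep pd i) ≤ rep n i * (rep pk i + rep pd i)) := by
    have h6 : AE (fun i => ¬ rep (A := A) ((Mod A).mul n ((Mod A).add pk pd)) i <
        rep (A := A) ((Mod A).mul m ((Mod A).mul pk pd)) i) := by
      rw [ae_not]
      exact h5
    refine ((h6.and (rep_mul n ((Mod A).add pk pd))).and ((rep_mul m ((Mod A).mul pk pd)).and
      ((rep_mul pk pd).and (rep_add pk pd)))).mono ?_
    intro i hi
    obtain ⟨⟨e1, e2⟩, e3, e4, e5⟩ := hi
    rw [e2, e3, e4, e5] at e1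
    omega
  -- the stage
  obtain ⟨s1, hs1⟩ := hcode.upto B
  set t : MM A := mmax s1 (mmax (msucc B) (mmax (msucc nX) s)) with htdef
  have ht : AE (fun i => rep s1 i ≤ rep t i ∧ rep B i < rep t i ∧ rep nX i < rep t i ∧
      rep s i ≤ rep t i) := by
    refine (((rep_mmax s1 (mmax (msucc B) (mmax (msucc nX) s))).and
      (rep_mmax (msucc B) (mmax (msucc nX) s))).and ((rep_mmax (msucc nX) s).and
      ((rep_msucc B).and (rep_msucc nX)))).mono ?_
    intro i hi
    obtain ⟨⟨e1, e2⟩, e3, e4, e5⟩ := hi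
    rw [htdef, e1, e2, e3, e4, e5]
    refine ⟨by simp, ?_, ?_, ?_⟩
    · exact lt_of_lt_of_le (Nat.lt_succ_self _) ((le_max_left _ _).trans (le_max_right _ _))
    · exact lt_of_lt_of_le (Nat.lt_succ_self _)
        ((le_max_left _ _).trans ((le_max_right _ _).trans (le_max_right _ _)))
    · simp
  refine (((hb'.and hπ').and (hk.and (rep_mpair u π'))).and (((hc1.and hc0).and
    (hB.and hl)).and (((h1.and h2).and (h3.and h4')).and ((h5'.and hs1).and
      ((ht.and (rep_le_Q t)).and ((rep_msucc u).and (rep_msucc nX))))))).mono ?_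
  intro i hi
  obtain ⟨⟨⟨⟨b0, b1, b2, b3⟩, eπ⟩, ek, ep⟩, ⟨⟨ec1, ec0, ek0, eu0, es0⟩, eB, el1, el2⟩,
    ⟨⟨en, epk⟩, epd, ecount⟩, ⟨ele, eupto⟩, ⟨⟨et1, et2, et3, et4⟩, etQ⟩, eu, enX⟩ := hi
  rw [enX, ep]
  refine world_final (A.W i) φ jX jN (by rw [hjN]; simp [hjz]) (rep nX i) (rep aX i) (rep b i)
    b0 b1 b2 b3 (rep t i) (rep c0 i) (rep k i) (rep s i) (rep u i) (rep π' i) (rep l i)
    (rep m i) (repv v i) ek (fun m hm => eπ m hm) etQ (by omega) et3 et4
    (fun m hm => (ec1 m hm).trans ec0) ek0 eu0 es0 ?_ (by omega) ?_ ?_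
  · intro y hy hne
    have h6 := eupto 0 y (by omega)
    simp only [qry, List.map_cons, List.getElem?_cons_zero, Nat.mul_zero, Nat.zero_add] at h6
    rw [b0, b1, enX, mask_mask _ _ (by omega)] at h6
    have h7 := Fn.mono_ne (A.E.F jX) et1 h6
    rw [h7] at hne
    exact h6 hne
  · rw [ecount, en, eu]
    congr!
  · rw [epk, epd, en] at ele
    exact ele

theorem twoRAN : TwoRAN (Mod A) := by
  intro X hX
  obtain ⟨jX, nX, aX, hXc⟩ := hX
  refine ⟨colSet nX, colSet_inS nX, ?_⟩
  intro φ v hmeas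
  exact no_test X jX nX aX hXc φ v hmeas

end Pool.Agent.SepRT
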