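import Pool.Agent.Lib.MP_26a456_lc.Opp

/-!
# The data of the worlds, from the combinatorial core

Blueprint section 3: the random point is a sequence of columns, the opponents are the functionals,
and some point of the product space avoids all bad events.
-/

open Classical MeasureTheory

namespace Pool.Agent.SepRT

namespace World

/-! ## Measurability of sets which depend on finitely many bits -/

theorem meas_of_factor {A F : Type*} [MeasurableSpace A] [MeasurableSpace F] [Finite F]
    [MeasurableSingletonClass F] (ρ : A → F) (hρ : Measurable ρ) (S : Set A)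
    (hS : ∀ a a', ρ a = ρ a' → (a ∈ S ↔ a' ∈ S)) : MeasurableSet S := by
  have h : S = ρ ⁻¹' (ρ '' S) := by
    ext a
    constructor
    · intro ha
      exact ⟨a, ha, rfl⟩
    · rintro ⟨a', ha', h⟩
      exact (hS a' a h).mp ha'
  rw [h]
  exact hρ (Set.toFinite _).measurableSet

/-- restriction of an oracle to `[0, s) × [0, s)` -/
def res (s : ℕ) (z : Orc) : Fin s → Fin s → Bool := fun c x => z c x

theorem res_meas (s : ℕ) : Measurable (res s) := by
  refine measurable_pi_iff.mpr fun c => measurable_pi_iff.mpr fun x => ?_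
  exact (measurable_pi_apply (x : ℕ)).comp (measurable_pi_apply (c : ℕ))

theorem agreeZ_of_res {s : ℕ} {z w : Orc} (h : res s z = res s w) : AgreeZ s z w := by
  intro c x hc hx
  have := congrFun (congrFun h ⟨c, hc⟩) ⟨x, hx⟩
  exact this

theorem meas_of_agree (s : ℕ) (S : Set Orc)
    (hS : ∀ z w, AgreeZ s z w → (z ∈ S ↔ w ∈ S)) : MeasurableSet S :=
  meas_of_factor (res s) (res_meas s) S (fun z w h => hS z w (agreeZ_of_res h))

/-! ## The measures -/

instance coin_prob : IsProbabilityMeasure coin := by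
  constructor
  unfold coin
  simp only [Measure.smul_apply, Measure.add_apply, measure_univ, smul_eq_mul]
  rw [one_add_one_eq_two]
  exact ENNReal.inv_mul_cancel (by norm_num) (by norm_num)

instance colMeas_prob : IsProbabilityMeasure colMeas := by
  unfold colMeas
  infer_instance

/-- the law of the sequence of columns -/
noncomputable def orcMeas : Measure Orc := Measure.infinitePi (fun _ => colMeas)

instance orcMeas_prob : IsProbabilityMeasure orcMeas := by
  unfold orcMeas
  infer_instance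

/-! ## The opponents -/

theorem shown_agreeZ (F : ℕ → Fn) (e s : ℕ) (f : Col) {z w : Orc} (h : AgreeZ s z w) :
    shown F e s f z = shown F e s f w := by
  unfold shown
  have e1 : ∀ x, (F (Nat.unpair e).1).run f z s x = (F (Nat.unpair e).1).run f w s x :=
    fun x => (F (Nat.unpair e).1).use f f z w s x (fun _ _ _ _ => rfl) h
  simp only [e1]

theorem halts_agreeZ (F : ℕ → Fn) (e s : ℕ) (f : Col) {z w : Orc} (h : AgreeZ s z w) :
    halts F e s f z ↔ halts F e s f w := by
  unfold halts
  rw [(F (Nat.unpair e).1).use f f z w s _ (fun _ _ _ _ => rfl) h]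

/-- the opponents given by the functionals -/
noncomputable def opp (F : ℕ → Fn) : Opp Orc where
  Show e s f z := shown F e s f z
  Wit e s f := {z | halts F e s f z}
  show_lt := by
    intro e s f z x hx
    unfold shown at hx
    exact Finset.mem_range.mp (Finset.mem_filter.mp hx).1
  show_mono := by
    intro e s s' f z hs x hx
    unfold shown at hx ⊢
    rw [Finset.mem_filter, Finset.mem_range] at hx ⊢
    exact ⟨lt_of_lt_of_le hx.1 hs, Fn.mono _ _ _ _ _ _ _ hs hx.2⟩
  show_agree := by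
    intro e s f g h
    funext z
    unfold shown
    have e1 : ∀ x, (F (Nat.unpair e).1).run f z s x = (F (Nat.unpair e).1).run g z s x :=
      fun x => (F (Nat.unpair e).1).use f g z z s x h (fun _ _ _ _ => rfl)
    simp only [e1]
  show_meas := by
    intro e s f x
    refine meas_of_agree s _ ?_
    intro z w h
    simp only [Set.mem_ofPred_eq]
    rw [shown_agreeZ F e s f h]
  wit_mono := by
    intro e s s' f hs z hz
    simp only [Set.mem_ofPred_eq] at hz ⊢
    unfold halts at hz ⊢
    rw [Fn.mono_ne _ hs hz]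
    exact hz
  wit_agree := by
    intro e s f g h
    ext z
    simp only [Set.mem_ofPred_eq]
    unfold halts
    rw [(F (Nat.unpair e).1).use f g z z s _ h (fun _ _ _ _ => rfl)]
  wit_meas := by
    intro e s f
    refine meas_of_agree s _ ?_
    intro z w h
    simp only [Set.mem_ofPred_eq]
    exact halts_agreeZ F e s f h

/-! ## The tests -/

section test

variable (H : Fn) (f : Col) (Q n κ : ℕ) (π : ℕ)

/-- the clopen class of the columns `Y` for which some search below `c` has not halted -/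
def cls (H : Fn) (f : Col) (Q n κ π c : ℕ) (z : Orc) : Set (ℕ → Bool) :=
  {Y | ∃ u, u < c ∧ H.run f (setcol z n Y) Q (tin κ u π) = none}

/-- the bad event of a test -/
def bad (H : Fn) (f : Col) (Q n κ π : ℕ) (δ : ℝ) : Set Orc :=
  {z | ∃ c, colMeas.real (cls H f Q n κ π c z) ≤ δ ∧ z n ∈ cls H f Q n κ π c z}

theorem cls_mono {c c' : ℕ} (h : c ≤ c') (z : Orc) :
    cls H f Q n κ π c z ⊆ cls H f Q n κ π c' z := by
  rintro Y ⟨u, hu, h1⟩
  exact ⟨u, lt_of_lt_of_le hu h, h1⟩

/-- extension of a finite sequence of columns by empty columns -/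
def ext (n : ℕ) (x : (Finset.range n) → ℕ → Bool) : Orc :=
  fun c t => if h : c < n then x ⟨c, Finset.mem_range.mpr h⟩ t else false

theorem setcol_ext (n : ℕ) (z : Orc) (Y : ℕ → Bool) :
    setcol (ext n (fun i => z i)) n Y = setcol z n Y := by
  funext c x
  unfold setcol ext
  by_cases h : c < n
  · simp [h]
  · simp [h]

theorem agreeZ_setcol {Q n : ℕ} {z z' : Orc} {Y Y' : ℕ → Bool}
    (h : AgreeZ Q (setcol z n Y) (setcol z' n Y')) (Z : ℕ → Bool) :
    AgreeZ Q (setcol z n Z) (setcol z' n Z) := by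
  intro c x hc hx
  have h1 := h c x hc hx
  unfold setcol at h1 ⊢
  by_cases h2 : c < n
  · rw [if_pos h2, if_pos h2] at h1 ⊢
    exact h1
  · rw [if_neg h2, if_neg h2]

theorem cls_congr {z z' : Orc} {Y Y' : ℕ → Bool}
    (h : AgreeZ Q (setcol z n Y) (setcol z' n Y')) (c : ℕ) :
    cls H f Q n κ π c z = cls H f Q n κ π c z' := by
  ext Z
  unfold cls
  simp only [Set.mem_ofPred_eq]
  have e : ∀ u, H.run f (setcol z n Z) Q (tin κ u π) = H.run f (setcol z' n Z) Q (tin κ u π) :=
    fun u => H.use f f _ _ Q _ (fun _ _ _ _ => rfl) (agreeZ_setcol h Z)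
  simp only [e]

theorem mem_cls_congr {z z' : Orc} {Y Y' : ℕ → Bool}
    (h : AgreeZ Q (setcol z n Y) (setcol z' n Y')) (c : ℕ) :
    Y ∈ cls H f Q n κ π c z ↔ Y' ∈ cls H f Q n κ π c z' := by
  unfold cls
  simp only [Set.mem_ofPred_eq]
  have e : ∀ u, H.run f (setcol z n Y) Q (tin κ u π) = H.run f (setcol z' n Y') Q (tin κ u π) :=
    fun u => H.use f f _ _ Q _ (fun _ _ _ _ => rfl) h
  simp only [e]

/-- the bad event of a test, as a set of pairs (earlier columns, next column) -/
def bad2 (H : Fn) (f : Col) (Q n κ π : ℕ) (δ : ℝ) :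
    Set (((Finset.range n) → ℕ → Bool) × (ℕ → Bool)) :=
  {p | ∃ c, colMeas.real (cls H f Q n κ π c (ext n p.1)) ≤ δ ∧
    p.2 ∈ cls H f Q n κ π c (ext n p.1)}

theorem bad_eq (δ : ℝ) :
    bad H f Q n κ π δ =
      (fun z : Orc => ((fun i : Finset.range n => z i), z n)) ⁻¹' bad2 H f Q n κ π δ := by
  ext z
  unfold bad bad2
  simp only [Set.mem_ofPred_eq, Set.mem_preimage]
  have e : ∀ c, cls H f Q n κ π c (ext n (fun i : Finset.range n => z i)) =
      cls H f Q n κ π c z := by
    intro c
    refine cls_congr H f Q n κ π (Y := z n) (Y' := z n) ?_ c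
    rw [setcol_ext]
    intro c x _ _
    rfl
  simp only [e]

theorem bad2_meas (δ : ℝ) : MeasurableSet (bad2 H f Q n κ π δ) := by
  refine meas_of_factor (fun p => res Q (setcol (ext n p.1) n p.2)) ?_ _ ?_
  · refine measurable_pi_iff.mpr fun c => measurable_pi_iff.mpr fun x => ?_
    unfold res setcol ext
    by_cases h : (c : ℕ) < n
    · simp only [h, if_true, dif_pos]
      exact (measurable_pi_apply (x : ℕ)).comp
        ((measurable_pi_apply (⟨c, Finset.mem_range.mpr h⟩ : Finset.range n)).comp measurable_fst)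
    · by_cases h' : (c : ℕ) = n
      · simp only [h', if_true, if_false, lt_irrefl]
        exact (measurable_pi_apply (x : ℕ)).comp measurable_snd
      · simp only [h, h', if_false]
        exact measurable_const
  · intro p p' h
    have h1 := agreeZ_of_res h
    unfold bad2
    simp only [Set.mem_ofPred_eq]
    have e : ∀ c, cls H f Q n κ π c (ext n p.1) = cls H f Q n κ π c (ext n p'.1) :=
      fun c => cls_congr H f Q n κ π h1 c
    have e' : ∀ c, p.2 ∈ cls H f Q n κ π c (ext n p.1) ↔ p'.2 ∈ cls H f Q n κ π c (ext n p'.1) :=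
      fun c => mem_cls_congr H f Q n κ π h1 c
    constructor
    · rintro ⟨c, h2, h3⟩
      exact ⟨c, by rw [← e]; exact h2, (e' c).mp h3⟩
    · rintro ⟨c, h2, h3⟩
      exact ⟨c, by rw [e]; exact h2, (e' c).mpr h3⟩

theorem slice_le (δ : ℝ) (x : (Finset.range n) → ℕ → Bool) :
    colMeas (Prod.mk x ⁻¹' bad2 H f Q n κ π δ) ≤ ENNReal.ofReal δ := by
  have e : Prod.mk x ⁻¹' bad2 H f Q n κ π δ =
      ⋃ c : {c : ℕ // colMeas.real (cls H f Q n κ π c (ext n x)) ≤ δ},
        cls H f Q n κ π c (ext n x) := by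
    ext Y
    unfold bad2
    simp only [Set.mem_preimage, Set.mem_ofPred_eq, Set.mem_iUnion, Subtype.exists]
    constructor
    · rintro ⟨c, h1, h2⟩
      exact ⟨c, h1, h2⟩
    · rintro ⟨c, h1, h2⟩
      exact ⟨c, h1, h2⟩
  rw [e, Directed.measure_iUnion]
  · refine iSup_le fun c => ?_
    rw [← ofReal_measureReal (measure_ne_top _ _)]
    exact ENNReal.ofReal_le_ofReal c.2
  · intro c c'
    rcases le_total (c : ℕ) (c' : ℕ) with h | h
    · exact ⟨c', cls_mono H f Q n κ π h _, subset_rfl⟩
    · exact ⟨c, subset_rfl, cls_mono H f Q n κ π h _⟩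

theorem bad_le (δ : ℝ) : orcMeas (bad H f Q n κ π δ) ≤ ENNReal.ofReal δ := by
  have hind : ProbabilityTheory.IndepFun (fun (z : Orc) (i : Finset.range n) => z i)
      (fun (z : Orc) => z n) orcMeas := by
    have h1 : ProbabilityTheory.iIndepFun (fun (i : ℕ) (z : Orc) => z i) orcMeas := by
      have := ProbabilityTheory.iIndepFun_infinitePi (ι := ℕ) (Ω := fun _ => ℕ → Bool)
        (P := fun _ => colMeas) (X := fun (_ : ℕ) (ω : ℕ → Bool) => ω) (fun i => measurable_id)
      exact this
    have h2 := h1.indepFun_finset (Finset.range n) {n} (by simp)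
      (fun i => measurable_pi_apply i)
    exact h2.comp measurable_id
      (measurable_pi_apply (⟨n, Finset.mem_singleton_self n⟩ : ({n} : Finset ℕ)))
  have hX : Measurable (fun (z : Orc) (i : Finset.range n) => z i) :=
    measurable_pi_iff.mpr fun i => measurable_pi_apply (i : ℕ)
  have hY : Measurable (fun (z : Orc) => z n) := measurable_pi_apply n
  have hmap := (ProbabilityTheory.indepFun_iff_map_prod_eq_prod_map_map hX.aemeasurable
    hY.aemeasurable).mp hind
  have hYm : orcMeas.map (fun z : Orc => z n) = colMeas :=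
    Measure.infinitePi_map_eval (fun _ : ℕ => colMeas) n
  rw [bad_eq, ← Measure.map_apply (hX.prodMk hY) (bad2_meas H f Q n κ π δ), hmap, hYm,
    Measure.prod_apply (bad2_meas H f Q n κ π δ)]
  have : IsProbabilityMeasure (orcMeas.map (fun (z : Orc) (i : Finset.range n) => z i)) :=
    Measure.isProbabilityMeasure_map hX.aemeasurable
  calc ∫⁻ x, colMeas (Prod.mk x ⁻¹' bad2 H f Q n κ π δ)
        ∂(orcMeas.map (fun (z : Orc) (i : Finset.range n) => z i))
      ≤ ∫⁻ _, ENNReal.ofReal δ ∂(orcMeas.map (fun (z : Orc) (i : Finset.range n) => z i)) :=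
        lintegral_mono fun x => slice_le H f Q n κ π δ x
    _ = ENNReal.ofReal δ := by
        rw [lintegral_const, measure_univ, mul_one]

end test

/-! ## Arithmetic -/

theorem level_real (l t : ℕ) (h : l + 2 ≤ t) :
    ((t : ℝ) + 1) * (1 / 2 : ℝ) ^ (2 * t + 2) ≤ (1 / 2 : ℝ) ^ (l + 4) := by
  have h1 : ((t : ℝ) + 1) ≤ 2 ^ t := by
    exact_mod_cast Nat.lt_two_pow_self
  have h2 : (1 / 2 : ℝ) ^ (2 * t + 2) = (1 / 2 : ℝ) ^ t * (1 / 2 : ℝ) ^ (t + 2) := by
    rw [← pow_add]; congr 1; omega
  have h3 : (2 : ℝ) ^ t * (1 / 2 : ℝ) ^ t = 1 := by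
    rw [← mul_pow]; norm_num
  calc ((t : ℝ) + 1) * (1 / 2 : ℝ) ^ (2 * t + 2)
      ≤ 2 ^ t * (1 / 2 : ℝ) ^ (2 * t + 2) :=
        mul_le_mul_of_nonneg_right h1 (by positivity)
    _ = (1 / 2 : ℝ) ^ (t + 2) := by rw [h2, ← mul_assoc, h3, one_mul]
    _ ≤ (1 / 2 : ℝ) ^ (l + 4) := by
        apply pow_le_pow_of_le_one (by norm_num) (by norm_num)
        omega

theorem sum_level : ∑' l : ℕ, ENNReal.ofReal ((1 / 2 : ℝ) ^ (l + 4)) = ENNReal.ofReal (1 / 8) := by
  have hs : Summable (fun l : ℕ => (1 / 2 : ℝ) ^ (l + 4)) := by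
    simp only [pow_add]
    exact summable_geometric_two.mul_right _
  rw [← ENNReal.ofReal_tsum_of_nonneg (fun l => by positivity) hs]
  congr 1
  simp only [pow_add]
  rw [tsum_mul_right, tsum_geometric_two]
  norm_num

theorem sum_test : ∑' m : ℕ, ENNReal.ofReal (2 * (1 / 2 : ℝ) ^ (m + 4)) =
    ENNReal.ofReal (1 / 4) := by
  have hs : Summable (fun m : ℕ => 2 * (1 / 2 : ℝ) ^ (m + 4)) := by
    simp only [pow_add]
    exact (summable_geometric_two.mul_right _).mul_left _
  rw [← ENNReal.ofReal_tsum_of_nonneg (fun l => by positivity) hs]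
  congr 1
  simp only [pow_add]
  rw [tsum_mul_left, tsum_mul_right, tsum_geometric_two]
  norm_num

/-- The data of the `i`-th world exist, given the combinatorial core for the product measure. -/
theorem exists_wdata_of_core
    (hcore : ∀ (O : Opp Orc) (G : ℕ → ℕ) (k t0 : ℕ),
      ∃ (f : Col) (T : ℕ → ℕ), T 0 = t0 ∧
        (∀ l, l < k → G (T l) ≤ T (l + 1) ∧ T l < T (l + 1)) ∧
        Shape k f ∧
        (∀ l, l < k → ∀ s, orcMeas.real (⋃ e ∈ Finset.range (T l),
          (O.Wit e s f \ O.Wit e (T (l + 1)) f)) ≤ (1 / 2 : ℝ) ^ (2 * T l + 2)) ∧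
        (∀ l, l < k → ∀ s, ∀ e, e < T l →
          orcMeas.real {ω | Indep f (O.Show e s f ω) ∧ T (l + 1) ≤ (O.Show e s f ω).card} ≤
            (1 / 2 : ℝ) ^ (2 * T l + 2)))
    (E : Enum) (G : ℕ → ℕ) (i : ℕ) : Nonempty (WData E G i) := by
  obtain ⟨f, T, hT0, hT, hS, hW, hI⟩ := hcore (opp E.F) G i (i + 2)
  have hlow : ∀ l, l ≤ i → l + 2 ≤ T l := by
    intro l
    induction l with
    | zero => intro _; omega
    | succ l ih =>
      intro h
      have := ih (by omega)
      have := (hT l (by omega)).2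
      omega
  have hQ : ∀ d l, l + d = i → T l ≤ T i := by
    intro d
    induction d with
    | zero => intro l h; rw [show l = i by omega]
    | succ d ih =>
      intro l h
      exact le_trans (hT l (by omega)).2.le (ih (l + 1) (by omega))
  have hTQ : ∀ l, l ≤ i → T l ≤ T i := fun l h => hQ (i - l) l (by omega)
  -- the bad events
  set Q := T i with hQdef
  set A1 : Set Orc := ⋃ l ∈ Finset.range i, ⋃ e ∈ Finset.range (T l),
    ((opp E.F).Wit e Q f \ (opp E.F).Wit e (T (l + 1)) f) with hA1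
  set A2 : Set Orc := ⋃ l ∈ Finset.range i, ⋃ e ∈ Finset.range (T l),
    {ω | Indep f ((opp E.F).Show e Q f ω) ∧ T (l + 1) ≤ ((opp E.F).Show e Q f ω).card} with hA2
  set A3 : Set Orc := ⋃ m : ℕ, bad (E.F (Nat.unpair m).1) f Q (Nat.unpair (Nat.unpair m).2).1
    (m + 4) (Nat.unpair (Nat.unpair m).2).2 (2 * (1 / 2 : ℝ) ^ (m + 4)) with hA3
  have h1 : orcMeas A1 ≤ ∑ l ∈ Finset.range i,
      ENNReal.ofReal ((1 / 2 : ℝ) ^ (2 * T l + 2)) := by
    refine le_trans (measure_biUnion_finset_le _ _) (Finset.sum_le_sum fun l hl => ?_)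
    rw [← ofReal_measureReal (measure_ne_top _ _)]
    exact ENNReal.ofReal_le_ofReal (hW l (Finset.mem_range.mp hl) Q)
  have h2 : orcMeas A2 ≤ ∑ l ∈ Finset.range i,
      (T l : ENNReal) * ENNReal.ofReal ((1 / 2 : ℝ) ^ (2 * T l + 2)) := by
    refine le_trans (measure_biUnion_finset_le _ _) (Finset.sum_le_sum fun l hl => ?_)
    refine le_trans (measure_biUnion_finset_le _ _) ?_
    have : ∀ e ∈ Finset.range (T l), orcMeas
        {ω | Indep f ((opp E.F).Show e Q f ω) ∧ T (l + 1) ≤ ((opp E.F).Show e Q f ω).card} ≤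
        ENNReal.ofReal ((1 / 2 : ℝ) ^ (2 * T l + 2)) := by
      intro e he
      rw [← ofReal_measureReal (measure_ne_top _ _)]
      exact ENNReal.ofReal_le_ofReal (hI l (Finset.mem_range.mp hl) Q e (Finset.mem_range.mp he))
    refine le_trans (Finset.sum_le_sum this) ?_
    rw [Finset.sum_const, Finset.card_range, nsmul_eq_mul]
  have h12 : orcMeas A1 + orcMeas A2 ≤ ENNReal.ofReal (1 / 8) := by
    refine le_trans (add_le_add h1 h2) ?_
    rw [← Finset.sum_add_distrib, ← sum_level]
    refine le_trans (Finset.sum_le_sum fun l hl => ?_) (ENNReal.sum_le_tsum (Finset.range i))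
    have hl' : l + 2 ≤ T l := hlow l (Finset.mem_range.mp hl).le
    have e1 : (T l : ENNReal) = ENNReal.ofReal (T l : ℝ) := (ENNReal.ofReal_natCast _).symm
    rw [e1, ← ENNReal.ofReal_mul (by positivity), ← ENNReal.ofReal_add (by positivity)
      (by positivity)]
    refine ENNReal.ofReal_le_ofReal ?_
    have := level_real l (T l) hl'
    linarith
  have h3 : orcMeas A3 ≤ ENNReal.ofReal (1 / 4) := by
    refine le_trans (measure_iUnion_le _) ?_
    rw [← sum_test]
    exact ENNReal.tsum_le_tsum fun m => bad_le _ _ _ _ _ _ _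
  have hall : orcMeas (A1 ∪ A2 ∪ A3) < 1 := by
    calc orcMeas (A1 ∪ A2 ∪ A3) ≤ orcMeas (A1 ∪ A2) + orcMeas A3 := measure_union_le _ _
      _ ≤ (orcMeas A1 + orcMeas A2) + orcMeas A3 := add_le_add (measure_union_le _ _) le_rfl
      _ ≤ ENNReal.ofReal (1 / 8) + ENNReal.ofReal (1 / 4) := add_le_add h12 h3
      _ = ENNReal.ofReal (3 / 8) := by
          rw [← ENNReal.ofReal_add (by norm_num) (by norm_num)]; norm_num
      _ < 1 := by
          rw [← ENNReal.ofReal_one]
          exact (ENNReal.ofReal_lt_ofReal_iff (by norm_num)).mpr (by norm_num)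
  obtain ⟨z, hz⟩ : ∃ z, z ∉ A1 ∪ A2 ∪ A3 := by
    by_contra hcon
    push Not at hcon
    have : A1 ∪ A2 ∪ A3 = Set.univ := Set.eq_univ_of_forall hcon
    rw [this, measure_univ] at hall
    exact lt_irrefl _ hall
  have hz1 : z ∉ A1 := fun h => hz (Or.inl (Or.inl h))
  have hz2 : z ∉ A2 := fun h => hz (Or.inl (Or.inr h))
  have hz3 : z ∉ A3 := fun h => hz (Or.inr h)
  have hT0' : i + 2 ≤ T 0 := hT0.ge
  refine ⟨⟨f, T, Q, z, hT0', hT, hTQ, hS, ?_, ?_, ?_⟩⟩
  · intro l hl e he h4
    by_contra h5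
    apply hz1
    rw [hA1]
    simp only [Set.mem_iUnion, Finset.mem_range]
    exact ⟨l, hl, e, he, h4, h5⟩
  · intro l hl e he h4
    apply hz2
    rw [hA2]
    simp only [Set.mem_iUnion, Finset.mem_range]
    exact ⟨l, hl, e, he, h4⟩
  · intro j n π c h4 u hu h5
    apply hz3
    rw [hA3]
    refine Set.mem_iUnion.mpr ⟨Nat.pair j (Nat.pair n π), ?_⟩
    simp only [Nat.unpair_pair]
    exact ⟨c, h4, u, hu, h5⟩

end World

end Pool.Agent.SepRT
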