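import Pool.Agent.Lib.MP_26a456_lc.Core
import Pool.Agent.Lib.MP_26a456_lc.World
import Pool.Agent.Lib.MP_26a456_lc.Enum
import Pool.Agent.Lib.MP_26a456_lc.Model

/-!
# Existence of the worlds
-/

open Classical MeasureTheory

namespace Pool.Agent.SepRT

theorem exists_wdata (E : Enum) (G : ℕ → ℕ) (i : ℕ) : Nonempty (WData E G i) :=
  World.exists_wdata_of_core (core World.orcMeas) E G i

/-- the sequence of powers of two has a code -/
theorem exists_pow_code (l : ℕ) : ∃ a b : ℕ, ∀ j, j ≤ l → a % (b * (j + 1) + 1) = 2 ^ j := by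
  set L : List ℕ := (List.range (l + 1)).map (fun j => 2 ^ j) with hL
  have hlen : L.length = l + 1 := by rw [hL]; simp
  refine ⟨(Nat.unbeta L).unpair.1, (Nat.unbeta L).unpair.2, fun j hj => ?_⟩
  have h := Nat.beta_unbeta_coe L ⟨j, by rw [hlen]; omega⟩
  simp only [Nat.beta] at h
  rw [mul_comm _ (j + 1), h]
  simp [hL]

/-- a growth function -/
theorem exists_growth : ∃ G : ℕ → ℕ, Growth G := by
  choose a b hab using exists_pow_code
  have hle : ∀ n, (n + 3) ^ 2 + 2 ^ n + a n + b n ≤
      ∑ m ∈ Finset.range (n + 1), ((m + 3) ^ 2 + 2 ^ m + a m + b m) := by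
    intro n
    exact Finset.single_le_sum (f := fun m => (m + 3) ^ 2 + 2 ^ m + a m + b m)
      (fun _ _ => Nat.zero_le _) (Finset.mem_range.mpr (Nat.lt_succ_self n))
  refine ⟨fun n => ∑ m ∈ Finset.range (n + 1), ((m + 3) ^ 2 + 2 ^ m + a m + b m), ?_, ?_, ?_, ?_⟩
  · intro m n hmn
    apply Finset.sum_le_sum_of_subset
    intro x hx
    rw [Finset.mem_range] at hx ⊢
    omega
  · intro n
    refine le_trans ?_ (hle n)
    generalize (n + 3) ^ 2 = p
    generalize 2 ^ n = q
    omega
  · intro n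
    refine le_trans ?_ (hle n)
    generalize (n + 3) ^ 2 = p
    generalize 2 ^ n = q
    omega
  · intro l
    refine ⟨a l, b l, le_trans ?_ (hle l), le_trans ?_ (hle l), hab l⟩
    · generalize (l + 3) ^ 2 = p
      generalize 2 ^ l = q
      omega
    · generalize (l + 3) ^ 2 = p
      generalize 2 ^ l = q
      omega

/-- the family of worlds exists -/
theorem exists_fam : Nonempty Fam := by
  obtain ⟨E⟩ := exists_enum
  obtain ⟨G, hG⟩ := exists_growth
  exact ⟨⟨E, G, hG, fun i => Classical.choice (exists_wdata E G i)⟩⟩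

end Pool.Agent.SepRT
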